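import Pool.Agent.H78.SS.Nrm

/-! ARI: coordinate vectors c = (c 0, c 1, c 2) of the points of the orbit with respect to e1, e2, e3 (I, rho I, rho^2 I).
The Gram form is G = (2-th)<,> with G(e_i,e_i) = 2-th, G(e_i,e_j) = th; G(x,x) = (2-2th) sum x_i^2 + th (sum x_i)^2.
The four operations below are k, k^-1, rho, rho^-1; they preserve G (for every value of th) and sum = 1 mod 2.
gap: beta = G(e1, c) = th sum c + 2(1-th) c 0 = th + 2 h with h = th eta + (1 - th) c 0 in Z[theta].  At t2, t3 the form is positive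
definite, so |beta_i| <= 2 - t_i by Cauchy-Schwarz: (2-t)G(x,x) - G(e1,x)^2 = (1-t)(4 x1^2 + 4 x2^2 + 4 t x1 x2) >= 0.  Hence h2 in
[-1, 1-t2], h3 in [-1, 1-t3], |h2| <= 1-t2, |h3| <= 1-t3.  If 2 - t1 < beta < t1 then 1 - t1 < h1 < 0, |h1 h2 h3| < 1 by t_unit, so the
norm of h is 0 and h1 = 0: contradiction. -/

set_option autoImplicit false

namespace Pool.Agent.H78.SS

open Real

structure GoodV (c : Fin 3 → ℝ × ℝ × ℝ) : Prop where
  int : ∀ i, InO (c i)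
  par : ∃ eta, InO eta ∧ c 0 + c 1 + c 2 = 1 + 2 * eta
  q2 : (2 - 2 * t2) * ((c 0).2.1 ^ 2 + (c 1).2.1 ^ 2 + (c 2).2.1 ^ 2)
        + t2 * ((c 0).2.1 + (c 1).2.1 + (c 2).2.1) ^ 2 = 2 - t2
  q3 : (2 - 2 * t3) * ((c 0).2.2 ^ 2 + (c 1).2.2 ^ 2 + (c 2).2.2 ^ 2)
        + t3 * ((c 0).2.2 + (c 1).2.2 + (c 2).2.2) ^ 2 = 2 - t3

theorem ari_InO_one : InO (1 : ℝ × ℝ × ℝ) := by
  have h := InO_int 1
  rw [Int.cast_one] at h
  exact h

theorem ari_InO_zero : InO (0 : ℝ × ℝ × ℝ) := by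
  have h := InO_int 0
  rw [Int.cast_zero] at h
  exact h

theorem good_base : GoodV ![1, 0, 0] := by
  refine ⟨?_, ⟨0, ari_InO_zero, ?_⟩, ?_, ?_⟩
  · intro i
    fin_cases i
    · exact ari_InO_one
    · exact ari_InO_zero
    · exact ari_InO_zero
  · simp
  · simp
    ring
  · simp
    ring

theorem ari_quad_k (t x0 x1 x2 : ℝ) :
    (2 - 2 * t) * ((x0 + t * x2) ^ 2 + (-x2) ^ 2 + (x1 + t * x2) ^ 2)
      + t * ((x0 + t * x2) + (-x2) + (x1 + t * x2)) ^ 2 =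
    (2 - 2 * t) * (x0 ^ 2 + x1 ^ 2 + x2 ^ 2) + t * (x0 + x1 + x2) ^ 2 := by
  ring

theorem ari_quad_k_inv (t x0 x1 x2 : ℝ) :
    (2 - 2 * t) * ((x0 + t * x1) ^ 2 + (x2 + t * x1) ^ 2 + (-x1) ^ 2)
      + t * ((x0 + t * x1) + (x2 + t * x1) + (-x1)) ^ 2 =
    (2 - 2 * t) * (x0 ^ 2 + x1 ^ 2 + x2 ^ 2) + t * (x0 + x1 + x2) ^ 2 := by
  ring

theorem good_k {c : Fin 3 → ℝ × ℝ × ℝ} (h : GoodV c) :
    GoodV ![c 0 + tt * c 2, -c 2, c 1 + tt * c 2] := by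
  obtain ⟨eta, he, hp⟩ := h.par
  refine ⟨?_, ⟨eta + (-(c 2)) + tt * c 2, ?_, ?_⟩, ?_, ?_⟩
  · intro i
    fin_cases i
    · exact InO_add (h.int 0) (InO_mul InO_tt (h.int 2))
    · exact InO_neg (h.int 2)
    · exact InO_add (h.int 1) (InO_mul InO_tt (h.int 2))
  · exact InO_add (InO_add he (InO_neg (h.int 2))) (InO_mul InO_tt (h.int 2))
  · change c 0 + tt * c 2 + -c 2 + (c 1 + tt * c 2) = _
    linear_combination hp
  · have := ari_quad_k t2 (c 0).2.1 (c 1).2.1 (c 2).2.1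
    have h2 := h.q2
    change (2 - 2 * t2) * (((c 0).2.1 + t2 * (c 2).2.1) ^ 2 + (-(c 2).2.1) ^ 2 +
      ((c 1).2.1 + t2 * (c 2).2.1) ^ 2) + t2 * (((c 0).2.1 + t2 * (c 2).2.1) + (-(c 2).2.1) +
      ((c 1).2.1 + t2 * (c 2).2.1)) ^ 2 = 2 - t2
    rw [this, h2]
  · have := ari_quad_k t3 (c 0).2.2 (c 1).2.2 (c 2).2.2
    have h2 := h.q3
    change (2 - 2 * t3) * (((c 0).2.2 + t3 * (c 2).2.2) ^ 2 + (-(c 2).2.2) ^ 2 +
      ((c 1).2.2 + t3 * (c 2).2.2) ^ 2) + t3 * (((c 0).2.2 + t3 * (c 2).2.2) + (-(c 2).2.2) +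
      ((c 1).2.2 + t3 * (c 2).2.2)) ^ 2 = 2 - t3
    rw [this, h2]

theorem good_k_inv {c : Fin 3 → ℝ × ℝ × ℝ} (h : GoodV c) :
    GoodV ![c 0 + tt * c 1, c 2 + tt * c 1, -c 1] := by
  obtain ⟨eta, he, hp⟩ := h.par
  refine ⟨?_, ⟨eta + (-(c 1)) + tt * c 1, ?_, ?_⟩, ?_, ?_⟩
  · intro i
    fin_cases i
    · exact InO_add (h.int 0) (InO_mul InO_tt (h.int 1))
    · exact InO_add (h.int 2) (InO_mul InO_tt (h.int 1))
    · exact InO_neg (h.int 1)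
  · exact InO_add (InO_add he (InO_neg (h.int 1))) (InO_mul InO_tt (h.int 1))
  · change c 0 + tt * c 1 + (c 2 + tt * c 1) + -c 1 = _
    linear_combination hp
  · have := ari_quad_k_inv t2 (c 0).2.1 (c 1).2.1 (c 2).2.1
    have h2 := h.q2
    change (2 - 2 * t2) * (((c 0).2.1 + t2 * (c 1).2.1) ^ 2 +
      ((c 2).2.1 + t2 * (c 1).2.1) ^ 2 + (-(c 1).2.1) ^ 2) + t2 * (((c 0).2.1 + t2 * (c 1).2.1) +
      ((c 2).2.1 + t2 * (c 1).2.1) + (-(c 1).2.1)) ^ 2 = 2 - t2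
    rw [this, h2]
  · have := ari_quad_k_inv t3 (c 0).2.2 (c 1).2.2 (c 2).2.2
    have h2 := h.q3
    change (2 - 2 * t3) * (((c 0).2.2 + t3 * (c 1).2.2) ^ 2 +
      ((c 2).2.2 + t3 * (c 1).2.2) ^ 2 + (-(c 1).2.2) ^ 2) + t3 * (((c 0).2.2 + t3 * (c 1).2.2) +
      ((c 2).2.2 + t3 * (c 1).2.2) + (-(c 1).2.2)) ^ 2 = 2 - t3
    rw [this, h2]

theorem good_r {c : Fin 3 → ℝ × ℝ × ℝ} (h : GoodV c) : GoodV ![c 2, c 0, c 1] := by
  obtain ⟨eta, he, hp⟩ := h.par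
  refine ⟨?_, ⟨eta, he, ?_⟩, ?_, ?_⟩
  · intro i
    fin_cases i
    · exact h.int 2
    · exact h.int 0
    · exact h.int 1
  · change c 2 + c 0 + c 1 = _
    rw [← hp]
    ring
  · have h2 := h.q2
    change (2 - 2 * t2) * ((c 2).2.1 ^ 2 + (c 0).2.1 ^ 2 + (c 1).2.1 ^ 2)
        + t2 * ((c 2).2.1 + (c 0).2.1 + (c 1).2.1) ^ 2 = 2 - t2
    rw [← h2]
    ring
  · have h2 := h.q3
    change (2 - 2 * t3) * ((c 2).2.2 ^ 2 + (c 0).2.2 ^ 2 + (c 1).2.2 ^ 2)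
        + t3 * ((c 2).2.2 + (c 0).2.2 + (c 1).2.2) ^ 2 = 2 - t3
    rw [← h2]
    ring

theorem good_r_inv {c : Fin 3 → ℝ × ℝ × ℝ} (h : GoodV c) : GoodV ![c 1, c 2, c 0] := by
  have h1 := good_r (good_r h)
  exact h1

/-- Cauchy-Schwarz in coordinates -/
theorem ari_cs_bound {t x0 x1 x2 : ℝ} (h1 : -2 < t) (h2 : t < 1)
    (hq : (2 - 2 * t) * (x0 ^ 2 + x1 ^ 2 + x2 ^ 2) + t * (x0 + x1 + x2) ^ 2 = 2 - t) :
    -(2 - t) ≤ (2 - t) * x0 + t * (x1 + x2) ∧ (2 - t) * x0 + t * (x1 + x2) ≤ 2 - t := by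
  have hpos : 0 ≤ (1 - t) * (4 * x1 ^ 2 + 4 * x2 ^ 2 + 4 * t * (x1 * x2)) := by
    apply mul_nonneg (by linarith)
    nlinarith [mul_nonneg (by linarith : (0:ℝ) ≤ 2 - t) (sq_nonneg (x1 - x2)),
      mul_nonneg (by linarith : (0:ℝ) ≤ 2 + t) (sq_nonneg (x1 + x2))]
  have hsq : ((2 - t) * x0 + t * (x1 + x2)) ^ 2 ≤ (2 - t) ^ 2 := by
    have e : (2 - t) * (2 - t) - ((2 - t) * x0 + t * (x1 + x2)) ^ 2 =
        (1 - t) * (4 * x1 ^ 2 + 4 * x2 ^ 2 + 4 * t * (x1 * x2)) := by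
      linear_combination (-(2 - t)) * hq
    nlinarith
  have h := abs_le_of_sq_le_sq hsq (by linarith)
  exact abs_le.mp h

theorem good_gap {c : Fin 3 → ℝ × ℝ × ℝ} (h : GoodV c)
    (hb : 2 - t1 ≤ (2 - t1) * (c 0).1 + t1 * ((c 1).1 + (c 2).1)) :
    (2 - t1) * (c 0).1 + t1 * ((c 1).1 + (c 2).1) = 2 - t1 ∨
      t1 ≤ (2 - t1) * (c 0).1 + t1 * ((c 1).1 + (c 2).1) := by
  rcases eq_or_lt_of_le hb with hb' | hb'
  · left
    exact hb'.symm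
  right
  by_contra hlt
  push Not at hlt
  obtain ⟨eta, he, hp⟩ := h.par
  have b2 := t2_bounds
  have b3 := t3_bounds
  have b1 := t1_bounds
  have p1 : (c 0).1 + (c 1).1 + (c 2).1 = 1 + 2 * eta.1 := by
    have := congrArg Prod.fst hp
    simpa using this
  have p2 : (c 0).2.1 + (c 1).2.1 + (c 2).2.1 = 1 + 2 * eta.2.1 := by
    have := congrArg (fun p => p.2.1) hp
    simpa using this
  have p3 : (c 0).2.2 + (c 1).2.2 + (c 2).2.2 = 1 + 2 * eta.2.2 := by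
    have := congrArg (fun p => p.2.2) hp
    simpa using this
  have hO : InO (tt * eta + (1 + -tt) * c 0) :=
    InO_add (InO_mul InO_tt he) (InO_mul (InO_add ari_InO_one (InO_neg InO_tt)) (h.int 0))
  obtain ⟨n, hn, hn0⟩ := norm_int hO
  have e1 : (tt * eta + (1 + -tt) * c 0).1 =
      ((2 - t1) * (c 0).1 + t1 * ((c 1).1 + (c 2).1) - t1) / 2 := by
    change t1 * eta.1 + (1 + -t1) * (c 0).1 = _
    linear_combination (t1 / 2) * (-p1)
  have e2 : (tt * eta + (1 + -tt) * c 0).2.1 =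
      ((2 - t2) * (c 0).2.1 + t2 * ((c 1).2.1 + (c 2).2.1) - t2) / 2 := by
    change t2 * eta.2.1 + (1 + -t2) * (c 0).2.1 = _
    linear_combination (t2 / 2) * (-p2)
  have e3 : (tt * eta + (1 + -tt) * c 0).2.2 =
      ((2 - t3) * (c 0).2.2 + t3 * ((c 1).2.2 + (c 2).2.2) - t3) / 2 := by
    change t3 * eta.2.2 + (1 + -t3) * (c 0).2.2 = _
    linear_combination (t3 / 2) * (-p3)
  have c2 := ari_cs_bound (by linarith) (by linarith) h.q2
  have c3 := ari_cs_bound (by linarith) (by linarith) h.q3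
  set h1 := (tt * eta + (1 + -tt) * c 0).1 with hh1
  set h2 := (tt * eta + (1 + -tt) * c 0).2.1 with hh2
  set h3 := (tt * eta + (1 + -tt) * c 0).2.2 with hh3
  have a1 : h1 < 0 := by rw [e1]; linarith
  have a1' : |h1| < t1 - 1 := by
    rw [abs_lt]
    constructor
    · rw [e1]; linarith
    · linarith
  have a2 : |h2| ≤ 1 - t2 := by
    rw [abs_le]
    constructor
    · rw [e2]; linarith [c2.1]
    · rw [e2]; linarith [c2.2]
  have a3 : |h3| ≤ 1 - t3 := by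
    rw [abs_le]
    constructor
    · rw [e3]; linarith [c3.1]
    · rw [e3]; linarith [c3.2]
  have hprod : |h1 * h2 * h3| < 1 := by
    rw [abs_mul, abs_mul, ← t_unit]
    calc |h1| * |h2| * |h3| ≤ |h1| * (1 - t2) * (1 - t3) := by
          apply mul_le_mul _ a3 (abs_nonneg _)
          · exact mul_nonneg (abs_nonneg _) (by linarith)
          · exact mul_le_mul_of_nonneg_left a2 (abs_nonneg _)
      _ < (t1 - 1) * (1 - t2) * (1 - t3) := by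
          apply mul_lt_mul_of_pos_right _ (by linarith)
          exact mul_lt_mul_of_pos_right a1' (by linarith)
  rw [hn] at hprod
  have hn1 : n = 0 := by
    have : |n| < 1 := by exact_mod_cast hprod
    exact Int.abs_lt_one_iff.mp this
  have := hn0 hn1
  linarith

end Pool.Agent.H78.SS
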