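import Pool.Agent.H78.SS.Th1

/-! B1: linear lower bound. With u = cosh x, v = cosh q in [1, Cc]:
(Cu-v)^2 = (u^2-1)(C^2-1) - Del(u,v), Del(u,v) <= Del(u,C) = (u-1)(2C^2-1-u) [difference (C-v)(2Cu-C-v) >= 0], so
rate^2 = (C^2-1)/Del - 1/(u^2-1) >= C^2/((1+u)(2C^2-1-u)) >= C^2/((1+C)(2C^2-1-C)) = C^2/((C^2-1)(2C+1)),
and C ea >= 0.73 Aa sqrt((C^2-1)(2C+1)) numerically (1.80592 against 1.79597).
Then Th r q >= Th ea q + g (ea - r), Th ea q = Th q ea >= Th ea ea + g (ea - q) = Aa + g (ea-q), g = 0.73 Aa/ea. -/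

set_option autoImplicit false

namespace Pool.Agent.H78.SS

open Real

/-- the numerical inequality -/
private lemma b1_num : (0.73 * Aa / ea) ^ 2 * ((Cc ^ 2 - 1) * (2 * Cc + 1)) ≤ Cc ^ 2 := by
  obtain ⟨hA1, hA2⟩ := Aa_bounds
  obtain ⟨hC1, hC2⟩ := Cc_bounds
  obtain ⟨he1, he2⟩ := ea_bounds
  have hea : 0 < ea := ea_pos
  have hg0 : 0 ≤ 0.73 * Aa / ea := by
    apply div_nonneg _ hea.le
    linarith
  have hg : 0.73 * Aa / ea ≤ 0.6009 := by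
    rw [div_le_iff₀ hea]
    nlinarith
  have hg2 : (0.73 * Aa / ea) ^ 2 ≤ 0.6009 ^ 2 := pow_le_pow_left₀ hg0 hg 2
  have hsq1 : 1.6559 ^ 2 < Cc ^ 2 := by nlinarith
  have hsq2 : Cc ^ 2 < 1.656 ^ 2 := by nlinarith
  have hprod : (Cc ^ 2 - 1) * (2 * Cc + 1) ≤ (1.656 ^ 2 - 1) * (2 * 1.656 + 1) := by
    apply mul_le_mul <;> nlinarith
  have hprod0 : 0 ≤ (Cc ^ 2 - 1) * (2 * Cc + 1) := by
    apply mul_nonneg <;> nlinarith
  calc (0.73 * Aa / ea) ^ 2 * ((Cc ^ 2 - 1) * (2 * Cc + 1))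
      ≤ 0.6009 ^ 2 * ((1.656 ^ 2 - 1) * (2 * 1.656 + 1)) :=
        mul_le_mul hg2 hprod hprod0 (by norm_num)
    _ ≤ 1.6559 ^ 2 := by norm_num
    _ ≤ Cc ^ 2 := hsq1.le

theorem rate_B1 (x q : ℝ) (hx : 0 < x) (hx' : x ≤ ea) (hq : 0 < q) (hq' : q ≤ ea) (hs : ea < x + q) :
    0.73 * Aa / ea ≤ (Cc * Real.cosh x - Real.cosh q) /
        (Real.sinh x * Real.sqrt (Del (Real.cosh x) (Real.cosh q))) := by
  have hsx : 0 < Real.sinh x := Real.sinh_pos_iff.mpr hx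
  have hD := Del_pos x q hx hx' hq hq' hs
  have hsD : 0 < Real.sqrt (Del (Real.cosh x) (Real.cosh q)) := Real.sqrt_pos.mpr hD
  have hea := ea_pos
  obtain ⟨hA1, hA2⟩ := Aa_bounds
  obtain ⟨hC1, hC2⟩ := Cc_bounds
  have hnum := b1_num
  have hu1 : 1 < Real.cosh x := Real.one_lt_cosh.mpr hx.ne'
  have hv1 : 1 < Real.cosh q := Real.one_lt_cosh.mpr hq.ne'
  have hu2 : Real.cosh x ≤ Cc := by
    change Real.cosh x ≤ Real.cosh ea
    rw [Real.cosh_le_cosh, abs_of_pos hx, abs_of_pos hea]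
    exact hx'
  have hv2 : Real.cosh q ≤ Cc := by
    change Real.cosh q ≤ Real.cosh ea
    rw [Real.cosh_le_cosh, abs_of_pos hq, abs_of_pos hea]
    exact hq'
  have hsq : Real.sinh x ^ 2 = Real.cosh x ^ 2 - 1 := by
    have := Real.cosh_sq x
    linarith
  have hg0 : 0 ≤ 0.73 * Aa / ea := by
    apply div_nonneg _ hea.le
    linarith
  set u := Real.cosh x with hu
  set v := Real.cosh q with hv
  set g := 0.73 * Aa / ea with hgdef
  set C := Cc with hCdef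
  set D := Del u v with hDdef
  have hDval : D = 1 + 2 * C * u * v - C ^ 2 - u ^ 2 - v ^ 2 := rfl
  rw [le_div_iff₀ (mul_pos hsx hsD)]
  have hN : 0 ≤ C * u - v := by nlinarith
  apply le_of_sq_le_sq _ hN
  have hsqD : Real.sqrt D ^ 2 = D := Real.sq_sqrt hD.le
  rw [mul_pow, mul_pow, hsqD, hsq]
  have hN2 : (C * u - v) ^ 2 = (u ^ 2 - 1) * (C ^ 2 - 1) - D := by
    rw [hDval]
    ring
  rw [hN2]
  -- the bound for the discriminant
  have hDle : D ≤ (u - 1) * (2 * C ^ 2 - 1 - u) := by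
    have h1 : (u - 1) * (2 * C ^ 2 - 1 - u) - D = (C - v) * (2 * C * u - C - v) := by
      rw [hDval]
      ring
    have h2 : 0 ≤ (C - v) * (2 * C * u - C - v) := by
      apply mul_nonneg (by linarith)
      nlinarith
    linarith
  have hh : (u + 1) * (2 * C ^ 2 - 1 - u) ≤ (C ^ 2 - 1) * (2 * C + 1) := by
    have h1 : (C ^ 2 - 1) * (2 * C + 1) - (u + 1) * (2 * C ^ 2 - 1 - u) =
        (C - u) * (2 * C ^ 2 - 2 - C - u) := by ring
    have h2 : 0 ≤ (C - u) * (2 * C ^ 2 - 2 - C - u) := by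
      apply mul_nonneg (by linarith)
      nlinarith
    linarith
  have hk : g ^ 2 * ((u + 1) * (2 * C ^ 2 - 1 - u)) ≤ C ^ 2 :=
    (mul_le_mul_of_nonneg_left hh (sq_nonneg g)).trans hnum
  have hg2 : 0 ≤ g ^ 2 := sq_nonneg g
  have hu3 : 0 ≤ u - 1 := by linarith
  have hk2 : (u - 1) * (g ^ 2 * ((u + 1) * (2 * C ^ 2 - 1 - u))) ≤ (u - 1) * C ^ 2 :=
    mul_le_mul_of_nonneg_left hk hu3
  have hf : 0 ≤ 1 + g ^ 2 * (u ^ 2 - 1) := by nlinarith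
  have hk3 : D * (1 + g ^ 2 * (u ^ 2 - 1)) ≤
      (u - 1) * (2 * C ^ 2 - 1 - u) * (1 + g ^ 2 * (u ^ 2 - 1)) :=
    mul_le_mul_of_nonneg_right hDle hf
  have hk4 : (u - 1) * (2 * C ^ 2 - 1 - u) * (1 + g ^ 2 * (u ^ 2 - 1)) ≤
      (u ^ 2 - 1) * (C ^ 2 - 1) := by
    have h5 : (u ^ 2 - 1) * (C ^ 2 - 1) -
        (u - 1) * (2 * C ^ 2 - 1 - u) * (1 + g ^ 2 * (u ^ 2 - 1)) =
        (u - 1) * ((u - 1) * C ^ 2 - (u - 1) * (g ^ 2 * ((u + 1) * (2 * C ^ 2 - 1 - u)))) := by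
      ring
    have h6 : 0 ≤ (u - 1) *
        ((u - 1) * C ^ 2 - (u - 1) * (g ^ 2 * ((u + 1) * (2 * C ^ 2 - 1 - u)))) :=
      mul_nonneg hu3 (by linarith)
    linarith
  nlinarith

theorem B1 (r q : ℝ) (hr : 0 < r) (hr' : r ≤ ea) (hq : 0 < q) (hq' : q ≤ ea) (hs : ea ≤ r + q) :
    Aa * (1 + 0.73 * ((1 - r / ea) + (1 - q / ea))) ≤ Th r q := by
  have hea := ea_pos
  have h1 : Th ea q + 0.73 * Aa / ea * (ea - r) ≤ Th r q :=
    Th_mvt r q (0.73 * Aa / ea) hr hr' hq hq' hs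
      (fun x hx1 hx2 => rate_B1 x q (hr.trans hx1) hx2.le hq hq' (by linarith))
  have h2 : Th ea ea + 0.73 * Aa / ea * (ea - q) ≤ Th q ea :=
    Th_mvt q ea (0.73 * Aa / ea) hq hq' hea le_rfl (by linarith)
      (fun x hx1 hx2 => rate_B1 x ea (hq.trans hx1) hx2.le hea le_rfl (by linarith))
  rw [Th_symm q ea, Th_ea_ea] at h2
  have h3 : ∀ t : ℝ, 0.73 * Aa / ea * (ea - t) = Aa * (0.73 * (1 - t / ea)) := by
    intro t
    field_simp
  rw [h3] at h1 h2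
  linarith

end Pool.Agent.H78.SS
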