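import Pool.Agent.H78.SS.Num

/-! POLY: a polynomial inequality in one variable E on [1, M], M = exp ea = Cc + Sc = 2.975898,
K = 14.44 Aa^2 / ea^4 = 8.2251 (so K < 8.228).  Ratio of the two sides: at least 1.07 (near E = 1.88). -/

set_option autoImplicit false

namespace Pool.Agent.H78.SS

open Real

/-- the rational polynomial inequality, by Bernstein coefficients on four intervals -/
theorem POLY_aux (E : ℝ) (h1 : 1 ≤ E) (hE : E ≤ 2.97598) :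
    8.23 * (2.97598 - E) * (E - 1) ^ 2 * ((4 * 1.65598 ^ 2 - 2) * E - E ^ 2 - 1) ≤
      (2.97586 * E - 1) * (2 * 1.65596 * E + E ^ 2 + 1) * E := by
  have key : ∀ a b : ℝ, a ≤ E → E ≤ b → ∀ i j : ℕ, 0 ≤ (E - a) ^ i * (b - E) ^ j :=
    fun a b ha hb i j => mul_nonneg (pow_nonneg (by linarith) i) (pow_nonneg (by linarith) j)
  rcases le_total E 1.6 with h2 | h2
  · have k0 := key 1 1.6 h1 h2 0 5
    have k1 := key 1 1.6 h1 h2 1 4
    have k2 := key 1 1.6 h1 h2 2 3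
    have k3 := key 1 1.6 h1 h2 3 2
    have k4 := key 1 1.6 h1 h2 4 1
    have k5 := key 1 1.6 h1 h2 5 0
    nlinarith only [k0, k1, k2, k3, k4, k5]
  rcases le_total E 1.9 with h3 | h3
  · have k0 := key 1.6 1.9 h2 h3 0 5
    have k1 := key 1.6 1.9 h2 h3 1 4
    have k2 := key 1.6 1.9 h2 h3 2 3
    have k3 := key 1.6 1.9 h2 h3 3 2
    have k4 := key 1.6 1.9 h2 h3 4 1
    have k5 := key 1.6 1.9 h2 h3 5 0
    nlinarith only [k0, k1, k2, k3, k4, k5]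
  rcases le_total E 2.2 with h4 | h4
  · have k0 := key 1.9 2.2 h3 h4 0 5
    have k1 := key 1.9 2.2 h3 h4 1 4
    have k2 := key 1.9 2.2 h3 h4 2 3
    have k3 := key 1.9 2.2 h3 h4 3 2
    have k4 := key 1.9 2.2 h3 h4 4 1
    have k5 := key 1.9 2.2 h3 h4 5 0
    nlinarith only [k0, k1, k2, k3, k4, k5]
  · have k0 := key 2.2 2.97598 h4 hE 0 5
    have k1 := key 2.2 2.97598 h4 hE 1 4
    have k2 := key 2.2 2.97598 h4 hE 2 3
    have k3 := key 2.2 2.97598 h4 hE 3 2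
    have k4 := key 2.2 2.97598 h4 hE 4 1
    have k5 := key 2.2 2.97598 h4 hE 5 0
    nlinarith only [k0, k1, k2, k3, k4, k5]

theorem poly_ineq (K E : ℝ) (hK0 : 0 ≤ K) (hK : K ≤ 8.23) (h1 : 1 ≤ E) (hE : E ≤ Cc + Sc) :
    K * (Cc + Sc - E) * (E - 1) ^ 2 * (2 * (2 * Cc ^ 2 - 1) * E - E ^ 2 - 1) ≤
      ((Cc + Sc) * E - 1) * (2 * Cc * E + E ^ 2 + 1) * E := by
  obtain ⟨c1, c2⟩ := Num_Cc_fine
  obtain ⟨s1, s2⟩ := Num_Sc_fine
  have hE2 : E ≤ 2.97598 := by linarith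
  have hCsq : Cc ^ 2 ≤ 1.65598 ^ 2 := by nlinarith
  have hCsq1 : 2.74 ≤ Cc ^ 2 := by nlinarith
  have hQ0 : 0 ≤ 2 * (2 * Cc ^ 2 - 1) * E - E ^ 2 - 1 := by nlinarith
  have hQ : 2 * (2 * Cc ^ 2 - 1) * E - E ^ 2 - 1 ≤ (4 * 1.65598 ^ 2 - 2) * E - E ^ 2 - 1 := by nlinarith
  have hM0 : 0 ≤ Cc + Sc - E := by linarith
  have hM : Cc + Sc - E ≤ 2.97598 - E := by linarith
  have hE0 : 0 ≤ (E - 1) ^ 2 := sq_nonneg _
  have hL : K * (Cc + Sc - E) * (E - 1) ^ 2 * (2 * (2 * Cc ^ 2 - 1) * E - E ^ 2 - 1) ≤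
      8.23 * (2.97598 - E) * (E - 1) ^ 2 * ((4 * 1.65598 ^ 2 - 2) * E - E ^ 2 - 1) := by
    apply mul_le_mul _ hQ hQ0
    · exact mul_nonneg (mul_nonneg (by norm_num) (by linarith)) hE0
    · apply mul_le_mul_of_nonneg_right _ hE0
      exact mul_le_mul hK hM hM0 (by norm_num)
  refine hL.trans ((POLY_aux E h1 hE2).trans ?_)
  apply mul_le_mul_of_nonneg_right _ (by linarith)
  apply mul_le_mul
  · nlinarith
  · nlinarith
  · positivity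
  · nlinarith

theorem K_bound : 14.44 * Aa ^ 2 / ea ^ 4 ≤ 8.23 := by
  obtain ⟨a1, a2⟩ := Aa_bounds
  obtain ⟨e1, e2⟩ := ea_bounds
  have h1 : Aa ^ 2 ≤ 0.8976 ^ 2 := by nlinarith
  have h2 : (1.0905 : ℝ) ^ 4 ≤ ea ^ 4 := by
    exact pow_le_pow_left₀ (by norm_num) e1.le 4
  have h3 : (0 : ℝ) < ea ^ 4 := by positivity
  rw [div_le_iff₀ h3]
  calc 14.44 * Aa ^ 2 ≤ 14.44 * 0.8976 ^ 2 := by linarith
    _ ≤ 8.23 * 1.0905 ^ 4 := by norm_num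
    _ ≤ 8.23 * ea ^ 4 := by linarith

end Pool.Agent.H78.SS
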