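import Pool.Agent.H78.SS.B1
import Pool.Agent.H78.SS.Poly

/-! B2: product lower bound. rate^2 = (Cu-v)^2/((u^2-1) Del(u,v)); (Cu-v)^2 - (C^2-v^2)(u^2-1) = (uv-C)^2 >= 0 and
Del(u,v) <= Del(C,v) = (v-1)(2C^2-1-v) [difference (C-u)(2Cv-C-u) >= 0], so rate^2 >= (C^2-v^2)/((v-1)(2C^2-1-v)).
Claim: this is >= (3.8 Aa/ea^2)^2 (ea-q)^2.  With E = exp q, M = exp ea: (ea-q)^2 <= 2(cosh(ea-q)-1) = (M-E)^2/(ME),
v - 1 = (E-1)^2/(2E), C - v = (M-E)(ME-1)/(2ME), so the claim follows from poly_ineq (divide by (M-E)/(2ME)).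
Then Th r q >= Th ea q + g (ea - r) with g = 3.8 (Aa/ea)(1 - q/ea), and Th ea q >= Aa (1 + 0.73 (1 - q/ea)) by B1. -/

set_option autoImplicit false

namespace Pool.Agent.H78.SS

open Real

/-- x^2 <= 2 (cosh x - 1) -/
theorem sq_le_cosh (x : ℝ) : x ^ 2 ≤ 2 * (Real.cosh x - 1) := by
  have h := Real.cosh_sq' (x / 2)
  have h2 : Real.cosh x = 2 * Real.sinh (x / 2) ^ 2 + 1 := by
    have := Real.cosh_two_mul (x / 2)
    rw [show 2 * (x / 2) = x by ring] at this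
    rw [this, h]; ring
  have h3 : (x / 2) ^ 2 ≤ Real.sinh (x / 2) ^ 2 := by
    rw [sq_le_sq]
    rcases le_total 0 (x / 2) with hx | hx
    · rw [abs_of_nonneg hx, abs_of_nonneg (Real.sinh_nonneg_iff.2 hx)]
      exact Real.self_le_sinh_iff.2 hx
    · rw [abs_of_nonpos hx, abs_of_nonpos (Real.sinh_nonpos_iff.2 hx)]
      have := Real.sinh_le_self_iff.2 hx
      linarith
  rw [h2]; nlinarith

theorem rate_B2 (x q : ℝ) (hx : 0 < x) (hx' : x ≤ ea) (hq : 0 < q) (hq' : q ≤ ea) (hs : ea < x + q) :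
    3.8 * (Aa / ea) * (1 - q / ea) ≤ (Cc * Real.cosh x - Real.cosh q) /
        (Real.sinh x * Real.sqrt (Del (Real.cosh x) (Real.cosh q))) := by
  have hea := ea_pos
  have hDel := Del_pos x q hx hx' hq hq' hs
  have hsx : 0 < Real.sinh x := Real.sinh_pos_iff.2 hx
  have hsq : 0 < Real.sqrt (Del (Real.cosh x) (Real.cosh q)) := Real.sqrt_pos.2 hDel
  have hu : 1 < Real.cosh x := Real.one_lt_cosh.2 hx.ne'
  have hv : 1 < Real.cosh q := Real.one_lt_cosh.2 hq.ne'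
  have huC : Real.cosh x ≤ Cc := by
    rw [Cc, Real.cosh_le_cosh, abs_of_pos hx, abs_of_pos hea]; exact hx'
  have hvC : Real.cosh q ≤ Cc := by
    rw [Cc, Real.cosh_le_cosh, abs_of_pos hq, abs_of_pos hea]; exact hq'
  have hAa := Aa_bounds.1
  obtain ⟨hC1, hC2⟩ := Cc_bounds
  -- the one-variable claim
  have hkey : (3.8 * (Aa / ea) * (1 - q / ea)) ^ 2 * ((Real.cosh q - 1) * (2 * Cc ^ 2 - 1 - Real.cosh q)) ≤
      Cc ^ 2 - Real.cosh q ^ 2 := by
    have hEpos := Real.exp_pos q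
    have hMpos := Real.exp_pos ea
    have hM := exp_ea
    have hE1 : 1 ≤ Real.exp q := by
      have := Real.one_le_exp hq.le
      exact this
    have hEM : Real.exp q ≤ Real.exp ea := Real.exp_le_exp.2 hq'
    have hsqd := sq_le_cosh (ea - q)
    have hpoly := poly_ineq (14.44 * Aa ^ 2 / ea ^ 4) (Real.exp q) (by positivity) K_bound hE1
      (by rw [← hM]; exact hEM)
    rw [← hM] at hpoly
    set E := Real.exp q with hE
    set Mx := Real.exp ea with hMx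
    have hcq : Real.cosh q = (E + E⁻¹) / 2 := by
      rw [Real.cosh_eq, Real.exp_neg]
    have hcc : Cc = (Mx + Mx⁻¹) / 2 := by
      rw [Cc, Real.cosh_eq, Real.exp_neg]
    have hcd : Real.cosh (ea - q) = (Mx / E + E / Mx) / 2 := by
      rw [Real.cosh_eq, Real.exp_sub, neg_sub, Real.exp_sub]
    have hd2 : 2 * (Real.cosh (ea - q) - 1) = (Mx - E) ^ 2 / (Mx * E) := by
      rw [hcd]; field_simp; ring
    rw [hd2] at hsqd
    have hv1 : Real.cosh q - 1 = (E - 1) ^ 2 / (2 * E) := by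
      rw [hcq]; field_simp; ring
    have hCv : Cc - Real.cosh q = (Mx - E) * (Mx * E - 1) / (2 * Mx * E) := by
      rw [hcq, hcc]; field_simp; ring
    have hCpv : Cc + Real.cosh q = (2 * Cc * E + E ^ 2 + 1) / (2 * E) := by
      rw [hcq]; field_simp; ring
    have h2Cv : 2 * Cc ^ 2 - 1 - Real.cosh q = (2 * (2 * Cc ^ 2 - 1) * E - E ^ 2 - 1) / (2 * E) := by
      rw [hcq]; field_simp; ring
    have hpos2 : 0 ≤ 2 * (2 * Cc ^ 2 - 1) * E - E ^ 2 - 1 := by
      have : 0 ≤ 2 * Cc ^ 2 - 1 - Real.cosh q := by nlinarith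
      rw [h2Cv] at this
      have h2E : 0 < 2 * E := by positivity
      have := (div_nonneg_iff.1 this)
      rcases this with ⟨h, _⟩ | ⟨_, h⟩
      · exact h
      · linarith
    have hg : (3.8 * (Aa / ea) * (1 - q / ea)) ^ 2 = 14.44 * Aa ^ 2 / ea ^ 4 * (ea - q) ^ 2 := by
      field_simp; ring
    rw [hg, show Cc ^ 2 - Real.cosh q ^ 2 = (Cc - Real.cosh q) * (Cc + Real.cosh q) by ring,
      hCv, hCpv, hv1, h2Cv]
    have hK : 0 ≤ 14.44 * Aa ^ 2 / ea ^ 4 := by positivity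
    set K := 14.44 * Aa ^ 2 / ea ^ 4 with hKdef
    calc K * (ea - q) ^ 2 * ((E - 1) ^ 2 / (2 * E) * ((2 * (2 * Cc ^ 2 - 1) * E - E ^ 2 - 1) / (2 * E)))
        ≤ K * ((Mx - E) ^ 2 / (Mx * E)) *
          ((E - 1) ^ 2 / (2 * E) * ((2 * (2 * Cc ^ 2 - 1) * E - E ^ 2 - 1) / (2 * E))) := by
          apply mul_le_mul_of_nonneg_right
          · exact mul_le_mul_of_nonneg_left hsqd hK
          · have h2E : 0 < 2 * E := by positivity
            exact mul_nonneg (div_nonneg (sq_nonneg _) h2E.le) (div_nonneg hpos2 h2E.le)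
      _ = (K * (Mx - E) * (E - 1) ^ 2 * (2 * (2 * Cc ^ 2 - 1) * E - E ^ 2 - 1)) *
            ((Mx - E) / (4 * Mx * E ^ 3)) := by
          field_simp; ring
      _ ≤ ((Mx * E - 1) * (2 * Cc * E + E ^ 2 + 1) * E) * ((Mx - E) / (4 * Mx * E ^ 3)) := by
          apply mul_le_mul_of_nonneg_right hpoly
          exact div_nonneg (by linarith) (by positivity)
      _ = (Mx - E) * (Mx * E - 1) / (2 * Mx * E) * ((2 * Cc * E + E ^ 2 + 1) / (2 * E)) := by
          field_simp; ring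
  -- conclusion
  rw [le_div_iff₀ (mul_pos hsx hsq)]
  have hrhs : 0 ≤ Cc * Real.cosh x - Real.cosh q := by nlinarith
  have hsq1 : (3.8 * (Aa / ea) * (1 - q / ea) * (Real.sinh x * Real.sqrt (Del (Real.cosh x) (Real.cosh q)))) ^ 2
      ≤ (Cc * Real.cosh x - Real.cosh q) ^ 2 := by
    rw [mul_pow, mul_pow (Real.sinh x), Real.sq_sqrt hDel.le, Real.sinh_sq]
    have hD : Del (Real.cosh x) (Real.cosh q) ≤ (Real.cosh q - 1) * (2 * Cc ^ 2 - 1 - Real.cosh q) := by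
      have : (Real.cosh q - 1) * (2 * Cc ^ 2 - 1 - Real.cosh q) - Del (Real.cosh x) (Real.cosh q) =
          (Cc - Real.cosh x) * (2 * Cc * Real.cosh q - Cc - Real.cosh x) := by
        unfold Del; ring
      have h2 : 0 ≤ (Cc - Real.cosh x) * (2 * Cc * Real.cosh q - Cc - Real.cosh x) := by
        apply mul_nonneg (by linarith)
        nlinarith
      linarith
    have hu2 : 0 ≤ Real.cosh x ^ 2 - 1 := by nlinarith
    have hid : (Cc * Real.cosh x - Real.cosh q) ^ 2 - (Cc ^ 2 - Real.cosh q ^ 2) * (Real.cosh x ^ 2 - 1) =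
        (Real.cosh x * Real.cosh q - Cc) ^ 2 := by ring
    have hnn := sq_nonneg (Real.cosh x * Real.cosh q - Cc)
    set g2 := (3.8 * (Aa / ea) * (1 - q / ea)) ^ 2 with hg2
    have hg0 : 0 ≤ g2 := sq_nonneg _
    calc g2 * ((Real.cosh x ^ 2 - 1) * Del (Real.cosh x) (Real.cosh q))
        ≤ g2 * ((Real.cosh x ^ 2 - 1) * ((Real.cosh q - 1) * (2 * Cc ^ 2 - 1 - Real.cosh q))) := by
          apply mul_le_mul_of_nonneg_left _ hg0
          exact mul_le_mul_of_nonneg_left hD hu2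
      _ = (g2 * ((Real.cosh q - 1) * (2 * Cc ^ 2 - 1 - Real.cosh q))) * (Real.cosh x ^ 2 - 1) := by ring
      _ ≤ (Cc ^ 2 - Real.cosh q ^ 2) * (Real.cosh x ^ 2 - 1) := mul_le_mul_of_nonneg_right hkey hu2
      _ ≤ (Cc * Real.cosh x - Real.cosh q) ^ 2 := by linarith
  exact le_of_sq_le_sq hsq1 hrhs

theorem B2 (r q : ℝ) (hr : 0 < r) (hr' : r ≤ ea) (hq : 0 < q) (hq' : q ≤ ea) (hs : ea ≤ r + q) :
    Aa * (1 + 0.73 * (1 - q / ea) + 3.8 * (1 - r / ea) * (1 - q / ea)) ≤ Th r q := by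
  have hea := ea_pos
  have h1 := B1 ea q hea le_rfl hq hq' (by linarith)
  have h2 := Th_mvt r q (3.8 * (Aa / ea) * (1 - q / ea)) hr hr' hq hq' hs
    (fun x hx hx' => rate_B2 x q (hr.trans hx) hx'.le hq hq' (by linarith))
  have h3 : 3.8 * (Aa / ea) * (1 - q / ea) * (ea - r) = 3.8 * Aa * (1 - r / ea) * (1 - q / ea) := by
    field_simp
  have h4 : (1 - ea / ea : ℝ) = 0 := by rw [div_self hea.ne']; ring
  rw [h4, zero_add] at h1
  rw [h3] at h2
  nlinarith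

end Pool.Agent.H78.SS
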