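import Pool.Agent.H78.SS.Num

/-! BALL: local finiteness of separated sets in proper spaces, nearest sites. -/

set_option autoImplicit false

namespace Pool.Agent.H78.SS

open Real

variable {M : Type*} [MetricSpace M] [ProperSpace M]

theorem fin_ball {X : Set M} (hX : Sep X) (O : M) (R : ℝ) : (X ∩ Metric.closedBall O R).Finite := by
  have hK : TotallyBounded (Metric.closedBall O R) := (isCompact_closedBall O R).totallyBounded
  rw [Metric.totallyBounded_iff] at hK
  obtain ⟨t, ht, hcov⟩ := hK (ea / 2) (half_pos ea_pos)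
  have hsub : X ∩ Metric.closedBall O R ⊆ ⋃ y ∈ t, (X ∩ Metric.ball y (ea / 2)) := by
    rintro x ⟨hx, hxB⟩
    have h1 := hcov hxB
    simp only [Set.mem_iUnion] at h1 ⊢
    obtain ⟨y, hy, hxy⟩ := h1
    exact ⟨y, hy, hx, hxy⟩
  refine Set.Finite.subset (ht.biUnion fun y _ => ?_) hsub
  apply Set.Subsingleton.finite
  rintro a ⟨ha, hab⟩ b ⟨hb, hbb⟩
  by_contra hne
  have h1 := hX a ha b hb hne
  have h2 := dist_triangle_right a b y
  rw [Metric.mem_ball] at hab hbb
  linarith

theorem exists_nearest {X : Set M} (hX : Sep X) (hne : X.Nonempty) (y : M) :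
    ∃ s ∈ X, ∀ t ∈ X, dist s y ≤ dist t y := by
  obtain ⟨s0, hs0⟩ := hne
  obtain ⟨s, ⟨hs, -⟩, hmin⟩ := Set.exists_min_image (X ∩ Metric.closedBall y (dist s0 y))
    (fun s => dist s y) (fin_ball hX y _) ⟨s0, hs0, Metric.mem_closedBall.mpr le_rfl⟩
  refine ⟨s, hs, fun t ht => ?_⟩
  rcases le_or_gt (dist t y) (dist s0 y) with h | h
  · exact hmin t ⟨ht, Metric.mem_closedBall.mpr h⟩
  · exact (hmin s0 ⟨hs0, Metric.mem_closedBall.mpr le_rfl⟩).trans h.le

end Pool.Agent.H78.SS
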