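import Pool.Agent.H78.SS.Defs

/-! CLO: closure lemma. Take T maximal (in cardinality) with S ⊆ T ⊆ B, all degrees >= 3 and the sum of wt at most that of S.
If some m in B \ T has three consecutive neighbours n = nb m (i-1), s' = nb m i, n' = nb m (i+1) in T, put T' = insert m T.
Each v in N(m) ∩ T gets one more index: wt (insert j I) <= wt I (decide; |I| >= 3), so if |idx T m| >= 4 then wt (idx T m) <= 0 and
the sum does not increase. If |idx T m| = 3 (exactly these three), then l = nb m (i-2), l' = nb m (i+2) are not in T; l is adjacent to n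
and to m, so in idx T n both the index j of m and one of j±1 (that of l) are missing, and then wt (insert j I) <= wt I - 1 (decide);
the same for n'. So the change is at most 2 - 1 - 1 + 0 = 0. Contradiction with maximality. -/

set_option autoImplicit false

namespace Pool.Agent.H78.SS

theorem wt_insert (I : Finset (ZMod 7)) (j : ZMod 7) (hj : j ∉ I) (h : 3 ≤ I.card) :
    wt (insert j I) ≤ wt I := by
  revert I j
  decide +kernel

theorem wt_insert' (I : Finset (ZMod 7)) (j : ZMod 7) (hj : j ∉ I) (h : 3 ≤ I.card)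
    (hn : j + 1 ∉ I ∨ j - 1 ∉ I) : wt (insert j I) ≤ wt I - 1 := by
  revert I j
  decide +kernel

theorem mem_idx {V : Type*} (G : Tri7 V) (T : Finset V) (v : V) (i : ZMod 7) :
    i ∈ G.idx T v ↔ G.nb v i ∈ T := by
  classical
  simp [Tri7.idx]

theorem closure_lemma {V : Type*} (G : Tri7 V) (S B : Finset V) (hSB : S ⊆ B)
    (hS : ∀ v ∈ S, 3 ≤ (G.idx S v).card) :
    ∃ T : Finset V, S ⊆ T ∧ T ⊆ B ∧ (∀ v ∈ T, 3 ≤ (G.idx T v).card) ∧
      (∑ v ∈ T, wt (G.idx T v)) ≤ (∑ v ∈ S, wt (G.idx S v)) ∧
      (∀ m ∈ B, m ∉ T → ¬ ∃ i, G.nb m (i - 1) ∈ T ∧ G.nb m i ∈ T ∧ G.nb m (i + 1) ∈ T) := by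
  classical
  let F : Finset (Finset V) := B.powerset.filter (fun T => S ⊆ T ∧ (∀ v ∈ T, 3 ≤ (G.idx T v).card) ∧
      (∑ v ∈ T, wt (G.idx T v)) ≤ (∑ v ∈ S, wt (G.idx S v)))
  have hF : F.Nonempty := ⟨S, by simp only [F, Finset.mem_filter, Finset.mem_powerset]; exact ⟨hSB, subset_refl _, hS, le_refl _⟩⟩
  obtain ⟨T, hT, hmax⟩ := F.exists_max_image (fun T => T.card) hF
  simp only [F, Finset.mem_filter, Finset.mem_powerset] at hT hmax
  obtain ⟨hTB, hST, hdeg, hsum⟩ := hT
  refine ⟨T, hST, hTB, hdeg, hsum, ?_⟩
  rintro m hmB hmT ⟨i, h1, h2, h3⟩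
  -- indices after inserting m
  have hidm : G.idx (insert m T) m = G.idx T m := by
    ext k
    simp only [mem_idx, Finset.mem_insert, G.irr m k, false_or]
  have hid1 : ∀ v j, G.nb v j = m → G.idx (insert m T) v = insert j (G.idx T v) ∧ j ∉ G.idx T v := by
    intro v j hj
    constructor
    · ext k
      simp only [mem_idx, Finset.mem_insert]
      constructor
      · rintro (h | h)
        · left; exact G.inj v (h.trans hj.symm)
        · right; exact h
      · rintro (h | h)
        · left; rw [h]; exact hj
        · right; exact h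
    · rw [mem_idx, hj]; exact hmT
  have hid2 : ∀ v, (¬ ∃ j, G.nb v j = m) → G.idx (insert m T) v = G.idx T v := by
    intro v hv
    ext k
    simp only [mem_idx, Finset.mem_insert]
    constructor
    · rintro (h | h)
      · exact absurd ⟨k, h⟩ hv
      · exact h
    · intro h; exact Or.inr h
  have hle : ∀ v ∈ T, wt (G.idx (insert m T) v) ≤ wt (G.idx T v) := by
    intro v hv
    by_cases hj : ∃ j, G.nb v j = m
    · obtain ⟨j, hj⟩ := hj
      obtain ⟨e, hn⟩ := hid1 v j hj
      rw [e]
      exact wt_insert _ _ hn (hdeg v hv)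
    · rw [hid2 v hj]
  have hcard_le : ∀ v, (G.idx T v).card ≤ (G.idx (insert m T) v).card := by
    intro v
    apply Finset.card_le_card
    intro k hk
    rw [mem_idx] at hk ⊢
    exact Finset.mem_insert_of_mem hk
  have h3c : ({i - 1, i, i + 1} : Finset (ZMod 7)) ⊆ G.idx T m := by
    intro k hk
    simp only [Finset.mem_insert, Finset.mem_singleton] at hk
    rw [mem_idx]
    rcases hk with rfl | rfl | rfl <;> assumption
  have hc3 : ({i - 1, i, i + 1} : Finset (ZMod 7)).card = 3 := by
    clear h1 h2 h3 h3c
    revert i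
    decide +kernel
  have hm3 : 3 ≤ (G.idx T m).card := by
    rw [← hc3]; exact Finset.card_le_card h3c
  have hdeg' : ∀ v ∈ insert m T, 3 ≤ (G.idx (insert m T) v).card := by
    intro v hv
    rcases Finset.mem_insert.1 hv with rfl | hv
    · exact hm3.trans (hcard_le _)
    · exact (hdeg v hv).trans (hcard_le v)
  -- the sum does not increase
  have hkey : wt (G.idx T m) + ∑ v ∈ T, wt (G.idx (insert m T) v) ≤ ∑ v ∈ T, wt (G.idx T v) := by
    by_cases h4 : 4 ≤ (G.idx T m).card
    · have hw : wt (G.idx T m) ≤ 0 := by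
        unfold wt
        split_ifs <;> omega
      have := Finset.sum_le_sum hle
      linarith
    · have hc : (G.idx T m).card = 3 := by omega
      have hI : G.idx T m = {i - 1, i, i + 1} :=
        (Finset.eq_of_subset_of_card_le h3c (by rw [hc, hc3])).symm
      have hw : wt (G.idx T m) = 2 := by
        unfold wt; rw [if_pos (by omega)]
      -- general step for the outer neighbours
      have step : ∀ a b : ZMod 7, G.nb m a ∈ T → b ∉ G.idx T m → (b = a + 1 ∨ a = b + 1) →
          wt (G.idx (insert m T) (G.nb m a)) ≤ wt (G.idx T (G.nb m a)) - 1 := by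
        intro a b ha hb hab
        obtain ⟨j, hj⟩ := G.symm m a
        obtain ⟨e, hn⟩ := hid1 _ j hj
        rw [e]
        refine wt_insert' _ _ hn (hdeg _ ha) ?_
        obtain ⟨k, hk⟩ := (G.adj m a b).2 hab
        have hkT : k ∉ G.idx T (G.nb m a) := by
          rw [mem_idx, hk, ← mem_idx]; exact hb
        have hjk : k = j + 1 ∨ j = k + 1 := by
          rw [← G.adj (G.nb m a) j k]
          refine ⟨b, ?_⟩
          rw [hj, hk]
        rcases hjk with rfl | h
        · left; exact hkT
        · right
          have : j - 1 = k := by rw [h]; ring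
          rw [this]; exact hkT
      have hne : G.nb m (i - 1) ≠ G.nb m (i + 1) := by
        intro h
        have h' := G.inj m h
        clear * - h'
        revert i
        decide +kernel
      have s1 := step (i - 1) (i - 2) h1 (by
        rw [hI]; clear * -; revert i; decide +kernel) (Or.inr (by ring))
      have s2 := step (i + 1) (i + 2) h3 (by
        rw [hI]; clear * -; revert i; decide +kernel) (Or.inl (by ring))
      have hsub : ({G.nb m (i - 1), G.nb m (i + 1)} : Finset V) ⊆ T := by
        intro v hv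
        simp only [Finset.mem_insert, Finset.mem_singleton] at hv
        rcases hv with rfl | rfl <;> assumption
      have e1 := Finset.sum_sdiff (f := fun v => wt (G.idx (insert m T) v)) hsub
      have e2 := Finset.sum_sdiff (f := fun v => wt (G.idx T v)) hsub
      rw [Finset.sum_pair hne] at e1 e2
      have hle2 : ∑ v ∈ T \ {G.nb m (i - 1), G.nb m (i + 1)}, wt (G.idx (insert m T) v) ≤
          ∑ v ∈ T \ {G.nb m (i - 1), G.nb m (i + 1)}, wt (G.idx T v) :=
        Finset.sum_le_sum (fun v hv => hle v (Finset.mem_sdiff.1 hv).1)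
      linarith
  have hT' := hmax (insert m T) ⟨?_, ?_, hdeg', ?_⟩
  · rw [Finset.card_insert_of_notMem hmT] at hT'
    omega
  · intro v hv
    rcases Finset.mem_insert.1 hv with rfl | hv
    · exact hmB
    · exact hTB hv
  · exact hST.trans (Finset.subset_insert _ _)
  · rw [Finset.sum_insert hmT, hidm]
    exact hkey.trans hsum

end Pool.Agent.H78.SS
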