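import Pool.Agent.H78.SS.Defs

/-! EUL: the Euler count. r is a strict total order (earlier). For v in T let p(v) = number of earlier neighbours in T and
tau(v) = number of adjacent pairs of earlier neighbours in T. Then sum |idx| = 2 sum p and sum tri = 3 sum tau (count ordered
triples of mutually adjacent vertices; each triangle has exactly one latest vertex), so
sum (12 - 6 |idx| + 4 tri) = 12 sum (1 - p + tau), and by the hypothesis on earlier neighbours 1 - p + tau is 1 if p = 0 and 0 else.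
The first vertex of T has p = 0. (tri counts the pairs {i, i+1} of consecutive indices = adjacent pairs of neighbours.) -/

set_option autoImplicit false

namespace Pool.Agent.H78.SS

theorem wt_ge (I : Finset (ZMod 7)) (h : 3 ≤ I.card) :
    (12 : ℤ) - 6 * (I.card : ℤ) + 4 * (tri I : ℤ) ≤ wt I := by
  revert I
  unfold wt tri
  decide +kernel

private theorem eul_two : ∀ F : Finset (ZMod 7),
    ((Finset.univ : Finset (ZMod 7 × ZMod 7)).filter
      (fun p => p.1 ∈ F ∧ p.2 ∈ F ∧ (p.2 = p.1 + 1 ∨ p.1 = p.2 + 1))).card = 2 * tri F := by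
  have key : ∀ F : Finset (Fin 7),
      ((Finset.univ : Finset (Fin 7 × Fin 7)).filter
        (fun p => p.1 ∈ F ∧ p.2 ∈ F ∧ (p.2 = p.1 + 1 ∨ p.1 = p.2 + 1))).card =
      2 * (Finset.univ.filter (fun i : Fin 7 => i ∈ F ∧ i + 1 ∈ F)).card := by
    decide +kernel
  exact key

private theorem eul_loc : ∀ (i : ZMod 7) (E : Finset (ZMod 7)),
    (∀ j ∈ E, j = i - 1 ∨ j = i ∨ j = i + 1) → (i - 1 ∈ E → i + 1 ∈ E → i ∈ E) →
    E.card ≤ tri E + 1 := by
  have key : ∀ (i : Fin 7) (E : Finset (Fin 7)),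
      (∀ j ∈ E, j = i - 1 ∨ j = i ∨ j = i + 1) → (i - 1 ∈ E → i + 1 ∈ E → i ∈ E) →
      E.card ≤ (Finset.univ.filter (fun i : Fin 7 => i ∈ E ∧ i + 1 ∈ E)).card + 1 := by
    decide +kernel
  exact key

section

variable {V : Type*}

private def eulAdj (G : Tri7 V) (v w : V) : Prop := ∃ i, G.nb v i = w

private theorem eul_symm (G : Tri7 V) {v w : V} (h : eulAdj G v w) : eulAdj G w v := by
  obtain ⟨i, rfl⟩ := h
  exact G.symm v i

private theorem eul_ne (G : Tri7 V) {v w : V} (h : eulAdj G v w) : v ≠ w := by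
  obtain ⟨i, rfl⟩ := h
  exact (G.irr v i).symm

open Classical in
private noncomputable def eulF (G : Tri7 V) (T : Finset V) (Q : V → Prop) (v : V) :
    Finset (ZMod 7) :=
  Finset.univ.filter fun i => G.nb v i ∈ T ∧ Q (G.nb v i)

open Classical in
private theorem eul_count1 (G : Tri7 V) (T : Finset V) (Q : V → Prop) (v : V) :
    ((eulF G T Q v).card : ℤ) = ∑ w ∈ T, if eulAdj G v w ∧ Q w then 1 else 0 := by
  have h1 : (eulF G T Q v).image (G.nb v) = T.filter (fun w => eulAdj G v w ∧ Q w) := by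
    ext w
    simp only [eulF, Finset.mem_image, Finset.mem_filter, Finset.mem_univ, true_and]
    constructor
    · rintro ⟨i, ⟨h1, h2⟩, rfl⟩
      exact ⟨h1, ⟨i, rfl⟩, h2⟩
    · rintro ⟨h1, ⟨i, rfl⟩, h2⟩
      exact ⟨i, ⟨h1, h2⟩, rfl⟩
  rw [← Finset.card_image_of_injective _ (G.inj v), h1, Finset.card_filter]
  push_cast
  rfl

open Classical in
private theorem eul_count2 (G : Tri7 V) (T : Finset V) (Q : V → Prop) (v : V) :
    (2 : ℤ) * (tri (eulF G T Q v) : ℤ) =
      ∑ w ∈ T, ∑ u ∈ T, if (eulAdj G v w ∧ eulAdj G v u ∧ eulAdj G w u) ∧ Q w ∧ Q u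
        then 1 else 0 := by
  have h1 : ((Finset.univ : Finset (ZMod 7 × ZMod 7)).filter
      (fun p => p.1 ∈ eulF G T Q v ∧ p.2 ∈ eulF G T Q v ∧
        (p.2 = p.1 + 1 ∨ p.1 = p.2 + 1))).image (Prod.map (G.nb v) (G.nb v)) =
      (T ×ˢ T).filter (fun p => (eulAdj G v p.1 ∧ eulAdj G v p.2 ∧ eulAdj G p.1 p.2) ∧
        Q p.1 ∧ Q p.2) := by
    ext ⟨w, u⟩
    simp only [eulF, Finset.mem_image, Finset.mem_filter, Finset.mem_univ, true_and,
      Finset.mem_product, Prod.exists, Prod.map_apply, Prod.mk.injEq]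
    constructor
    · rintro ⟨i, j, ⟨⟨h1, h2⟩, ⟨h3, h4⟩, h5⟩, rfl, rfl⟩
      exact ⟨⟨h1, h3⟩, ⟨⟨i, rfl⟩, ⟨j, rfl⟩, (G.adj v i j).2 h5⟩, h2, h4⟩
    · rintro ⟨⟨h1, h3⟩, ⟨⟨i, rfl⟩, ⟨j, rfl⟩, h5⟩, h2, h4⟩
      exact ⟨i, j, ⟨⟨h1, h2⟩, ⟨h3, h4⟩, (G.adj v i j).1 h5⟩, rfl, rfl⟩
  have h2 : (2 : ℤ) * (tri (eulF G T Q v) : ℤ) = ((2 * tri (eulF G T Q v) : ℕ) : ℤ) := by
    push_cast
    rfl
  rw [h2, ← eul_two, ← Finset.card_image_of_injective _
    (Function.Injective.prodMap (G.inj v) (G.inj v)), h1, Finset.card_filter,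
    Finset.sum_product]
  push_cast
  rfl

end

theorem euler_count {V : Type*} (G : Tri7 V) (T : Finset V) (hT : T.Nonempty) (r : V → V → Prop)
    [IsStrictTotalOrder V r]
    (h : ∀ v ∈ T, ∃ i : ZMod 7,
      (∀ j, G.nb v j ∈ T → r (G.nb v j) v → j = i - 1 ∨ j = i ∨ j = i + 1) ∧
      (G.nb v (i - 1) ∈ T → r (G.nb v (i - 1)) v → G.nb v (i + 1) ∈ T → r (G.nb v (i + 1)) v →
        G.nb v i ∈ T ∧ r (G.nb v i) v)) :
    (12 : ℤ) ≤ ∑ v ∈ T, ((12 : ℤ) - 6 * ((G.idx T v).card : ℤ) + 4 * (tri (G.idx T v) : ℤ)) := by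
  classical
  have hidx : ∀ v, G.idx T v = eulF G T (fun _ => True) v := by
    intro v
    ext i
    simp [Tri7.idx, eulF]
  set E : V → Finset (ZMod 7) := fun v => eulF G T (fun w => r w v) v with hE
  have hirr : ∀ x, ¬ r x x := fun x => irrefl_of r x
  have hasym : ∀ x y, r x y → ¬ r y x := fun x y hxy hyx => hirr x (trans_of r hxy hyx)
  -- edges
  have c1 : ∑ v ∈ T, ((G.idx T v).card : ℤ) = 2 * ∑ v ∈ T, ((E v).card : ℤ) := by
    have e1 : ∑ v ∈ T, ((G.idx T v).card : ℤ) =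
        ∑ v ∈ T, ∑ w ∈ T, ((if eulAdj G v w ∧ r w v then (1 : ℤ) else 0) +
          (if eulAdj G w v ∧ r v w then (1 : ℤ) else 0)) := by
      refine Finset.sum_congr rfl fun v _ => ?_
      rw [hidx, eul_count1]
      refine Finset.sum_congr rfl fun w _ => ?_
      by_cases hvw : eulAdj G v w
      · have hwv := eul_symm G hvw
        have hne := eul_ne G hvw
        rcases trichotomous_of r v w with h1 | h1 | h1
        · simp [hvw, hwv, h1, hasym v w h1]
        · exact absurd h1 hne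
        · simp [hvw, hwv, h1, hasym w v h1]
      · have hwv : ¬ eulAdj G w v := fun h1 => hvw (eul_symm G h1)
        simp [hvw, hwv]
    have e2 : ∑ v ∈ T, ((E v).card : ℤ) =
        ∑ v ∈ T, ∑ w ∈ T, (if eulAdj G v w ∧ r w v then (1 : ℤ) else 0) :=
      Finset.sum_congr rfl fun v _ => eul_count1 G T _ v
    have e3 : ∑ v ∈ T, ∑ w ∈ T, (if eulAdj G w v ∧ r v w then (1 : ℤ) else 0) =
        ∑ v ∈ T, ∑ w ∈ T, (if eulAdj G v w ∧ r w v then (1 : ℤ) else 0) := Finset.sum_comm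
    rw [e1]
    simp only [Finset.sum_add_distrib]
    rw [e3, e2]
    ring
  -- triangles
  have c2 : ∑ v ∈ T, (2 : ℤ) * (tri (G.idx T v) : ℤ) =
      3 * ∑ v ∈ T, (2 : ℤ) * (tri (E v) : ℤ) := by
    set g : V → V → V → ℤ := fun v w u =>
      if (eulAdj G v w ∧ eulAdj G v u ∧ eulAdj G w u) ∧ r w v ∧ r u v then (1 : ℤ) else 0 with hg
    have e1 : ∑ v ∈ T, (2 : ℤ) * (tri (G.idx T v) : ℤ) =
        ∑ v ∈ T, ∑ w ∈ T, ∑ u ∈ T, (g v w u + g w v u + g u v w) := by
      refine Finset.sum_congr rfl fun v _ => ?_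
      rw [hidx, eul_count2]
      refine Finset.sum_congr rfl fun w _ => Finset.sum_congr rfl fun u _ => ?_
      by_cases hA : eulAdj G v w ∧ eulAdj G v u ∧ eulAdj G w u
      · obtain ⟨h1, h2, h3⟩ := hA
        have h1' := eul_symm G h1
        have h2' := eul_symm G h2
        have h3' := eul_symm G h3
        have n1 := eul_ne G h1
        have n2 := eul_ne G h2
        have n3 := eul_ne G h3
        simp only [hg, h1, h2, h3, h1', h2', h3', true_and, and_self, if_true]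
        rcases trichotomous_of r v w with a1 | a1 | a1
        · rcases trichotomous_of r w u with a2 | a2 | a2
          · have a3 := trans_of r a1 a2
            simp [a1, a2, a3, hasym _ _ a1, hasym _ _ a2, hasym _ _ a3]
          · exact absurd a2 n3
          · rcases trichotomous_of r v u with a3 | a3 | a3
            · simp [a1, a2, a3, hasym _ _ a1, hasym _ _ a2, hasym _ _ a3]
            · exact absurd a3 n2
            · simp [a1, a2, a3, hasym _ _ a1, hasym _ _ a2, hasym _ _ a3]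
        · exact absurd a1 n1
        · rcases trichotomous_of r v u with a2 | a2 | a2
          · have a3 := trans_of r a1 a2
            simp [a1, a2, a3, hasym _ _ a1, hasym _ _ a2, hasym _ _ a3]
          · exact absurd a2 n2
          · rcases trichotomous_of r w u with a3 | a3 | a3
            · simp [a1, a2, a3, hasym _ _ a1, hasym _ _ a2, hasym _ _ a3]
            · exact absurd a3 n3
            · simp [a1, a2, a3, hasym _ _ a1, hasym _ _ a2, hasym _ _ a3]
      · have b1 : ¬ (eulAdj G w v ∧ eulAdj G w u ∧ eulAdj G v u) := fun ⟨h1, h2, h3⟩ =>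
          hA ⟨eul_symm G h1, h3, h2⟩
        have b2 : ¬ (eulAdj G u v ∧ eulAdj G u w ∧ eulAdj G v w) := fun ⟨h1, h2, h3⟩ =>
          hA ⟨h3, eul_symm G h1, eul_symm G h2⟩
        simp only [hg, hA, b1, b2, false_and, if_false, add_zero]
    have e2 : ∑ v ∈ T, (2 : ℤ) * (tri (E v) : ℤ) = ∑ v ∈ T, ∑ w ∈ T, ∑ u ∈ T, g v w u :=
      Finset.sum_congr rfl fun v _ => eul_count2 G T _ v
    have e3 : ∑ v ∈ T, ∑ w ∈ T, ∑ u ∈ T, g w v u = ∑ v ∈ T, ∑ w ∈ T, ∑ u ∈ T, g v w u :=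
      Finset.sum_comm
    have e4 : ∑ v ∈ T, ∑ w ∈ T, ∑ u ∈ T, g u v w = ∑ v ∈ T, ∑ w ∈ T, ∑ u ∈ T, g v w u := by
      rw [Finset.sum_congr rfl fun v _ => Finset.sum_comm]
      rw [Finset.sum_comm]
    rw [e1, e2]
    simp only [Finset.sum_add_distrib]
    rw [e3, e4]
    ring
  -- the local terms
  have hloc : ∀ v ∈ T, (0 : ℤ) ≤ 1 - ((E v).card : ℤ) + (tri (E v) : ℤ) := by
    intro v hv
    obtain ⟨i, h1, h2⟩ := h v hv
    have hmem : ∀ j, j ∈ E v ↔ G.nb v j ∈ T ∧ r (G.nb v j) v := by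
      intro j
      simp [hE, eulF]
    have h3 := eul_loc i (E v) (fun j hj => h1 j ((hmem j).1 hj).1 ((hmem j).1 hj).2)
      (fun h4 h5 => (hmem i).2 (h2 ((hmem _).1 h4).1 ((hmem _).1 h4).2 ((hmem _).1 h5).1
        ((hmem _).1 h5).2))
    have h4 : ((E v).card : ℤ) ≤ (tri (E v) : ℤ) + 1 := by exact_mod_cast h3
    linarith
  -- the first vertex
  obtain ⟨v0, hv0, hmin⟩ : ∃ v0 ∈ T, ∀ w ∈ T, ¬ r w v0 := by
    let _ := linearOrderOfSTO r
    obtain ⟨v0, hv0, hmin⟩ := Finset.exists_min_image T id hT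
    refine ⟨v0, hv0, fun w hw hr => ?_⟩
    have h1 : v0 ≤ w := hmin w hw
    have h2 : w < v0 := hr
    exact absurd h2 (not_lt.2 h1)
  have hE0 : E v0 = ∅ := by
    rw [Finset.eq_empty_iff_forall_notMem]
    intro i hi
    simp only [hE, eulF, Finset.mem_filter, Finset.mem_univ, true_and] at hi
    exact hmin _ hi.1 hi.2
  have hsum1 : (1 : ℤ) ≤ ∑ v ∈ T, (1 - ((E v).card : ℤ) + (tri (E v) : ℤ)) := by
    have h1 := Finset.single_le_sum hloc hv0
    rw [hE0] at h1
    have h2 : tri ∅ = 0 := by decide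
    rw [h2] at h1
    simpa using h1
  have hfin : ∑ v ∈ T, ((12 : ℤ) - 6 * ((G.idx T v).card : ℤ) + 4 * (tri (G.idx T v) : ℤ)) =
      12 * ∑ v ∈ T, (1 - ((E v).card : ℤ) + (tri (E v) : ℤ)) := by
    simp only [Finset.sum_add_distrib, Finset.sum_sub_distrib, ← Finset.mul_sum] at c2 ⊢
    rw [c1]
    simp only [Finset.sum_const, nsmul_eq_mul, mul_one]
    linarith
  rw [hfin]
  linarith

end Pool.Agent.H78.SS
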