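import Pool.Agent.H78.SS.Clo
import Pool.Agent.H78.SS.Eul

/-! COMB: f = distance to a base point. B = {v | f v <= R}, R = max of f on S. Take T from closure_lemma. Order: earlier iff
f smaller, ties broken by a well-ordering (WellOrderingRel). For v in T with earlier i-1 and i+1: m = nb v i has f m < f v <= R, so
m in B; if m were not in T then nb v (i-1), v, nb v (i+1) are three consecutive neighbours of m in T (Tri7.adj), excluded. -/

set_option autoImplicit false

namespace Pool.Agent.H78.SS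

theorem comb_mid {V : Type*} (G : Tri7 V) (v : V) (i : ZMod 7) :
    ∃ j, G.nb (G.nb v i) j = v ∧
      ((G.nb (G.nb v i) (j - 1) = G.nb v (i - 1) ∧ G.nb (G.nb v i) (j + 1) = G.nb v (i + 1)) ∨
       (G.nb (G.nb v i) (j - 1) = G.nb v (i + 1) ∧ G.nb (G.nb v i) (j + 1) = G.nb v (i - 1))) := by
  obtain ⟨j, hj⟩ := G.symm v i
  refine ⟨j, hj, ?_⟩
  -- neighbours of m = nb v i: v (index j), nb v (i-1), nb v (i+1)
  obtain ⟨a, ha⟩ := (G.adj v i (i - 1)).2 (Or.inr (by ring))
  obtain ⟨b, hb⟩ := (G.adj v i (i + 1)).2 (Or.inl (by ring))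
  -- a is adjacent to j
  have h1 : ∃ k, G.nb (G.nb (G.nb v i) j) k = G.nb (G.nb v i) a := ⟨i - 1, by rw [hj, ha]⟩
  have h2 : ∃ k, G.nb (G.nb (G.nb v i) j) k = G.nb (G.nb v i) b := ⟨i + 1, by rw [hj, hb]⟩
  have h1' := (G.adj (G.nb v i) j a).1 h1
  have h2' := (G.adj (G.nb v i) j b).1 h2
  have hne : a ≠ b := by
    intro h
    rw [h, hb] at ha
    have := G.inj v ha
    have h3 : (1 : ZMod 7) = -1 := by
      have h4 : i + 1 = i - 1 := this
      linear_combination h4
    exact absurd h3 (by decide)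
  rcases h1' with h1' | h1' <;> rcases h2' with h2' | h2'
  · exact absurd (h1'.trans h2'.symm) hne
  · right
    refine ⟨?_, ?_⟩
    · have : j - 1 = b := by rw [h2']; ring
      rw [this, hb]
    · rw [← h1', ha]
  · left
    refine ⟨?_, ?_⟩
    · have : j - 1 = a := by rw [h1']; ring
      rw [this, ha]
    · rw [← h2', hb]
  · exact absurd (add_right_cancel (h1'.symm.trans h2')) hne

theorem comb {V : Type*} (G : Tri7 V) (f : V → ℝ)
    (hrad : ∀ v, ∃ i : ZMod 7, (∀ j, f (G.nb v j) ≤ f v → j = i - 1 ∨ j = i ∨ j = i + 1) ∧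
      (f (G.nb v (i - 1)) ≤ f v → f (G.nb v (i + 1)) ≤ f v → f (G.nb v i) < f v))
    (hfin : ∀ R : ℝ, {v | f v ≤ R}.Finite) (S : Finset V) (hne : S.Nonempty)
    (hS : ∀ v ∈ S, 3 ≤ (G.idx S v).card) :
    (12 : ℤ) ≤ ∑ v ∈ S, wt (G.idx S v) := by
  classical
  obtain ⟨vm, hvm, hmax⟩ := S.exists_max_image f hne
  have hB : ∀ v, v ∈ (hfin (f vm)).toFinset ↔ f v ≤ f vm := by
    intro v; simp
  obtain ⟨T, hST, hTB, hT3, hle, hcl⟩ := closure_lemma G S (hfin (f vm)).toFinset
    (fun v hv => (hB v).2 (hmax v hv)) hS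
  refine le_trans ?_ hle
  have hTne : T.Nonempty := ⟨vm, hST hvm⟩
  let r : V → V → Prop := fun v w => f v < f w ∨ (f v = f w ∧ WellOrderingRel v w)
  haveI : IsStrictTotalOrder V r := by
    have hirr : ∀ a, ¬ r a a := by
      intro a h
      rcases h with h | ⟨_, h⟩
      · exact lt_irrefl _ h
      · exact (irrefl_of WellOrderingRel a) h
    have htr : ∀ a b c, r a b → r b c → r a c := by
      intro a b c h1 h2
      rcases h1 with h1 | ⟨h1, h1'⟩ <;> rcases h2 with h2 | ⟨h2, h2'⟩
      · exact Or.inl (h1.trans h2)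
      · exact Or.inl (h2 ▸ h1)
      · exact Or.inl (h1 ▸ h2)
      · exact Or.inr ⟨h1.trans h2, trans_of WellOrderingRel h1' h2'⟩
    have htri : ∀ a b, r a b ∨ a = b ∨ r b a := by
      intro a b
      rcases lt_trichotomy (f a) (f b) with h | h | h
      · exact Or.inl (Or.inl h)
      · rcases trichotomous_of WellOrderingRel a b with h' | h' | h'
        · exact Or.inl (Or.inr ⟨h, h'⟩)
        · exact Or.inr (Or.inl h')
        · exact Or.inr (Or.inr (Or.inr ⟨h.symm, h'⟩))
      · exact Or.inr (Or.inr (Or.inl h))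
    exact { trichotomous := by
              intro a b h1 h2
              rcases htri a b with h | h | h
              · exact absurd h h1
              · exact h
              · exact absurd h h2
            irrefl := hirr, trans := htr }
  have hrle : ∀ v w, r v w → f v ≤ f w := by
    intro v w h
    rcases h with h | ⟨h, _⟩
    · exact h.le
    · exact h.le
  have h12 := euler_count G T hTne r (by
    intro v hv
    obtain ⟨i, h1, h2⟩ := hrad v
    refine ⟨i, fun j _ hr => h1 j (hrle _ _ hr), ?_⟩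
    intro ha hra hb hrb
    have hlt := h2 (hrle _ _ hra) (hrle _ _ hrb)
    refine ⟨?_, Or.inl hlt⟩
    by_contra hm
    have hmB : G.nb v i ∈ (hfin (f vm)).toFinset :=
      (hB _).2 (hlt.le.trans ((hB v).1 (hTB hv)))
    apply hcl _ hmB hm
    obtain ⟨j, hj, hj'⟩ := comb_mid G v i
    refine ⟨j, ?_, ?_, ?_⟩
    · rcases hj' with h | h
      · rw [h.1]; exact ha
      · rw [h.1]; exact hb
    · rw [hj]; exact hv
    · rcases hj' with h | h
      · rw [h.2]; exact hb
      · rw [h.2]; exact ha)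
  refine h12.trans (Finset.sum_le_sum fun v hv => wt_ge _ (hT3 v hv))

end Pool.Agent.H78.SS
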