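import Pool.Agent.H78.SS.Th1

/-! NBR: the neighbours of a site. nb_eq_iff: equal neighbours have equal angles mod 2 pi (law with z = nb i, w = nb j gives
cosh 0 = Cc^2 - Sc^2 cos((i-j)Aa)).  nb_adj: cosh dist = Cc iff cos((i-j) Aa) = Cc/(Cc+1) = cos Aa.
nb_all: t in L at distance ea from s; let i be the nearest integer to th t / Aa; if t is not nb i then dist t (nb i) >= ea, but
cosh of it is Cc^2 - Sc^2 cos(phi), |phi| <= Aa/2, smaller than Cc^2 - Sc^2 cos Aa = Cc. -/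

set_option autoImplicit false

namespace Pool.Agent.H78.SS

open Real

variable {M : Type*} [MetricSpace M] {L : Set M} {s : M}

private lemma nbr_Aa_pos : 0 < Aa := lt_trans (by norm_num) Aa_bounds.1

theorem nb_law (F : Frame L s) (z : M) (j : ℤ) :
    Real.cosh (dist z (F.nb j)) = Real.cosh (dist s z) * Cc
      - Real.sinh (dist s z) * Sc * Real.cos (F.th z - j * Aa) := by
  obtain ⟨n, hn⟩ := F.nb_th j
  rw [F.law, F.nb_dist, hn, ← sub_sub, Real.cos_sub_int_mul_two_pi]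
  rfl

private lemma nb_law2 (F : Frame L s) (i j : ℤ) :
    Real.cosh (dist (F.nb i) (F.nb j)) = Cc ^ 2 - Sc ^ 2 * Real.cos (((i : ℝ) - j) * Aa) := by
  obtain ⟨n, hn⟩ := F.nb_th i
  have h : F.th (F.nb i) - j * Aa = ((i : ℝ) - j) * Aa + n * (2 * π) := by rw [hn]; ring
  rw [nb_law, F.nb_dist, h, Real.cos_add_int_mul_two_pi]
  change Cc * Cc - Sc * Sc * _ = _
  ring

theorem nb_eq_iff (F : Frame L s) (i j : ℤ) : F.nb i = F.nb j ↔ (7 : ℤ) ∣ i - j := by
  constructor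
  · intro h
    have h1 := nb_law2 F i j
    rw [h, dist_self, Real.cosh_zero] at h1
    have hS : 0 < Sc ^ 2 := pow_pos Sc_pos 2
    have h2 : Real.cos (((i : ℝ) - j) * Aa) = 1 := by
      have h3 := Sc_sq
      have h4 : Sc ^ 2 * Real.cos (((i : ℝ) - j) * Aa) = Sc ^ 2 * 1 := by linarith
      exact mul_left_cancel₀ hS.ne' h4
    rw [Real.cos_eq_one_iff] at h2
    obtain ⟨n, hn⟩ := h2
    refine ⟨n, ?_⟩
    rw [← Aa_seven, ← mul_assoc] at hn
    have h5 := mul_right_cancel₀ nbr_Aa_pos.ne' hn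
    have h6 : ((i - j : ℤ) : ℝ) = ((7 * n : ℤ) : ℝ) := by push_cast; linarith
    exact_mod_cast h6
  · rintro ⟨m, hm⟩
    have hper : Function.Periodic F.nb 7 := F.nb_per
    have h1 := (hper.zsmul m) j
    rw [← h1]
    congr 1
    rw [smul_eq_mul]
    linarith

theorem nb_adj (F : Frame L s) (i j : ℤ) :
    dist (F.nb i) (F.nb j) = ea ↔ ((7 : ℤ) ∣ i - j - 1 ∨ (7 : ℤ) ∣ j - i - 1) := by
  have hC1 : 0 < Cc + 1 := by have := Cc_bounds.1; linarith
  have hS : 0 < Sc ^ 2 := pow_pos Sc_pos 2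
  have h1 : dist (F.nb i) (F.nb j) = ea ↔ Real.cosh (dist (F.nb i) (F.nb j)) = Cc :=
    (Real.cosh_strictMonoOn.injOn.eq_iff (Set.mem_Ici.mpr dist_nonneg)
      (Set.mem_Ici.mpr ea_pos.le)).symm
  have h2 : Sc ^ 2 * Real.cos Aa = Cc ^ 2 - Cc := by
    rw [cosAa_eq, Sc_sq]
    field_simp
    ring
  have h3 : Real.cosh (dist (F.nb i) (F.nb j)) = Cc ↔
      Real.cos (((i : ℝ) - j) * Aa) = Real.cos Aa := by
    rw [nb_law2]
    constructor
    · intro h
      apply mul_left_cancel₀ hS.ne'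
      linarith
    · intro h
      rw [h]
      linarith
  rw [h1, h3, Real.cos_eq_cos_iff]
  have hA := nbr_Aa_pos
  constructor
  · rintro ⟨k, hk | hk⟩
    · left
      refine ⟨-k, ?_⟩
      have h4 : 2 * (k : ℝ) * π = 7 * k * Aa := by linear_combination (-(k : ℝ)) * Aa_seven
      rw [h4] at hk
      have h5 : ((i - j - 1 : ℤ) : ℝ) * Aa = ((7 * -k : ℤ) : ℝ) * Aa := by
        push_cast
        linarith
      exact_mod_cast mul_right_cancel₀ hA.ne' h5
    · right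
      refine ⟨-k, ?_⟩
      have h4 : 2 * (k : ℝ) * π = 7 * k * Aa := by linear_combination (-(k : ℝ)) * Aa_seven
      rw [h4] at hk
      have h5 : ((j - i - 1 : ℤ) : ℝ) * Aa = ((7 * -k : ℤ) : ℝ) * Aa := by
        push_cast
        linarith
      exact_mod_cast mul_right_cancel₀ hA.ne' h5
  · rintro (⟨k, hk⟩ | ⟨k, hk⟩)
    · refine ⟨-k, Or.inl ?_⟩
      have h5 : ((i - j - 1 : ℤ) : ℝ) = ((7 * k : ℤ) : ℝ) := by rw [hk]
      push_cast at h5 ⊢
      linear_combination (-Aa) * h5 - (k : ℝ) * Aa_seven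
    · refine ⟨-k, Or.inr ?_⟩
      have h5 : ((j - i - 1 : ℤ) : ℝ) = ((7 * k : ℤ) : ℝ) := by rw [hk]
      push_cast at h5 ⊢
      linear_combination (-Aa) * h5 - (k : ℝ) * Aa_seven

theorem nb_all (hL : Tiling L) (F : Frame L s) (t : M) (ht : t ∈ L) (hd : dist s t = ea) :
    ∃ i : ℤ, 0 ≤ i ∧ i < 7 ∧ F.nb i = t := by
  have hA := nbr_Aa_pos
  have hS : 0 < Sc ^ 2 := pow_pos Sc_pos 2
  have hC1 : 0 < Cc + 1 := by have := Cc_bounds.1; linarith
  set i : ℤ := round (F.th t / Aa) with hi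
  have habs : |F.th t / Aa - i| ≤ 1 / 2 := abs_sub_round _
  have hphi : |F.th t - i * Aa| ≤ Aa / 2 := by
    have h1 : F.th t - i * Aa = (F.th t / Aa - i) * Aa := by field_simp
    rw [h1, abs_mul, abs_of_pos hA]
    nlinarith
  have hnb : F.nb i = t := by
    by_contra hne
    have h1 := hL.sep t ht (F.nb i) (F.nb_mem i) (Ne.symm hne)
    have h2 : Cc ≤ Real.cosh (dist t (F.nb i)) :=
      Real.cosh_strictMonoOn.monotoneOn (Set.mem_Ici.mpr ea_pos.le)
        (Set.mem_Ici.mpr dist_nonneg) h1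
    rw [nb_law, hd] at h2
    change Cc ≤ Cc * Cc - Sc * Sc * Real.cos (F.th t - i * Aa) at h2
    have h3 : Real.cos Aa < Real.cos (F.th t - i * Aa) := by
      rw [← Real.cos_abs (F.th t - i * Aa)]
      apply Real.cos_lt_cos_of_nonneg_of_le_pi (abs_nonneg _)
      · have := Aa_seven
        linarith [Real.pi_pos]
      · linarith
    have h4 : Sc ^ 2 * Real.cos Aa = Cc ^ 2 - Cc := by
      rw [cosAa_eq, Sc_sq]
      field_simp
      ring
    have h5 := mul_lt_mul_of_pos_left h3 hS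
    nlinarith
  refine ⟨i % 7, Int.emod_nonneg _ (by norm_num), Int.emod_lt_of_pos _ (by norm_num), ?_⟩
  rw [← hnb, nb_eq_iff]
  refine ⟨-(i / 7), ?_⟩
  have := Int.emod_add_mul_ediv i 7
  linarith

theorem nb_ne (F : Frame L s) (j : ℤ) : F.nb j ≠ s := by
  intro h
  have h1 := F.nb_dist j
  rw [h, dist_self] at h1
  exact ea_pos.ne h1

end Pool.Agent.H78.SS
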