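import Pool.Agent.H78.SS.Defs

/-! RI: inequalities for ps w = max 0 (max (7w) (9w-1)).
For w >= 0: ps w = 7w if w <= 1/2, = 9w-1 if w >= 1/2, i.e. 7w + (2w-1)^+.
Proofs of the last two (t = largest w; S = sum): see /team-store/H78_591ade.md section 5. -/

set_option autoImplicit false

namespace Pool.Agent.H78.SS

open Real

private lemma ri_cases (w : ℝ) : ps w = 0 ∨ ps w = 7 * w ∨ ps w = 9 * w - 1 := by
  unfold ps
  rcases max_choice 0 (max (7 * w) (9 * w - 1)) with h | h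
  · left; exact h
  · rcases max_choice (7 * w) (9 * w - 1) with h' | h'
    · right; left; rw [h, h']
    · right; right; rw [h, h']

private lemma ri_le (w : ℝ) (hw : 0 ≤ w) (h : w ≤ 1 / 2) : ps w = 7 * w := by
  unfold ps
  rw [max_eq_left (show 9 * w - 1 ≤ 7 * w by linarith), max_eq_right (by linarith)]

private lemma ri_ge (w : ℝ) (h : 1 / 2 ≤ w) : ps w = 9 * w - 1 := by
  unfold ps
  rw [max_eq_right (show 7 * w ≤ 9 * w - 1 by linarith), max_eq_right (by linarith)]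

theorem ps_pair (x y : ℝ) (hx : 0 ≤ x) (hy : 0 ≤ y) (h : x + y ≤ 1) : ps x + ps y ≤ 8 := by
  rcases ri_cases x with h1 | h1 | h1 <;> rcases ri_cases y with h2 | h2 | h2 <;>
    rw [h1, h2] <;> linarith

theorem ps_pair_lt (x y : ℝ) (hx : x < 1) (hy : y < 1) (h : x + y ≤ 1) : ps x + ps y < 8 := by
  rcases ri_cases x with h1 | h1 | h1 <;> rcases ri_cases y with h2 | h2 | h2 <;>
    rw [h1, h2] <;> linarith

theorem ps_triple (x y z : ℝ) (hx : 0 ≤ x) (hy : 0 ≤ y) (hz : 0 ≤ z) (hxy : x + y ≤ 1)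
    (hxz : x + z ≤ 1) (hyz : y + z ≤ 1) : ps x + ps y + ps z ≤ 10.5 := by
  rcases ri_cases x with h1 | h1 | h1 <;> rcases ri_cases y with h2 | h2 | h2 <;>
    rcases ri_cases z with h3 | h3 | h3 <;> rw [h1, h2, h3] <;> norm_num <;> linarith

theorem ps_sum_one {ι : Type*} (s : Finset ι) (w : ι → ℝ) (hw : ∀ i ∈ s, 0 ≤ w i)
    (h : 1.46 * ∑ i ∈ s, w i ≤ 1) : ∑ i ∈ s, ps (w i) ≤ 16 / 3 := by
  have h1 : ∀ i ∈ s, ps (w i) ≤ 7.54 * w i := by
    intro i hi
    have h2 : w i ≤ ∑ i ∈ s, w i := Finset.single_le_sum hw hi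
    have h3 := hw i hi
    rcases ri_cases (w i) with h4 | h4 | h4 <;> rw [h4] <;> norm_num at * <;> linarith
  refine (Finset.sum_le_sum h1).trans ?_
  rw [← Finset.mul_sum]
  norm_num at *
  linarith

theorem ps_sum_two {ι : Type*} (s : Finset ι) (w : ι → ℝ) (hw : ∀ i ∈ s, 0 ≤ w i)
    (hp : ∀ i ∈ s, ∀ j ∈ s, i ≠ j → w i + w j ≤ 1) (h1 : ∀ i ∈ s, w i ≤ 1)
    (h : 1.46 * ∑ i ∈ s, w i ≤ 2) : ∑ i ∈ s, ps (w i) ≤ 32 / 3 := by
  classical
  by_cases hall : ∀ i ∈ s, w i ≤ 1 / 2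
  · have h2 : ∀ i ∈ s, ps (w i) ≤ 7 * w i := fun i hi => (ri_le _ (hw i hi) (hall i hi)).le
    refine (Finset.sum_le_sum h2).trans ?_
    rw [← Finset.mul_sum]
    norm_num at *
    linarith
  · push Not at hall
    obtain ⟨t, ht, htw⟩ := hall
    have h2 : ∀ i ∈ s, ps (w i) ≤ 7 * w i + (if i = t then 1 else 0) := by
      intro i hi
      by_cases hit : i = t
      · rw [if_pos hit, hit, ri_ge _ htw.le]
        have := h1 t ht
        linarith
      · rw [if_neg hit, add_zero]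
        have := hp i hi t ht hit
        exact (ri_le _ (hw i hi) (by linarith)).le
    refine (Finset.sum_le_sum h2).trans ?_
    rw [Finset.sum_add_distrib, ← Finset.mul_sum, Finset.sum_ite_eq' s t, if_pos ht]
    norm_num at *
    linarith

private lemma ri_five (x y z : ℝ) (hx : 0 ≤ x) (hy : 0 ≤ y) (hz : 0 ≤ z) (hxy : x + y ≤ 1)
    (hxz : x + z ≤ 1) (hyz : y + z ≤ 1) (h : 1.46 * (x + z) + 3.8 * y * (x + z) ≤ 2)
    (hx2 : 1 / 2 ≤ x) : ps x + ps y + ps z ≤ 28 / 3 := by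
  rw [ri_ge x hx2, ri_le y hy (by linarith), ri_le z hz (by linarith)]
  by_contra hno
  push Not at hno
  have e1 : 4 / 15 ≤ y := by linarith
  have e2 : 5 / 6 ≤ x + z := by linarith
  have e3 : 0 ≤ (y - 4 / 15) * (x + z - 5 / 6) := mul_nonneg (by linarith) (by linarith)
  norm_num at h
  nlinarith

theorem ps_five (x y z : ℝ) (hx : 0 ≤ x) (hy : 0 ≤ y) (hz : 0 ≤ z) (hxy : x + y ≤ 1)
    (hxz : x + z ≤ 1) (hyz : y + z ≤ 1) (h : 1.46 * (x + z) + 3.8 * y * (x + z) ≤ 2) :
    ps x + ps y + ps z ≤ 28 / 3 := by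
  rcases le_total (1 / 2) x with h1 | h1
  · exact ri_five x y z hx hy hz hxy hxz hyz h h1
  rcases le_total (1 / 2) z with h2 | h2
  · have := ri_five z y x hz hy hx (by linarith) (by linarith) (by linarith)
      (by rw [add_comm z x]; exact h) h2
    linarith
  rcases le_total (1 / 2) y with h3 | h3
  · rw [ri_le x hx h1, ri_ge y h3, ri_le z hz h2]
    by_contra hno
    push Not at hno
    have e1 : y ≤ 11 / 15 := by linarith
    have e2 : (31 / 3 - 9 * y) / 7 ≤ x + z := by linarith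
    have e3 : 0 ≤ (x + z - (31 / 3 - 9 * y) / 7) * (1.46 + 3.8 * y) :=
      mul_nonneg (by linarith) (by norm_num; linarith)
    have e4 : 0 ≤ (y - 1 / 2) * (11 / 15 - y) := mul_nonneg (by linarith) (by linarith)
    norm_num at h e3
    nlinarith
  · rw [ri_le x hx h1, ri_le y hy h3, ri_le z hz h2]
    by_contra hno
    push Not at hno
    have e1 : 1 / 3 ≤ y := by linarith
    have e2 : 5 / 6 ≤ x + z := by linarith
    have e3 : 0 ≤ (y - 1 / 3) * (x + z - 5 / 6) := mul_nonneg (by linarith) (by linarith)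
    norm_num at h
    nlinarith

private lemma ri_four_aux (A b : ℝ) (hA : A ≤ 1) (hbA : b ≤ A) (hs : 13 / 9 < A + b)
    (h : 1.46 * max A b + 3.8 * A * b ≤ 3) : False := by
  rw [max_eq_left hbA] at h
  have e1 : 0 ≤ A * (b - (13 / 9 - A)) := mul_nonneg (by linarith) (by linarith)
  have e2 : 0 ≤ (A - 13 / 18) * (1 - A) := mul_nonneg (by linarith) (by linarith)
  norm_num at h
  nlinarith

private lemma ri_four_sum (x y z w : ℝ) (hy : 0 ≤ y) (hz : 0 ≤ z) (hw : 0 ≤ w)
    (hxy : x + y ≤ 1) (hxz : x + z ≤ 1) (hxw : x + w ≤ 1)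
    (hx2 : 1 / 2 ≤ x) (hno : 32 / 3 < ps x + ps y + ps z + ps w) : 13 / 9 < x + y + z + w := by
  rw [ri_ge x hx2, ri_le y hy (by linarith), ri_le z hz (by linarith),
    ri_le w hw (by linarith)] at hno
  linarith

theorem ps_four (x y z w : ℝ) (hx : 0 ≤ x) (hy : 0 ≤ y) (hz : 0 ≤ z) (hw : 0 ≤ w) (hxy : x + y ≤ 1)
    (hxz : x + z ≤ 1) (hyz : y + z ≤ 1) (hxw : x + w ≤ 1) (hyw : y + w ≤ 1) (hzw : z + w ≤ 1)
    (h : 1.46 * max (x + z) (y + w) + 3.8 * (x + z) * (y + w) ≤ 3) :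
    ps x + ps y + ps z + ps w ≤ 32 / 3 := by
  by_contra hno
  push Not at hno
  have hS : 13 / 9 < x + y + z + w := by
    rcases le_total (1 / 2) x with h1 | h1
    · exact ri_four_sum x y z w hy hz hw hxy hxz hxw h1 hno
    rcases le_total (1 / 2) y with h2 | h2
    · have := ri_four_sum y x z w hx hz hw (by linarith) hyz hyw h2 (by linarith)
      linarith
    rcases le_total (1 / 2) z with h3 | h3
    · have := ri_four_sum z x y w hx hy hw (by linarith) (by linarith) hzw h3 (by linarith)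
      linarith
    rcases le_total (1 / 2) w with h4 | h4
    · have := ri_four_sum w x y z hx hy hz (by linarith) (by linarith) (by linarith) h4
        (by linarith)
      linarith
    rw [ri_le x hx h1, ri_le y hy h2, ri_le z hz h3, ri_le w hw h4] at hno
    linarith
  rcases le_total (y + w) (x + z) with h1 | h1
  · exact ri_four_aux (x + z) (y + w) hxz h1 (by linarith) h
  · refine ri_four_aux (y + w) (x + z) hyw h1 (by linarith) ?_
    rw [max_comm]
    have : (3.8 : ℝ) * (y + w) * (x + z) = 3.8 * (x + z) * (y + w) := by ring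
    rw [this]
    exact h

end Pool.Agent.H78.SS
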