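import Pool.Agent.H78.SS.Kite
import Pool.Agent.H78.SS.Ball
import Pool.Agent.H78.SS.Nbr
import Pool.Agent.H78.SS.RI

/-! COV: every point y outside L has three sites at distance < ea with total weight >= 8.
s = nearest site, F a frame at s, i = nearest integer to th y / Aa, phi = th y - i Aa in [-Aa/2, Aa/2]; the second site is nb i,
the third nb (i+1) if phi >= 0, nb (i-1) if phi < 0. nb_law and the minimality of s give the hypotheses of kite; with w = 1 - d/ea:
ps w1 + ps w2 + ps w3 >= (9 w1 - 1) + 7 w2 + 7 w3 >= 8. Strictness: y not in L, so each w < 1; two sites at distance ea have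
w + w' <= 1 (triangle inequality), ps_pair_lt gives ps w + ps w' < 8, so the third one has ps > 0, i.e. distance < ea. -/

set_option autoImplicit false

namespace Pool.Agent.H78.SS

open Real

variable {M : Type*} [MetricSpace M] [ProperSpace M] {L : Set M}

theorem cov_ps_ge7 (w : ℝ) : 7 * w ≤ ps w := le_max_of_le_right (le_max_left _ _)

theorem cov_ps_ge9 (w : ℝ) : 9 * w - 1 ≤ ps w := le_max_of_le_right (le_max_right _ _)

theorem cov_ps_zero (w : ℝ) (hw : w ≤ 0) : ps w = 0 := by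
  unfold ps
  apply max_eq_left
  apply max_le <;> linarith

/-- if one of the distances is at least `ea` the total weight is smaller than `8` -/
theorem cov_strict (d1 d2 d3 : ℝ) (h1 : 0 < d1) (h2 : 0 < d2) (h12 : ea ≤ d1 + d2)
    (h : 8 ≤ psi d1 + psi d2 + psi d3) : d3 < ea := by
  by_contra hcon
  have hea := ea_pos
  rw [not_lt] at hcon
  have h3 : psi d3 = 0 := by
    apply cov_ps_zero
    have : 1 ≤ d3 / ea := by rwa [one_le_div hea]
    linarith
  have hd1 : 0 < d1 / ea := div_pos h1 hea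
  have hd2 : 0 < d2 / ea := div_pos h2 hea
  have hs : 1 ≤ d1 / ea + d2 / ea := by
    rw [← add_div, one_le_div hea]
    exact h12
  have := ps_pair_lt (1 - d1 / ea) (1 - d2 / ea) (by linarith) (by linarith) (by linarith)
  rw [h3] at h
  unfold psi at h
  linarith

theorem cov_total (d1 d2 d3 : ℝ) (h : 9 * d1 + 7 * (d2 + d3) ≤ 14 * ea) :
    8 ≤ psi d1 + psi d2 + psi d3 := by
  have hea := ea_pos
  have h1 := cov_ps_ge9 (1 - d1 / ea)
  have h2 := cov_ps_ge7 (1 - d2 / ea)
  have h3 := cov_ps_ge7 (1 - d3 / ea)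
  have h4 : 9 * (d1 / ea) + 7 * (d2 / ea + d3 / ea) ≤ 14 := by
    have : 9 * (d1 / ea) + 7 * (d2 / ea + d3 / ea) = (9 * d1 + 7 * (d2 + d3)) / ea := by ring
    rw [this, div_le_iff₀ hea]
    exact h
  unfold psi
  linarith

/-- the three sites `s`, `nb i`, `nb j` with `j = i + 1` or `j = i - 1` -/
theorem cov_aux (hL : Tiling L) (y s : M) (hs : s ∈ L) (F : Frame L s)
    (hmin : ∀ t ∈ L, dist s y ≤ dist t y) (hy : y ∉ L) (i j : ℤ) (phi : ℝ)
    (hp : 0 ≤ phi) (hp' : phi ≤ Aa / 2) (hij : ¬ (7 : ℤ) ∣ i - j)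
    (e2 : Real.cos (F.th y - i * Aa) = Real.cos phi)
    (e3 : Real.cos (F.th y - j * Aa) = Real.cos (Aa - phi)) :
    ∃ s1 ∈ L, ∃ s2 ∈ L, ∃ s3 ∈ L, s1 ≠ s2 ∧ s1 ≠ s3 ∧ s2 ≠ s3 ∧
      dist s1 y < ea ∧ dist s2 y < ea ∧ dist s3 y < ea ∧
      8 ≤ psi (dist s1 y) + psi (dist s2 y) + psi (dist s3 y) := by
  have hpos : ∀ t ∈ L, 0 < dist t y := by
    intro t ht
    rw [dist_pos]
    rintro rfl
    exact hy ht
  have l2 := nb_law F y i
  have l3 := nb_law F y j
  rw [e2] at l2
  rw [e3] at l3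
  have c2 : dist y (F.nb i) = dist (F.nb i) y := dist_comm _ _
  have c3 : dist y (F.nb j) = dist (F.nb j) y := dist_comm _ _
  rw [c2] at l2
  rw [c3] at l3
  have hn : Real.cosh (dist s y) ≤
      Cc * Real.cosh (dist s y) - Sc * Real.sinh (dist s y) * Real.cos phi := by
    have := Real.cosh_le_cosh.2 (show |dist s y| ≤ |dist (F.nb i) y| by
      rw [abs_of_nonneg dist_nonneg, abs_of_nonneg dist_nonneg]
      exact hmin _ (F.nb_mem i))
    rw [l2] at this
    linarith
  have hk := kite (dist s y) phi (dist (F.nb i) y) (dist (F.nb j) y) dist_nonneg hp hp' hn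
    dist_nonneg dist_nonneg (by rw [l2]; ring) (by rw [l3]; ring)
  have ht := cov_total _ _ _ hk
  have n1 : s ≠ F.nb i := (nb_ne F i).symm
  have n2 : s ≠ F.nb j := (nb_ne F j).symm
  have n3 : F.nb i ≠ F.nb j := fun h => hij ((nb_eq_iff F i j).1 h)
  have t12 : ea ≤ dist s y + dist (F.nb i) y := by
    have := dist_triangle_right s (F.nb i) y
    have h2 := F.nb_dist i
    linarith
  have t13 : ea ≤ dist s y + dist (F.nb j) y := by
    have := dist_triangle_right s (F.nb j) y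
    have h2 := F.nb_dist j
    linarith
  have t23 : ea ≤ dist (F.nb i) y + dist (F.nb j) y := by
    have := dist_triangle_right (F.nb i) (F.nb j) y
    have h2 := hL.sep _ (F.nb_mem i) _ (F.nb_mem j) n3
    linarith
  have p1 := hpos s hs
  have p2 := hpos _ (F.nb_mem i)
  have p3 := hpos _ (F.nb_mem j)
  refine ⟨s, hs, F.nb i, F.nb_mem i, F.nb j, F.nb_mem j, n1, n2, n3, ?_, ?_, ?_, ht⟩
  · exact cov_strict _ _ _ p2 p3 t23 (by linarith)
  · exact cov_strict _ _ _ p1 p3 t13 (by linarith)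
  · exact cov_strict _ _ _ p1 p2 t12 ht

theorem COV (hL : Tiling L) (y : M) (hy : y ∉ L) :
    ∃ s1 ∈ L, ∃ s2 ∈ L, ∃ s3 ∈ L, s1 ≠ s2 ∧ s1 ≠ s3 ∧ s2 ≠ s3 ∧
      dist s1 y < ea ∧ dist s2 y < ea ∧ dist s3 y < ea ∧
      8 ≤ psi (dist s1 y) + psi (dist s2 y) + psi (dist s3 y) := by
  obtain ⟨s, hs, hmin⟩ := exists_nearest (X := L) hL.sep hL.ne y
  obtain ⟨F⟩ := hL.frame s hs
  have hA : 0 < Aa := by have := Aa_bounds.1; linarith
  set i : ℤ := round (F.th y / Aa) with hi
  have hr := abs_sub_round (F.th y / Aa)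
  rw [← hi] at hr
  set phi : ℝ := F.th y - i * Aa with hphi
  have hq : phi = (F.th y / Aa - i) * Aa := by
    rw [hphi]; field_simp
  have hb : |phi| ≤ Aa / 2 := by
    rw [hq, abs_mul, abs_of_pos hA]
    nlinarith
  have hb' := abs_le.1 hb
  rcases le_or_gt 0 phi with h0 | h0
  · refine cov_aux hL y s hs F hmin hy i (i + 1) phi h0 hb'.2 (by omega) rfl ?_
    rw [← Real.cos_neg]
    congr 1
    push_cast
    rw [hphi]; ring
  · refine cov_aux hL y s hs F hmin hy i (i - 1) (-phi) (by linarith) (by linarith [hb'.1])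
      (by omega) (by rw [Real.cos_neg]) ?_
    congr 1
    push_cast
    rw [hphi]; ring

end Pool.Agent.H78.SS
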