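import Mathlib

/-!
MP_591ade_co, p = 7: strong solidity of the incircle packing of {7,3}.
Common definitions.  Proof document: /team-store/H78_591ade.md
-/

set_option autoImplicit false

namespace Pool.Agent.H78.SS

open Real

noncomputable section

/-- the angle of the triangles of {3,7}: 2 pi / 7 -/
def Aa : ℝ := 2 * π / 7

/-- the common distance of neighbouring centres (in the form of the frozen statement) -/
def ea : ℝ := 2 * Real.arsinh (Real.sqrt ((1 / (2 * Real.sin (π / 7))) ^ 2 - 1))

/-- cosh of the edge -/
def Cc : ℝ := Real.cosh ea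

/-- sinh of the edge -/
def Sc : ℝ := Real.sinh ea

/-- the weight as a function of w = 1 - r / ea -/
def ps (w : ℝ) : ℝ := max 0 (max (7 * w) (9 * w - 1))

/-- the radial weight -/
def psi (r : ℝ) : ℝ := ps (1 - r / ea)

/-- smallest angle at s between two points at distances r, q from s and at distance at least ea from each other -/
def Th (r q : ℝ) : ℝ :=
  Real.arccos ((Real.cosh r * Real.cosh q - Cc) / (Real.sinh r * Real.sinh q))

/-- polar coordinates at a point s of L with the seven neighbours at the angles j * Aa -/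
structure Frame {M : Type*} [MetricSpace M] (L : Set M) (s : M) where
  th : M → ℝ
  nb : ℤ → M
  law : ∀ z w : M, Real.cosh (dist z w) =
    Real.cosh (dist s z) * Real.cosh (dist s w)
      - Real.sinh (dist s z) * Real.sinh (dist s w) * Real.cos (th z - th w)
  nb_mem : ∀ j, nb j ∈ L
  nb_dist : ∀ j, dist s (nb j) = ea
  nb_per : ∀ j, nb (j + 7) = nb j
  nb_th : ∀ j : ℤ, ∃ n : ℤ, th (nb j) = j * Aa + n * (2 * π)

/-- abstract version of the vertex set of {3,7} -/
structure Tiling {M : Type*} [MetricSpace M] (L : Set M) : Prop where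
  ne : L.Nonempty
  sep : ∀ s ∈ L, ∀ t ∈ L, s ≠ t → ea ≤ dist s t
  frame : ∀ s ∈ L, Nonempty (Frame L s)

/-- combinatorial structure: seven neighbours in cyclic order, triangulated link -/
structure Tri7 (V : Type*) where
  nb : V → ZMod 7 → V
  inj : ∀ v, Function.Injective (nb v)
  irr : ∀ v i, nb v i ≠ v
  symm : ∀ v i, ∃ j, nb (nb v i) j = v
  adj : ∀ v i j, (∃ k, nb (nb v i) k = nb v j) ↔ (j = i + 1 ∨ i = j + 1)

open Classical in
/-- indices of the neighbours of v that lie in T -/
def Tri7.idx {V : Type*} (G : Tri7 V) (T : Finset V) (v : V) : Finset (ZMod 7) :=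
  Finset.univ.filter (fun i => G.nb v i ∈ T)

/-- six times the deficiency guaranteed at a site whose neighbours in S have the index set I -/
def wt (I : Finset (ZMod 7)) : ℤ :=
  if I.card ≤ 3 then 2 else if I.card = 4 then 0 else
    if I.card = 5 ∧ (∃ i, i ∉ I ∧ i + 1 ∉ I) then -1 else -2

/-- number of pairs of consecutive indices -/
def tri (I : Finset (ZMod 7)) : ℕ := (Finset.univ.filter (fun i => i ∈ I ∧ i + 1 ∈ I)).card

/-- the set of centres after the rearrangement: (L without S) together with Y -/
def NewSet {M : Type*} (L : Set M) (S Y : Finset M) : Set M := (L \ (S : Set M)) ∪ (Y : Set M)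

/-- pairwise distances at least ea -/
def Sep {M : Type*} [MetricSpace M] (X : Set M) : Prop :=
  ∀ x ∈ X, ∀ y ∈ X, x ≠ y → ea ≤ dist x y

end

end Pool.Agent.H78.SS
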