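import Pool.Agent.H78.SS.Tri

/-! RAD: for a point O and a site v, the neighbours of v that are not farther from O than v lie in three consecutive
positions i-1, i, i+1, and if both outer ones are, then the middle one is strictly closer.
Proof: R0 = dist v O > 0 (else trivial). cosh(dist O nb_j) = Cc cosh R0 - Sc sinh R0 cos(th O - j Aa) <= cosh R0 iff
cos(th O - j Aa) >= ((Cc-1)/Sc) coth R0 >= (Cc-1)/Sc > cos(3 Aa/2). i = nearest integer to th O / Aa, phi = th O - i Aa in
[-Aa/2, Aa/2]; the indices i±2, i±3 have angle between 3Aa/2 and pi.  If phi = ±Aa/2, one of i-1, i+1 has angle 3Aa/2: excluded;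
otherwise cos phi > cos(phi ± Aa). -/

set_option autoImplicit false

namespace Pool.Agent.H78.SS

open Real

variable {M : Type*} [MetricSpace M] {L : Set M}

private lemma rad_rep (d : ZMod 7) : ∃ m : ℤ, -3 ≤ m ∧ m ≤ 3 ∧ ((m : ℤ) : ZMod 7) = d := by
  have h7 : (((7 : ℕ) : ℤ) : ZMod 7) = 0 := by
    rw [Int.cast_natCast]; exact ZMod.natCast_self 7
  have hv : (((d.val : ℕ) : ℤ) : ZMod 7) = d := by
    rw [Int.cast_natCast]; exact ZMod.natCast_zmod_val d
  have hlt : d.val < 7 := ZMod.val_lt d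
  by_cases h : d.val ≤ 3
  · exact ⟨(d.val : ℤ), by omega, by omega, hv⟩
  · refine ⟨(d.val : ℤ) - 7, by omega, by omega, ?_⟩
    have h8 : (((d.val : ℤ) - ((7 : ℕ) : ℤ) : ℤ) : ZMod 7) = d := by
      rw [Int.cast_sub, hv, h7, sub_zero]
    exact_mod_cast h8

private lemma rad_law (hL : Tiling L) (O : M) (v : {x // x ∈ L}) (j : ZMod 7) (n : ℤ)
    (hn : ((n : ℤ) : ZMod 7) = j) :
    Real.cosh (dist O (nbr hL v j).1) = Real.cosh (dist O v.1) * Cc
      - Real.sinh (dist O v.1) * Sc * Real.cos ((fr hL v).th O - n * Aa) := by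
  have h1 : (nbr hL v j).1 = (fr hL v).nb n := by
    change (fr hL v).nb (j.val : ℤ) = (fr hL v).nb n
    rw [nb_eq_iff]
    have h2 : ((n : ℤ) : ZMod 7) = (((j.val : ℕ) : ℤ) : ZMod 7) := by
      rw [hn, Int.cast_natCast]; exact (ZMod.natCast_zmod_val j).symm
    have h3 := (ZMod.intCast_eq_intCast_iff_dvd_sub n ((j.val : ℕ) : ℤ) 7).1 h2
    exact_mod_cast h3
  rw [h1, nb_law, dist_comm v.1 O]

theorem RAD (hL : Tiling L) (O : M) (v : {x // x ∈ L}) :
    ∃ i : ZMod 7, (∀ j, dist O (nbr hL v j).1 ≤ dist O v.1 → j = i - 1 ∨ j = i ∨ j = i + 1) ∧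
      (dist O (nbr hL v (i - 1)).1 ≤ dist O v.1 → dist O (nbr hL v (i + 1)).1 ≤ dist O v.1 →
        dist O (nbr hL v i).1 < dist O v.1) := by
  have hea := ea_pos
  rcases eq_or_lt_of_le (dist_nonneg (x := O) (y := v.1)) with h0 | h0
  · -- `v = O`
    have hv : O = v.1 := dist_eq_zero.1 h0.symm
    have hno : ∀ j, ¬ dist O (nbr hL v j).1 ≤ dist O v.1 := by
      intro j hj
      have h1 : dist O (nbr hL v j).1 = ea := by
        rw [hv]
        exact (fr hL v).nb_dist _
      rw [h1, ← h0] at hj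
      linarith
    exact ⟨0, fun j hj => absurd hj (hno j), fun h1 _ => absurd h1 (hno _)⟩
  · have hA := Aa_bounds
    have hA7 := Aa_seven
    have hpi := Real.pi_pos
    have hS := Sc_pos
    have hsinh : 0 < Real.sinh (dist O v.1) := Real.sinh_pos_iff.2 h0
    have hkap := cos_three_half
    -- the condition on the angle
    have key : ∀ (j : ZMod 7) (n : ℤ), ((n : ℤ) : ZMod 7) = j → dist O (nbr hL v j).1 ≤ dist O v.1 →
        Real.cos (3 * Aa / 2) < Real.cos ((fr hL v).th O - n * Aa) := by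
      intro j n hn hj
      have h1 : Real.cosh (dist O (nbr hL v j).1) ≤ Real.cosh (dist O v.1) := by
        rw [Real.cosh_le_cosh, abs_of_nonneg dist_nonneg, abs_of_nonneg dist_nonneg]
        exact hj
      rw [rad_law hL O v j n hn] at h1
      have h2 := Real.sinh_lt_cosh (dist O v.1)
      have h3 : 0 < Cc - 1 := by
        have := Cc_bounds
        linarith
      have h4 : Real.sinh (dist O v.1) * (Cc - 1)
          < Real.sinh (dist O v.1) * (Sc * Real.cos ((fr hL v).th O - n * Aa)) := by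
        have h5 : Real.sinh (dist O v.1) * (Cc - 1) < Real.cosh (dist O v.1) * (Cc - 1) :=
          mul_lt_mul_of_pos_right h2 h3
        nlinarith
      have h6 := lt_of_mul_lt_mul_left h4 hsinh.le
      refine hkap.trans ?_
      rw [div_lt_iff₀ hS]
      linarith
    obtain ⟨i0, hi0⟩ : ∃ i0 : ℤ, |(fr hL v).th O / Aa - i0| ≤ 1 / 2 :=
      ⟨round ((fr hL v).th O / Aa), abs_sub_round _⟩
    have hApos : 0 < Aa := by linarith
    set φ := (fr hL v).th O - i0 * Aa with hφ
    have hφ1 : -(Aa / 2) ≤ φ ∧ φ ≤ Aa / 2 := by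
      rw [abs_le] at hi0
      have e1 : (fr hL v).th O / Aa * Aa = (fr hL v).th O := by field_simp
      constructor
      · have := mul_le_mul_of_nonneg_right hi0.1 hApos.le
        rw [sub_mul, e1] at this
        linarith
      · have := mul_le_mul_of_nonneg_right hi0.2 hApos.le
        rw [sub_mul, e1] at this
        linarith
    refine ⟨(i0 : ZMod 7), ?_, ?_⟩
    · intro j hj
      obtain ⟨m, hm1, hm2, hm3⟩ := rad_rep (j - (i0 : ZMod 7))
      have hm4 : (((i0 + m : ℤ)) : ZMod 7) = j := by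
        push_cast
        rw [hm3]
        ring
      have hk := key j (i0 + m) hm4 hj
      have e1 : (fr hL v).th O - ((i0 + m : ℤ) : ℝ) * Aa = φ - m * Aa := by
        rw [hφ]; push_cast; ring
      rw [e1] at hk
      have hj' : j = (i0 : ZMod 7) + ((m : ℤ) : ZMod 7) := by
        rw [hm3]; ring
      have hbad : ∀ x : ℝ, 3 * Aa / 2 ≤ x → x ≤ 7 * Aa / 2 → ¬ Real.cos (3 * Aa / 2) < Real.cos x := by
        intro x hx1 hx2
        exact not_lt.2 (Real.cos_le_cos_of_nonneg_of_le_pi (by linarith) (by linarith) hx1)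
      interval_cases m
      · exfalso
        refine hbad (φ - ((-3 : ℤ) : ℝ) * Aa) ?_ ?_ hk <;> push_cast <;> linarith [hφ1.1, hφ1.2]
      · exfalso
        refine hbad (φ - ((-2 : ℤ) : ℝ) * Aa) ?_ ?_ hk <;> push_cast <;> linarith [hφ1.1, hφ1.2]
      · left
        rw [hj']; push_cast; ring
      · right; left
        rw [hj']; push_cast; ring
      · right; right
        rw [hj']; push_cast; ring
      · exfalso
        rw [← Real.cos_neg (φ - ((2 : ℤ) : ℝ) * Aa)] at hk
        refine hbad (-(φ - ((2 : ℤ) : ℝ) * Aa)) ?_ ?_ hk <;> push_cast <;> linarith [hφ1.1, hφ1.2]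
      · exfalso
        rw [← Real.cos_neg (φ - ((3 : ℤ) : ℝ) * Aa)] at hk
        refine hbad (-(φ - ((3 : ℤ) : ℝ) * Aa)) ?_ ?_ hk <;> push_cast <;> linarith [hφ1.1, hφ1.2]
    · intro hm hp
      have c1 : (((i0 - 1 : ℤ)) : ZMod 7) = (i0 : ZMod 7) - 1 := by push_cast; ring
      have c2 : (((i0 + 1 : ℤ)) : ZMod 7) = (i0 : ZMod 7) + 1 := by push_cast; ring
      have hlt : ∀ n : ℤ, dist O (nbr hL v ((n : ℤ) : ZMod 7)).1 ≤ dist O v.1 →
          Real.cos ((fr hL v).th O - n * Aa) < Real.cos φ →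
          dist O (nbr hL v (i0 : ZMod 7)).1 < dist O v.1 := by
        intro n hn hc
        have h1 : Real.cosh (dist O (nbr hL v ((n : ℤ) : ZMod 7)).1) ≤ Real.cosh (dist O v.1) := by
          rw [Real.cosh_le_cosh, abs_of_nonneg dist_nonneg, abs_of_nonneg dist_nonneg]
          exact hn
        rw [rad_law hL O v _ n rfl] at h1
        have h2 : Real.cosh (dist O (nbr hL v (i0 : ZMod 7)).1) < Real.cosh (dist O v.1) := by
          rw [rad_law hL O v _ i0 rfl]
          have h3 : Real.sinh (dist O v.1) * Sc * Real.cos ((fr hL v).th O - n * Aa)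
              < Real.sinh (dist O v.1) * Sc * Real.cos φ :=
            mul_lt_mul_of_pos_left hc (mul_pos hsinh hS)
          linarith
        rw [Real.cosh_lt_cosh, abs_of_nonneg dist_nonneg, abs_of_nonneg dist_nonneg] at h2
        exact h2
      rcases eq_or_lt_of_le hφ1.1 with he | he
      · -- excluded case
        exfalso
        have hk := key _ (i0 + 1) c2 hp
        have e1 : (fr hL v).th O - ((i0 + 1 : ℤ) : ℝ) * Aa = -(3 * Aa / 2) := by
          have : (fr hL v).th O - ((i0 + 1 : ℤ) : ℝ) * Aa = φ - Aa := by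
            rw [hφ]; push_cast; ring
          rw [this, ← he]; ring
        rw [e1, Real.cos_neg] at hk
        exact lt_irrefl _ hk
      · rw [← c1] at hm
        refine hlt (i0 - 1) hm ?_
        have e1 : (fr hL v).th O - ((i0 - 1 : ℤ) : ℝ) * Aa = φ + Aa := by
          rw [hφ]; push_cast; ring
        rw [e1]
        have h1 : 0 < Real.sin (φ + Aa / 2) := Real.sin_pos_of_pos_of_lt_pi (by linarith) (by linarith [hφ1.2])
        have h2 : 0 < Real.sin (Aa / 2) := Real.sin_pos_of_pos_of_lt_pi (by linarith) (by linarith)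
        have h3 : Real.cos φ - Real.cos (φ + Aa) = 2 * Real.sin (φ + Aa / 2) * Real.sin (Aa / 2) := by
          rw [Real.cos_sub_cos]
          have e2 : (φ + (φ + Aa)) / 2 = φ + Aa / 2 := by ring
          have e3 : (φ - (φ + Aa)) / 2 = -(Aa / 2) := by ring
          rw [e2, e3, Real.sin_neg]
          ring
        have h4 := mul_pos (mul_pos two_pos h1) h2
        linarith

end Pool.Agent.H78.SS
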