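import Pool.Agent.H78.SS.LL
import Pool.Agent.H78.SS.Cov
import Pool.Agent.H78.SS.Rad
import Pool.Agent.H78.SS.Comb

/-! IND: the main abstract theorem, by strong induction on |S|.
Let Y be nonempty; for s in S let q(s) = #{y in Y | dist s y < ea}.
 q(s) = 0 for some s: S' = S.erase s, Y' = Y; NewSet L S' Y' = NewSet L S Y ∪ {s} is separated. Induction.
 q(s) = 1, conflict y0: S' = S.erase s, Y' = Y.erase y0. Induction gives Y' empty or |Y'| + 2 <= |S'|. If Y' is empty then Y = {y0} and
   COV gives three sites at distance < ea from y0; they are in S (a site not in S is in NewSet, at distance >= ea). So |S| >= 3.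
 else q >= 2 everywhere: S is nonempty (COV), LL at every site, comb with f v = dist O v (fin_ball) and RAD:
   sum of wt over S >= 12; and 8 |Y| <= sum_Y sum_S psi (COV: the three sites are in S) <= 8 |S| - (4/3) 12 = 8 |S| - 16. -/

set_option autoImplicit false

namespace Pool.Agent.H78.SS

open Real

variable {M : Type*} [MetricSpace M] [ProperSpace M] {L : Set M}

theorem psi_nonneg (r : ℝ) : 0 ≤ psi r := by
  unfold psi ps
  exact le_max_left _ _

open Classical in
/-- the three sites of COV lie in S -/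
theorem cov_S (hL : Tiling L) (S Y : Finset M) (hY : ∀ y ∈ Y, y ∉ L)
    (hX : Sep (NewSet L S Y)) (y : M) (hy : y ∈ Y) :
    3 ≤ S.card ∧ 8 ≤ ∑ s ∈ S, psi (dist s y) := by
  obtain ⟨s1, h1, s2, h2, s3, h3, h12, h13, h23, d1, d2, d3, h8⟩ := COV hL y (hY y hy)
  have key : ∀ s ∈ L, dist s y < ea → s ∈ S := by
    intro s hs hd
    by_contra hns
    have h := hX s (Or.inl ⟨hs, by simpa using hns⟩) y (Or.inr (by simpa using hy))
      (fun h => hY y hy (h ▸ hs))
    exact absurd h (not_le.2 hd)
  have m1 := key s1 h1 d1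
  have m2 := key s2 h2 d2
  have m3 := key s3 h3 d3
  have hsub : ({s1, s2, s3} : Finset M) ⊆ S := by
    intro x hx
    simp only [Finset.mem_insert, Finset.mem_singleton] at hx
    rcases hx with h | h | h <;> rw [h] <;> assumption
  have hcard : ({s1, s2, s3} : Finset M).card = 3 := by
    rw [Finset.card_insert_of_notMem, Finset.card_insert_of_notMem, Finset.card_singleton]
    · simpa using h23
    · simp [h12, h13]
  constructor
  · rw [← hcard]; exact Finset.card_le_card hsub
  · calc (8 : ℝ) ≤ psi (dist s1 y) + psi (dist s2 y) + psi (dist s3 y) := h8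
      _ = ∑ s ∈ ({s1, s2, s3} : Finset M), psi (dist s y) := by
        rw [Finset.sum_insert, Finset.sum_insert, Finset.sum_singleton]
        · ring
        · simpa using h23
        · simp [h12, h13]
      _ ≤ ∑ s ∈ S, psi (dist s y) :=
        Finset.sum_le_sum_of_subset_of_nonneg hsub (fun _ _ _ => psi_nonneg _)

theorem main7 (hL : Tiling L) (S Y : Finset M) (hS : ∀ x ∈ S, x ∈ L) (hY : ∀ y ∈ Y, y ∉ L)
    (hX : Sep (NewSet L S Y)) : Y = ∅ ∨ Y.card + 2 ≤ S.card := by
  classical
  induction hn : S.card using Nat.strong_induction_on generalizing S Y with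
  | _ n ih =>
  subst hn
  by_cases hYe : Y = ∅
  · exact Or.inl hYe
  right
  obtain ⟨y0, hy0⟩ := Finset.nonempty_iff_ne_empty.2 hYe
  have hS3 := (cov_S hL S Y hY hX y0 hy0).1
  by_cases hq : ∃ s ∈ S, (Y.filter (fun y => dist s y < ea)).card ≤ 1
  · obtain ⟨s, hs, hq⟩ := hq
    have hlt : (S.erase s).card < S.card := Finset.card_erase_lt_of_mem hs
    have hce : (S.erase s).card + 1 = S.card := Finset.card_erase_add_one hs
    -- separation helper
    have hsep : ∀ Y' ⊆ Y, (∀ y ∈ Y', ea ≤ dist s y) → Sep (NewSet L (S.erase s) Y') := by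
      intro Y' hYY hfar
      have hcase : ∀ x ∈ NewSet L (S.erase s) Y', x = s ∨ (x ∈ NewSet L S Y ∧ (x ∈ L ∨ x ∈ Y')) := by
        intro x hx
        rcases hx with hx | hx
        · by_cases hxs : x = s
          · exact Or.inl hxs
          · refine Or.inr ⟨Or.inl ⟨hx.1, ?_⟩, Or.inl hx.1⟩
            intro h
            exact hx.2 (Finset.mem_coe.2 (Finset.mem_erase.2 ⟨hxs, Finset.mem_coe.1 h⟩))
        · have hx' : x ∈ Y' := by simpa using hx
          exact Or.inr ⟨Or.inr (by simpa using hYY hx'), Or.inr hx'⟩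
      have hsx : ∀ x ∈ NewSet L (S.erase s) Y', x ≠ s → ea ≤ dist s x := by
        intro x hx hxs
        rcases hcase x hx with h | ⟨_, h | h⟩
        · exact absurd h hxs
        · exact hL.sep s (hS s hs) x h (Ne.symm hxs)
        · exact hfar x h
      intro x hx y hy hxy
      rcases hcase x hx with h | h
      · rw [h]; exact hsx y hy (fun h' => hxy (h.trans h'.symm))
      · rcases hcase y hy with h' | h'
        · rw [h', dist_comm]; exact hsx x hx (fun h'' => hxy (h''.trans h'.symm))
        · exact hX x h.1 y h'.1 hxy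
    rcases Nat.lt_or_ge (Y.filter (fun y => dist s y < ea)).card 1 with h0 | h1
    · -- no conflict
      have hempty : Y.filter (fun y => dist s y < ea) = ∅ := by
        rw [← Finset.card_eq_zero]; omega
      have hfar : ∀ y ∈ Y, ea ≤ dist s y := by
        intro y hy
        by_contra h
        have : y ∈ Y.filter (fun y => dist s y < ea) := by
          rw [Finset.mem_filter]; exact ⟨hy, not_le.1 h⟩
        rw [hempty] at this
        simp at this
      have := ih (S.erase s).card hlt (S.erase s) Y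
        (fun x hx => hS x (Finset.mem_of_mem_erase hx)) hY (hsep Y (Finset.Subset.refl _) hfar) rfl
      rcases this with h | h
      · exact absurd h hYe
      · omega
    · -- exactly one
      have h1' : (Y.filter (fun y => dist s y < ea)).card = 1 := le_antisymm hq h1
      obtain ⟨z, hz⟩ := Finset.card_eq_one.1 h1'
      have hzY : z ∈ Y := by
        have : z ∈ Y.filter (fun y => dist s y < ea) := by rw [hz]; simp
        exact (Finset.mem_filter.1 this).1
      have hfar : ∀ y ∈ Y.erase z, ea ≤ dist s y := by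
        intro y hy
        by_contra h
        have hyY := Finset.mem_of_mem_erase hy
        have : y ∈ Y.filter (fun y => dist s y < ea) := by
          rw [Finset.mem_filter]; exact ⟨hyY, not_le.1 h⟩
        rw [hz, Finset.mem_singleton] at this
        exact (Finset.ne_of_mem_erase hy) this
      have hYc : (Y.erase z).card + 1 = Y.card := Finset.card_erase_add_one hzY
      have := ih (S.erase s).card hlt (S.erase s) (Y.erase z)
        (fun x hx => hS x (Finset.mem_of_mem_erase hx))
        (fun y hy => hY y (Finset.mem_of_mem_erase hy))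
        (hsep (Y.erase z) (Finset.erase_subset _ _) hfar) rfl
      rcases this with h | h
      · rw [h] at hYc
        simp at hYc
        omega
      · omega
  · push Not at hq
    have hSne : S.Nonempty := Finset.card_pos.1 (by omega)
    -- the subtype version of S
    set S' : Finset {x // x ∈ L} := S.subtype (fun x => x ∈ L) with hS'
    have hmem : ∀ v : {x // x ∈ L}, v ∈ S' ↔ v.1 ∈ S := by
      intro v; rw [hS', Finset.mem_subtype]
    have hLL : ∀ v ∈ S', 3 ≤ ((toTri7 hL).idx S' v).card ∧
        ∑ y ∈ Y, psi (dist v.1 y) ≤ 8 - (4 / 3) * (wt ((toTri7 hL).idx S' v) : ℝ) := by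
      intro v hv
      exact LL hL S Y hS hY hX v ((hmem v).1 hv) (by
        have := hq v.1 ((hmem v).1 hv)
        convert (show 2 ≤ _ from this))
    obtain ⟨s0, hs0⟩ := hSne
    have hS'ne : S'.Nonempty := ⟨⟨s0, hS s0 hs0⟩, (hmem _).2 hs0⟩
    have hcomb := comb (toTri7 hL) (fun v => dist s0 v.1) (fun v => RAD hL s0 v) (by
      intro R
      have := fin_ball (X := L) (fun x hx y hy h => hL.sep x hx y hy h) s0 R
      refine Set.Finite.of_finite_image (f := Subtype.val) (this.subset ?_)
        (Subtype.val_injective.injOn)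
      rintro _ ⟨v, hv, rfl⟩
      refine ⟨v.2, ?_⟩
      rw [Metric.mem_closedBall, dist_comm]
      exact hv) S' hS'ne (fun v hv => (hLL v hv).1)
    have hcard : S'.card = S.card := by
      rw [hS', Finset.card_subtype]
      congr 1
      rw [Finset.filter_eq_self]
      exact hS
    have hsum1 : (8 : ℝ) * Y.card ≤ ∑ y ∈ Y, ∑ s ∈ S, psi (dist s y) := by
      calc (8 : ℝ) * Y.card = ∑ y ∈ Y, (8 : ℝ) := by
            rw [Finset.sum_const, nsmul_eq_mul]; ring
        _ ≤ _ := Finset.sum_le_sum fun y hy => (cov_S hL S Y hY hX y hy).2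
    have hsum2 : ∑ y ∈ Y, ∑ s ∈ S, psi (dist s y) = ∑ v ∈ S', ∑ y ∈ Y, psi (dist v.1 y) := by
      rw [Finset.sum_comm]
      symm
      have := Finset.sum_subtype_of_mem (s := S) (p := fun x => x ∈ L)
        (f := fun s => ∑ y ∈ Y, psi (dist s y)) hS
      rw [← this]
    have hsum3 : ∑ v ∈ S', ∑ y ∈ Y, psi (dist v.1 y) ≤
        ∑ v ∈ S', (8 - (4 / 3) * (wt ((toTri7 hL).idx S' v) : ℝ)) :=
      Finset.sum_le_sum fun v hv => (hLL v hv).2
    have hsum4 : ∑ v ∈ S', (8 - (4 / 3) * (wt ((toTri7 hL).idx S' v) : ℝ)) =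
        8 * S.card - (4 / 3) * ((∑ v ∈ S', wt ((toTri7 hL).idx S' v) : ℤ) : ℝ) := by
      rw [Finset.sum_sub_distrib, Finset.sum_const, nsmul_eq_mul, hcard, ← Finset.mul_sum]
      push_cast
      ring
    have h12 : (12 : ℝ) ≤ ((∑ v ∈ S', wt ((toTri7 hL).idx S' v) : ℤ) : ℝ) := by exact_mod_cast hcomb
    have hfin : (8 : ℝ) * Y.card ≤ 8 * S.card - 16 := by
      rw [hsum4] at hsum3
      linarith
    have : ((Y.card : ℝ) + 2) ≤ S.card := by linarith
    exact_mod_cast this

/-- the form used at the end: deleting one centre and moving finitely many others gives L minus one centre -/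
theorem main7_move (hL : Tiling L) (s : M) (hs : s ∈ L) (g : M → M)
    (hfin : ((L \ {s}) ∩ {c | g c ≠ c}).Finite)
    (hg : ∀ c ∈ L \ {s}, ∀ d ∈ L \ {s}, c ≠ d → ea ≤ dist (g c) (g d)) :
    ∃ t ∈ L, g '' (L \ {s}) = L \ {t} := by
  classical
  set F : Finset M := hfin.toFinset with hF
  have hmF : ∀ c, c ∈ F ↔ (c ∈ L ∧ c ≠ s) ∧ g c ≠ c := by
    intro c
    rw [hF, Set.Finite.mem_toFinset]
    simp
  have hinj : ∀ c ∈ L \ {s}, ∀ d ∈ L \ {s}, g c = g d → c = d := by
    intro c hc d hd h
    by_contra hne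
    have := hg c hc d hd hne
    rw [h, dist_self] at this
    exact absurd this (not_le.2 ea_pos)
  set S1 : Finset M := insert s F with hS1
  have hsF : s ∉ F := by intro h; exact ((hmF s).1 h).1.2 rfl
  set Y1 : Finset M := F.image g with hY1
  have hS1c : S1.card = F.card + 1 := Finset.card_insert_of_notMem hsF
  have hY1c : Y1.card = F.card := by
    rw [hY1]
    apply Finset.card_image_of_injOn
    intro c hc d hd h
    have hc' := (hmF c).1 (by simpa using hc)
    have hd' := (hmF d).1 (by simpa using hd)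
    exact hinj c ⟨hc'.1.1, by simpa using hc'.1.2⟩ d ⟨hd'.1.1, by simpa using hd'.1.2⟩ h
  have hS1L : ∀ x ∈ S1, x ∈ L := by
    intro x hx
    rw [hS1, Finset.mem_insert] at hx
    rcases hx with h | h
    · rw [h]; exact hs
    · exact ((hmF x).1 h).1.1
  have hYL : ∀ y ∈ Y1, y ∈ L → y ∈ S1 := by
    intro y hy hyL
    by_contra hn
    rw [hS1, Finset.mem_insert, not_or] at hn
    have hfix : g y = y := by
      by_contra h
      exact hn.2 ((hmF y).2 ⟨⟨hyL, hn.1⟩, h⟩)
    rw [hY1, Finset.mem_image] at hy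
    obtain ⟨c, hc, hcy⟩ := hy
    have hc' := (hmF c).1 hc
    have := hinj c ⟨hc'.1.1, by simpa using hc'.1.2⟩ y ⟨hyL, by simpa using hn.1⟩ (by rw [hcy, hfix])
    rw [this] at hc
    exact hn.2 hc
  -- the image
  have himg : g '' (L \ {s}) = (L \ (S1 : Set M)) ∪ (Y1 : Set M) := by
    ext x
    constructor
    · rintro ⟨c, hc, rfl⟩
      by_cases h : g c = c
      · by_cases hcF : c ∈ S1
        · exfalso
          rw [hS1, Finset.mem_insert] at hcF
          rcases hcF with h' | h'
          · exact hc.2 (by simpa using h')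
          · exact ((hmF c).1 h').2 h
        · left
          rw [h]
          exact ⟨hc.1, by simpa using hcF⟩
      · right
        rw [hY1]
        have : c ∈ F := (hmF c).2 ⟨⟨hc.1, by simpa using hc.2⟩, h⟩
        simpa using ⟨c, this, rfl⟩
    · rintro (⟨hx, hx'⟩ | hx)
      · have hx'' : x ∉ S1 := by simpa using hx'
        rw [hS1, Finset.mem_insert, not_or] at hx''
        have hfix : g x = x := by
          by_contra h
          exact hx''.2 ((hmF x).2 ⟨⟨hx, hx''.1⟩, h⟩)
        exact ⟨x, ⟨hx, by simpa using hx''.1⟩, hfix⟩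
      · have hx' : x ∈ Y1 := by simpa using hx
        rw [hY1, Finset.mem_image] at hx'
        obtain ⟨c, hc, hcx⟩ := hx'
        have hc' := (hmF c).1 hc
        exact ⟨c, ⟨hc'.1.1, by simpa using hc'.1.2⟩, hcx⟩
  set S : Finset M := S1 \ Y1 with hSd
  set Y : Finset M := Y1 \ S1 with hYd
  have hnew : NewSet L S Y = g '' (L \ {s}) := by
    rw [himg]
    unfold NewSet
    ext x
    simp only [hSd, hYd, Set.mem_union, Set.mem_sdiff, Finset.mem_coe, Finset.mem_sdiff]
    constructor
    · rintro (⟨hx, hx'⟩ | ⟨hx, _⟩)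
      · by_cases h1 : x ∈ S1
        · right
          by_contra h2
          exact hx' ⟨h1, h2⟩
        · exact Or.inl ⟨hx, h1⟩
      · exact Or.inr hx
    · rintro (⟨hx, hx'⟩ | hx)
      · exact Or.inl ⟨hx, fun h => hx' h.1⟩
      · by_cases h1 : x ∈ S1
        · exact Or.inl ⟨hS1L x h1, fun h => h.2 hx⟩
        · exact Or.inr ⟨hx, h1⟩
  have hmain := main7 hL S Y (fun x hx => hS1L x (Finset.mem_sdiff.1 hx).1)
    (fun y hy hyL => (Finset.mem_sdiff.1 hy).2 (hYL y (Finset.mem_sdiff.1 hy).1 hyL)) (by
      rw [hnew]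
      rintro _ ⟨c, hc, rfl⟩ _ ⟨d, hd, rfl⟩ hne
      exact hg c hc d hd (fun h => hne (by rw [h])))
  have hc1 : S.card + (S1 ∩ Y1).card = S1.card := by
    rw [hSd]; exact Finset.card_sdiff_add_card_inter S1 Y1
  have hc2 : Y.card + (Y1 ∩ S1).card = Y1.card := by
    rw [hYd]; exact Finset.card_sdiff_add_card_inter Y1 S1
  rw [Finset.inter_comm] at hc2
  have hYe : Y = ∅ := by
    rcases hmain with h | h
    · exact h
    · omega
  have hSc : S.card = 1 := by
    rw [hYe, Finset.card_empty] at hc2
    omega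
  obtain ⟨t, ht⟩ := Finset.card_eq_one.1 hSc
  refine ⟨t, hS1L t ?_, ?_⟩
  · have : t ∈ S := by rw [ht]; simp
    exact (Finset.mem_sdiff.1 this).1
  · rw [← hnew, ht, hYe]
    unfold NewSet
    simp

end Pool.Agent.H78.SS
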