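import Pool.Agent.H78.SS.Frm
import Pool.Agent.H78.SS.Ind

/-! FINAL: the second conjunct of the frozen statement S08893. -/

set_option autoImplicit false

namespace Pool.Agent.H78.SS

open Real

theorem heptagonal :
  ∀ k ρ : Matrix.SpecialLinearGroup (Fin 2) ℝ, ∀ E D : ℝ,
    D = 1 / (2 * Real.sin (π / 7)) →
    E = Real.cos (π / 7) / (Real.sqrt 3 * Real.sin (π / 7)) +
        Real.sqrt ((Real.cos (π / 7) / (Real.sqrt 3 * Real.sin (π / 7))) ^ 2 - 1) →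
    (k : Matrix (Fin 2) (Fin 2) ℝ) = !![Real.cos (π / 7), -Real.sin (π / 7); Real.sin (π / 7), Real.cos (π / 7)] →
    (ρ : Matrix (Fin 2) (Fin 2) ℝ) = !![1 / 2, -(Real.sqrt 3 / 2) * E; (Real.sqrt 3 / 2) / E, 1 / 2] →
    ∀ S : Set UpperHalfPlane,
      S = {z : UpperHalfPlane | ∃ γ ∈ Subgroup.closure ({k, ρ} : Set (Matrix.SpecialLinearGroup (Fin 2) ℝ)),
            z = γ • UpperHalfPlane.I} →
    ∀ s ∈ S, ∀ g : UpperHalfPlane → UpperHalfPlane, ((S \ {s}) ∩ {c | g c ≠ c}).Finite →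
      (∀ c ∈ S \ {s}, ∀ d ∈ S \ {s}, c ≠ d → 2 * Real.arsinh (Real.sqrt (D ^ 2 - 1)) ≤ dist (g c) (g d)) →
      ∃ φ : UpperHalfPlane ≃ᵢ UpperHalfPlane, φ '' (S \ {s}) = g '' (S \ {s}) := by
  intro k ρ E D hD hE hk hρ S hS s hs g hfin hg
  have h : Gen k ρ := ⟨hk, E, hE, hρ⟩
  have hSO : S = Orbit k ρ := hS
  have hg' : ∀ c ∈ S \ {s}, ∀ d ∈ S \ {s}, c ≠ d → ea ≤ dist (g c) (g d) := by
    intro c hc d hd hcd
    have h1 := hg c hc d hd hcd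
    rw [hD] at h1
    exact h1
  rw [hSO] at hs hfin hg' ⊢
  obtain ⟨t, ht, hgt⟩ := main7_move (orbit_tiling h) s hs g hfin hg'
  obtain ⟨φ, hφ, hφO⟩ := orbit_trans h s t hs ht
  refine ⟨φ, ?_⟩
  rw [hgt, Set.image_sdiff φ.injective, hφO, Set.image_singleton, hφ]

end Pool.Agent.H78.SS
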