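import Pool.Agent.H78.SS.Orb

/-! FRM: the orbit is a Tiling. Frame at I: for z put h1 = (pz z - rz z)/2, h2 = qz z, so that (h1,h2) = sinh (dist I z) (cos a, sin a)
with a = Complex.arg (h1 + i h2); th z = a + pi/7 (rho I has direction -pi/7); nb j = k^j • rho • I (angle j Aa by k_rot);
law from cosh_dist_pqr. Frame at g I (g in the group): th z = th_I (g^-1 z), nb j = g k^j rho I. sep: by orb_gap and dist_smul_eq. -/

set_option autoImplicit false

namespace Pool.Agent.H78.SS

open Real UpperHalfPlane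

variable {k ρ : Matrix.SpecialLinearGroup (Fin 2) ℝ}

/-- the orbit of I -/
def Orbit (k ρ : Matrix.SpecialLinearGroup (Fin 2) ℝ) : Set ℍ :=
  {z | ∃ g ∈ Subgroup.closure ({k, ρ} : Set (Matrix.SpecialLinearGroup (Fin 2) ℝ)),
    z = g • UpperHalfPlane.I}

/-- the complex coordinate `sinh (dist I z) e^{i angle}` -/
private noncomputable def frmC (z : ℍ) : ℂ := ⟨(pz z - rz z) / 2, qz z⟩

private theorem frm_cosh (z : ℍ) : Real.cosh (dist UpperHalfPlane.I z) = (pz z + rz z) / 2 := by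
  obtain ⟨h1, h2, h3⟩ := pqr_I
  rw [cosh_dist_pqr, h1, h2, h3]
  ring

private theorem frm_sinh (z : ℍ) : Real.sinh (dist UpperHalfPlane.I z) = ‖frmC z‖ := by
  have h0 : 0 ≤ Real.sinh (dist UpperHalfPlane.I z) := Real.sinh_nonneg_iff.2 dist_nonneg
  have h1 : Real.sinh (dist UpperHalfPlane.I z) ^ 2 = ‖frmC z‖ ^ 2 := by
    rw [Real.sinh_sq, frm_cosh, Complex.sq_norm, Complex.normSq_apply]
    have := pqr_rel z
    simp only [frmC]
    nlinarith
  exact (sq_eq_sq₀ h0 (norm_nonneg _)).1 h1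

private theorem frm_law (z w : ℍ) : Real.cosh (dist z w) =
    Real.cosh (dist UpperHalfPlane.I z) * Real.cosh (dist UpperHalfPlane.I w)
      - Real.sinh (dist UpperHalfPlane.I z) * Real.sinh (dist UpperHalfPlane.I w) *
        Real.cos ((Complex.arg (frmC z) + π / 7) - (Complex.arg (frmC w) + π / 7)) := by
  have h1 : (Complex.arg (frmC z) + π / 7) - (Complex.arg (frmC w) + π / 7)
      = Complex.arg (frmC z) - Complex.arg (frmC w) := by ring
  rw [h1, Real.cos_sub, frm_sinh, frm_sinh, frm_cosh, frm_cosh, cosh_dist_pqr]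
  have e1 := Complex.norm_mul_cos_arg (frmC z)
  have e2 := Complex.norm_mul_sin_arg (frmC z)
  have e3 := Complex.norm_mul_cos_arg (frmC w)
  have e4 := Complex.norm_mul_sin_arg (frmC w)
  have e5 : ‖frmC z‖ * ‖frmC w‖ * (Real.cos (Complex.arg (frmC z)) * Real.cos (Complex.arg (frmC w))
      + Real.sin (Complex.arg (frmC z)) * Real.sin (Complex.arg (frmC w)))
      = (frmC z).re * (frmC w).re + (frmC z).im * (frmC w).im := by
    rw [← e1, ← e2, ← e3, ← e4]
    ring
  rw [e5]
  simp only [frmC]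
  ring

private theorem frm_rot (h : Gen k ρ) (z : ℍ) :
    frmC (k • z) = Complex.exp (Aa * Complex.I) * frmC z := by
  obtain ⟨-, h2, h3⟩ := k_rot h z
  rw [Complex.exp_mul_I]
  apply Complex.ext
  · simp only [frmC, Complex.mul_re, Complex.add_re, Complex.add_im, Complex.mul_im, Complex.I_re,
      Complex.I_im, ← Complex.ofReal_cos, ← Complex.ofReal_sin, Complex.ofReal_re, Complex.ofReal_im]
    rw [h2]
    ring
  · simp only [frmC, Complex.mul_re, Complex.add_re, Complex.add_im, Complex.mul_im, Complex.I_re,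
      Complex.I_im, ← Complex.ofReal_cos, ← Complex.ofReal_sin, Complex.ofReal_re, Complex.ofReal_im]
    rw [h3]
    ring

private theorem frm_rot_zpow (h : Gen k ρ) (j : ℤ) (z : ℍ) :
    frmC (k ^ j • z) = Complex.exp ((j * Aa : ℝ) * Complex.I) * frmC z := by
  induction j using Int.induction_on with
  | zero => simp
  | succ n ih =>
    have e1 : k ^ ((n : ℤ) + 1) • z = k • (k ^ (n : ℤ) • z) := by
      rw [add_comm, zpow_one_add, mul_smul]
    rw [e1, frm_rot h, ih, ← mul_assoc, ← Complex.exp_add]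
    congr 2
    push_cast
    ring
  | pred n ih =>
    have e1 : k ^ (-(n : ℤ)) • z = k • (k ^ (-(n : ℤ) - 1) • z) := by
      rw [← mul_smul, ← zpow_one_add]
      congr 2
      ring
    rw [e1, frm_rot h] at ih
    have e2 : Complex.exp ((Aa : ℂ) * Complex.I) ≠ 0 := Complex.exp_ne_zero _
    have e3 : frmC (k ^ (-(n : ℤ) - 1) • z)
        = Complex.exp (-((Aa : ℂ) * Complex.I)) * (Complex.exp ((Aa : ℂ) * Complex.I)
          * frmC (k ^ (-(n : ℤ) - 1) • z)) := by
      rw [← mul_assoc, ← Complex.exp_add, neg_add_cancel, Complex.exp_zero, one_mul]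
    rw [e3, ih, ← mul_assoc, ← Complex.exp_add]
    congr 2
    push_cast
    ring

private theorem frm_rho (h : Gen k ρ) :
    frmC (ρ • UpperHalfPlane.I) = (Sc : ℂ) * Complex.exp ((-(π / 7) : ℝ) * Complex.I) := by
  obtain ⟨h1, h2, h3⟩ := rho_I h
  rw [Complex.exp_mul_I]
  apply Complex.ext
  · simp only [frmC, Complex.mul_re, Complex.add_re, Complex.add_im, Complex.mul_im, Complex.I_re,
      Complex.I_im, ← Complex.ofReal_cos, ← Complex.ofReal_sin, Complex.ofReal_re, Complex.ofReal_im]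
    rw [h1, h3, Real.cos_neg, Real.sin_neg]
    ring
  · simp only [frmC, Complex.mul_re, Complex.add_re, Complex.add_im, Complex.mul_im, Complex.I_re,
      Complex.I_im, ← Complex.ofReal_cos, ← Complex.ofReal_sin, Complex.ofReal_re, Complex.ofReal_im]
    rw [h2, Real.cos_neg, Real.sin_neg]
    ring

private theorem frm_nb (h : Gen k ρ) (j : ℤ) : frmC (k ^ j • ρ • UpperHalfPlane.I)
    = (Sc : ℂ) * Complex.exp ((j * Aa - π / 7 : ℝ) * Complex.I) := by
  rw [frm_rot_zpow h, frm_rho h, mul_left_comm, ← Complex.exp_add]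
  congr 2
  push_cast
  ring

private theorem frm_arg (x : ℝ) (hS : 0 < Sc) :
    ∃ n : ℤ, Complex.arg ((Sc : ℂ) * Complex.exp ((x : ℝ) * Complex.I)) = x + n * (2 * π) := by
  rw [Complex.arg_real_mul _ hS, Complex.arg_exp_mul_I]
  refine ⟨-toIocDiv (mul_pos two_pos Real.pi_pos) (-π) x, ?_⟩
  have h1 := toIocMod_add_toIocDiv_zsmul (mul_pos two_pos Real.pi_pos) (-π) x
  rw [zsmul_eq_mul] at h1
  push_cast
  linarith

theorem base_frame (h : Gen k ρ) : Nonempty (Frame (Orbit k ρ) (UpperHalfPlane.I : ℍ)) := by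
  have hkI : ∀ j : ℤ, k ^ j • UpperHalfPlane.I = UpperHalfPlane.I := by
    intro j
    have h1 : k ∈ MulAction.stabilizer (Matrix.SpecialLinearGroup (Fin 2) ℝ) UpperHalfPlane.I :=
      k_I h
    exact Subgroup.zpow_mem _ h1 j
  refine ⟨{ th := fun z => Complex.arg (frmC z) + π / 7
            nb := fun j => k ^ j • ρ • UpperHalfPlane.I
            law := frm_law
            nb_mem := ?_
            nb_dist := ?_
            nb_per := ?_
            nb_th := ?_ }⟩
  · intro j
    refine ⟨k ^ j * ρ, ?_, by rw [mul_smul]⟩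
    exact Subgroup.mul_mem _ (Subgroup.zpow_mem _ (Subgroup.subset_closure (by simp)) _)
      (Subgroup.subset_closure (by simp))
  · intro j
    have e1 : dist UpperHalfPlane.I (k ^ j • ρ • UpperHalfPlane.I)
        = dist UpperHalfPlane.I (ρ • UpperHalfPlane.I) := by
      have e0 := dist_smul_eq (k ^ j) UpperHalfPlane.I (ρ • UpperHalfPlane.I)
      rw [hkI j] at e0
      exact e0
    rw [e1]
    have e2 : Real.cosh (dist UpperHalfPlane.I (ρ • UpperHalfPlane.I)) = Real.cosh ea := by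
      rw [frm_cosh]
      obtain ⟨h1, h2, h3⟩ := rho_I h
      rw [h1, h3]
      unfold Cc
      ring
    exact Real.cosh_injOn (Set.mem_Ici.2 dist_nonneg) (Set.mem_Ici.2 ea_pos.le) e2
  · intro j
    rw [zpow_add, mul_smul]
    congr 1
    exact k_pow_seven h _
  · intro j
    obtain ⟨n, hn⟩ := frm_arg (j * Aa - π / 7) Sc_pos
    refine ⟨n, ?_⟩
    rw [frm_nb h, hn]
    ring

private noncomputable def frmIso (g : Matrix.SpecialLinearGroup (Fin 2) ℝ) : ℍ ≃ᵢ ℍ where
  toFun z := g • z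
  invFun z := g⁻¹ • z
  left_inv z := by simp
  right_inv z := by simp
  isometry_toFun := Isometry.of_dist_eq (dist_smul_eq g)

theorem orbit_tiling (h : Gen k ρ) : Tiling (Orbit k ρ) := by
  refine ⟨⟨UpperHalfPlane.I, 1, Subgroup.one_mem _, by simp⟩, ?_, ?_⟩
  · rintro s ⟨g, hg, rfl⟩ t ⟨g', hg', rfl⟩ hst
    have e1 : dist (g • UpperHalfPlane.I) (g' • UpperHalfPlane.I)
        = dist UpperHalfPlane.I ((g⁻¹ * g') • UpperHalfPlane.I) := by
      rw [← dist_smul_eq g⁻¹, ← mul_smul, ← mul_smul, inv_mul_cancel, one_smul]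
    rw [e1]
    rcases orb_gap h (g⁻¹ * g') (Subgroup.mul_mem _ (Subgroup.inv_mem _ hg) hg') with h1 | h1
    · exfalso
      apply hst
      conv_lhs => rw [← h1]
      rw [← mul_smul, mul_inv_cancel_left]
    · exact h1
  · rintro s ⟨g, hg, rfl⟩
    obtain ⟨F⟩ := base_frame h
    refine ⟨{ th := fun z => F.th (g⁻¹ • z)
              nb := fun j => g • F.nb j
              law := ?_
              nb_mem := ?_
              nb_dist := ?_
              nb_per := ?_
              nb_th := ?_ }⟩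
    · intro z w
      have := F.law (g⁻¹ • z) (g⁻¹ • w)
      have e1 : ∀ z, dist UpperHalfPlane.I (g⁻¹ • z) = dist (g • UpperHalfPlane.I) z := by
        intro z
        rw [← dist_smul_eq g, ← mul_smul, mul_inv_cancel, one_smul]
      rw [dist_smul_eq, e1, e1] at this
      exact this
    · intro j
      obtain ⟨g', hg', h1⟩ := F.nb_mem j
      exact ⟨g * g', Subgroup.mul_mem _ hg hg', by rw [h1, mul_smul]⟩
    · intro j
      rw [dist_smul_eq]
      exact F.nb_dist j
    · intro j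
      rw [F.nb_per j]
    · intro j
      rw [← mul_smul, inv_mul_cancel, one_smul]
      exact F.nb_th j

private theorem frm_image (g : Matrix.SpecialLinearGroup (Fin 2) ℝ)
    (hg : g ∈ Subgroup.closure ({k, ρ} : Set (Matrix.SpecialLinearGroup (Fin 2) ℝ))) :
    frmIso g '' (Orbit k ρ) = Orbit k ρ := by
  ext z
  constructor
  · rintro ⟨w, ⟨g', hg', rfl⟩, rfl⟩
    exact ⟨g * g', Subgroup.mul_mem _ hg hg', by rw [mul_smul]; rfl⟩
  · rintro ⟨g', hg', rfl⟩
    refine ⟨(g⁻¹ * g') • UpperHalfPlane.I,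
      ⟨g⁻¹ * g', Subgroup.mul_mem _ (Subgroup.inv_mem _ hg) hg', rfl⟩, ?_⟩
    change g • ((g⁻¹ * g') • UpperHalfPlane.I) = g' • UpperHalfPlane.I
    rw [← mul_smul, mul_inv_cancel_left]

/-- transitivity by isometries preserving the orbit -/
theorem orbit_trans (h : Gen k ρ) (s t : ℍ) (hs : s ∈ Orbit k ρ) (ht : t ∈ Orbit k ρ) :
    ∃ φ : ℍ ≃ᵢ ℍ, φ s = t ∧ φ '' (Orbit k ρ) = Orbit k ρ := by
  obtain ⟨g, hg, rfl⟩ := hs
  obtain ⟨g', hg', rfl⟩ := ht
  refine ⟨frmIso (g' * g⁻¹), ?_, frm_image _ (Subgroup.mul_mem _ hg' (Subgroup.inv_mem _ hg))⟩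
  change (g' * g⁻¹) • (g • UpperHalfPlane.I) = g' • UpperHalfPlane.I
  rw [← mul_smul, inv_mul_cancel_right]

end Pool.Agent.H78.SS
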