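import Pool.Agent.H78.SS.Th1

/-! GAP: sorting the points of P by angle around s, starting from p0. al i = angle of e i relative to p0, in [0, 2 pi).
Distinct points have different angles and consecutive gaps are at least Th by Th_gap (also the last gap 2 pi - al (N-1),
e N = p0, al N = 2 pi).  Use toIcoMod (or Int.fract) for the representatives and Finset.orderEmbOfFin / sort. -/

set_option autoImplicit false

namespace Pool.Agent.H78.SS

open Real

/-- two points at distances r, q in (0, ea] in the same direction are at distance less than ea -/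
theorem gap_aux (r q d : ℝ) (hr : 0 < r) (hr' : r ≤ ea) (hq : 0 < q) (hq' : q ≤ ea) (hd : ea ≤ d)
    (hlaw : Real.cosh d = Real.cosh r * Real.cosh q - Real.sinh r * Real.sinh q * 1) : False := by
  have h1 : Real.cosh d = Real.cosh (r - q) := by
    rw [Real.cosh_sub, hlaw]; ring
  have h2 : |d| = |r - q| := by
    have h3 := Real.cosh_le_cosh (x := d) (y := r - q)
    have h4 := Real.cosh_le_cosh (x := r - q) (y := d)
    exact le_antisymm (h3.1 h1.le) (h4.1 h1.ge)
  have h5 : |r - q| < ea := by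
    rw [abs_lt]; constructor <;> linarith
  have h6 : d ≤ |d| := le_abs_self d
  linarith

theorem gap_sort {M : Type*} [MetricSpace M] {s : M} (th : M → ℝ)
    (law : ∀ z w : M, Real.cosh (dist z w) =
      Real.cosh (dist s z) * Real.cosh (dist s w)
        - Real.sinh (dist s z) * Real.sinh (dist s w) * Real.cos (th z - th w))
    (P : Finset M) (hP : ∀ p ∈ P, 0 < dist s p ∧ dist s p ≤ ea)
    (hsep : ∀ p ∈ P, ∀ q ∈ P, p ≠ q → ea ≤ dist p q) (hcard : 2 ≤ P.card)
    (p0 : M) (hp0 : p0 ∈ P) :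
    ∃ (e : ℕ → M) (al : ℕ → ℝ), e 0 = p0 ∧ e P.card = p0 ∧ (∀ i, i < P.card → e i ∈ P) ∧
      (∀ i j, i < P.card → j < P.card → e i = e j → i = j) ∧
      (∀ p ∈ P, ∃ i, i < P.card ∧ e i = p) ∧
      al 0 = 0 ∧ al P.card = 2 * π ∧
      (∀ i, i < P.card → 0 ≤ al i ∧ al i < 2 * π ∧
        ∃ n : ℤ, th (e i) - th p0 = al i + n * (2 * π)) ∧
      (∀ i, i < P.card → Th (dist s (e i)) (dist s (e (i + 1))) ≤ al (i + 1) - al i) := by
  classical
  have h2pi : (0:ℝ) < 2 * π := by positivity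
  obtain ⟨f, hf⟩ : ∃ f : M → ℝ, f = fun p => toIcoMod h2pi 0 (th p - th p0) := ⟨_, rfl⟩
  have hf0 : ∀ p, 0 ≤ f p := fun p => by
    rw [hf]; exact (toIcoMod_mem_Ico' h2pi (th p - th p0)).1
  have hf1 : ∀ p, f p < 2 * π := fun p => by
    rw [hf]; exact (toIcoMod_mem_Ico' h2pi (th p - th p0)).2
  have hfn : ∀ p, ∃ n : ℤ, th p - th p0 = f p + n * (2 * π) := fun p => by
    refine ⟨toIcoDiv h2pi 0 (th p - th p0), ?_⟩
    have h := toIcoMod_add_toIcoDiv_zsmul h2pi 0 (th p - th p0)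
    rw [zsmul_eq_mul] at h
    rw [hf]
    exact h.symm
  have hfp0 : f p0 = 0 := by
    rw [hf]
    simp
  have hcos : ∀ p q, Real.cos (th p - th q) = Real.cos (f q - f p) := fun p q => by
    obtain ⟨n, hn⟩ := hfn p
    obtain ⟨m, hm⟩ := hfn q
    have h1 : th p - th q = (f p - f q) + ((n - m : ℤ) : ℝ) * (2 * π) := by
      push_cast
      linarith
    rw [h1, Real.cos_add_int_mul_two_pi, ← Real.cos_neg]
    congr 1
    ring
  have hgap : ∀ p ∈ P, ∀ q ∈ P, p ≠ q → f p ≤ f q →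
      Th (dist s p) (dist s q) ≤ f q - f p ∧ Th (dist s p) (dist s q) ≤ 2 * π - (f q - f p) := by
    intro p hp q hq hpq hle
    apply Th_gap (dist s p) (dist s q) (dist p q) (f q - f p) (hP p hp).1 (hP q hq).1
      (hsep p hp q hq hpq)
    · rw [law p q, hcos p q]
    · linarith
    · linarith [hf0 p, hf1 q]
  have hinj : ∀ p ∈ P, ∀ q ∈ P, f p = f q → p = q := by
    intro p hp q hq hpq
    by_contra hne
    apply gap_aux (dist s p) (dist s q) (dist p q) (hP p hp).1 (hP p hp).2 (hP q hq).1 (hP q hq).2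
      (hsep p hp q hq hne)
    rw [law p q, hcos p q, hpq, sub_self, Real.cos_zero]
  obtain ⟨N, hN⟩ : ∃ N, P.card = N := ⟨_, rfl⟩
  have hQ : (P.image f).card = N := by
    rw [Finset.card_image_of_injOn, hN]
    intro p hp q hq h
    exact hinj p hp q hq h
  have hN2 : 2 ≤ N := hN ▸ hcard
  -- the sorted list
  obtain ⟨σ, hσ⟩ : ∃ σ : Fin N ↪o ℝ, σ = (P.image f).orderEmbOfFin hQ := ⟨_, rfl⟩
  have hσmem : ∀ i, ∃ p ∈ P, f p = σ i := by
    intro i
    have h := (P.image f).orderEmbOfFin_mem hQ i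
    rw [← hσ, Finset.mem_image] at h
    exact h
  have hσsurj : ∀ p ∈ P, ∃ i, σ i = f p := by
    intro p hp
    have h : f p ∈ Set.range ((P.image f).orderEmbOfFin hQ) := by
      rw [Finset.range_orderEmbOfFin]
      exact Finset.mem_coe.2 (Finset.mem_image_of_mem f hp)
    rw [← hσ] at h
    exact h
  choose g hgP hgf using hσmem
  have hσ0 : ∀ i, 0 ≤ σ i := fun i => by rw [← hgf i]; exact hf0 _
  have hσ1 : ∀ i, σ i < 2 * π := fun i => by rw [← hgf i]; exact hf1 _
  have hzero : σ ⟨0, by omega⟩ = 0 := by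
    obtain ⟨i, hi⟩ := hσsurj p0 hp0
    have h1 : σ ⟨0, by omega⟩ ≤ σ i := σ.monotone (by
      rw [Fin.le_def]; exact Nat.zero_le _)
    rw [hi, hfp0] at h1
    exact le_antisymm h1 (hσ0 _)
  have hg0 : g ⟨0, by omega⟩ = p0 := by
    apply hinj _ (hgP _) _ hp0
    rw [hgf, hzero, hfp0]
  have hginj : ∀ i j, g i = g j → i = j := by
    intro i j h
    apply σ.injective
    rw [← hgf i, ← hgf j, h]
  rw [hN]
  refine ⟨fun i => if h : i < N then g ⟨i, h⟩ else p0, fun i => if h : i < N then σ ⟨i, h⟩ else 2 * π,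
    ?_, ?_, ?_, ?_, ?_, ?_, ?_, ?_, ?_⟩
  · have h0 : 0 < N := by omega
    simp only [dif_pos h0]
    exact hg0
  · simp
  · intro i hi
    simp only [dif_pos hi]
    exact hgP _
  · intro i j hi hj h
    simp only [dif_pos hi, dif_pos hj] at h
    have := hginj _ _ h
    exact Fin.mk.inj_iff.1 this
  · intro p hp
    obtain ⟨i, hi⟩ := hσsurj p hp
    refine ⟨i.1, i.2, ?_⟩
    simp only [dif_pos i.2]
    apply hinj _ (hgP _) _ hp
    rw [hgf]
    exact hi
  · have h0 : 0 < N := by omega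
    simp only [dif_pos h0]
    exact hzero
  · simp
  · intro i hi
    simp only [dif_pos hi]
    refine ⟨hσ0 _, hσ1 _, ?_⟩
    obtain ⟨n, hn⟩ := hfn (g ⟨i, hi⟩)
    refine ⟨n, ?_⟩
    rw [hn, hgf]
  · intro i hi
    simp only [dif_pos hi]
    by_cases hi1 : i + 1 < N
    · simp only [dif_pos hi1]
      have hlt : σ ⟨i, hi⟩ < σ ⟨i + 1, hi1⟩ := σ.strictMono (by
        rw [Fin.lt_def]; exact Nat.lt_succ_self i)
      have hne : g ⟨i, hi⟩ ≠ g ⟨i + 1, hi1⟩ := fun h => by
        have h' := hginj _ _ h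
        rw [Fin.mk.inj_iff] at h'
        omega
      have := (hgap _ (hgP ⟨i, hi⟩) _ (hgP ⟨i + 1, hi1⟩) hne (by rw [hgf, hgf]; exact hlt.le)).1
      rw [hgf, hgf] at this
      exact this
    · simp only [dif_neg hi1]
      have hne : p0 ≠ g ⟨i, hi⟩ := fun h => by
        rw [← hg0] at h
        have h' := hginj _ _ h
        rw [Fin.mk.inj_iff] at h'
        omega
      have := (hgap _ hp0 _ (hgP ⟨i, hi⟩) hne (by rw [hfp0]; exact hf0 _)).2
      rw [hgf, hfp0, sub_zero, Th_symm] at this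
      exact this

end Pool.Agent.H78.SS
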