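import Pool.Agent.H78.SS.Num

/-! HYP: the hyperboloid coordinates p = |z|^2/Im z, q = Re z/Im z, r = 1/Im z on the upper half plane. -/

set_option autoImplicit false

namespace Pool.Agent.H78.SS

open Real UpperHalfPlane

noncomputable def pz (z : ℍ) : ℝ := (z.re ^ 2 + z.im ^ 2) / z.im
noncomputable def qz (z : ℍ) : ℝ := z.re / z.im
noncomputable def rz (z : ℍ) : ℝ := 1 / z.im

theorem cosh_dist_pqr (z w : ℍ) :
    Real.cosh (dist z w) = (pz z * rz w + rz z * pz w - 2 * qz z * qz w) / 2 := by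
  have hz := z.im_pos.ne'
  have hw := w.im_pos.ne'
  rw [UpperHalfPlane.cosh_dist']
  unfold pz qz rz
  field_simp
  ring

theorem pqr_rel (z : ℍ) : pz z * rz z - qz z ^ 2 = 1 := by
  have hz := z.im_pos.ne'
  unfold pz qz rz
  field_simp
  ring

theorem pqr_ext (z w : ℍ) (hp : pz z = pz w) (hq : qz z = qz w) (hr : rz z = rz w) : z = w := by
  have hz := z.im_pos.ne'
  have hw := w.im_pos.ne'
  have him : z.im = w.im := by
    unfold rz at hr
    field_simp at hr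
    linarith
  have hre : z.re = w.re := by
    unfold qz at hq
    rw [him] at hq
    field_simp at hq
    linarith
  apply UpperHalfPlane.ext
  exact Complex.ext hre him

theorem pqr_I : pz UpperHalfPlane.I = 1 ∧ qz UpperHalfPlane.I = 0 ∧ rz UpperHalfPlane.I = 1 := by
  unfold pz qz rz
  simp

variable (g : Matrix.SpecialLinearGroup (Fin 2) ℝ)

theorem Hyp_det : g 0 0 * g 1 1 - g 0 1 * g 1 0 = 1 := by
  have := g.det_coe
  rw [Matrix.det_fin_two] at this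
  exact this

theorem Hyp_N_pos (z : ℍ) : 0 < (g 1 0 * z.re + g 1 1) ^ 2 + (g 1 0 * z.im) ^ 2 := by
  have hz := z.im_pos
  have hd := Hyp_det g
  by_cases hc : g 1 0 = 0
  · have h1 : g 1 1 ≠ 0 := by
      intro h
      rw [hc, h] at hd
      simp at hd
    rw [hc]
    have : 0 < g 1 1 ^ 2 := by positivity
    simpa using this
  · have : 0 < (g 1 0 * z.im) ^ 2 := by positivity
    nlinarith [sq_nonneg (g 1 0 * z.re + g 1 1)]

theorem Hyp_re_im (z : ℍ) :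
    (g • z).re = ((g 0 0 * z.re + g 0 1) * (g 1 0 * z.re + g 1 1) + g 0 0 * g 1 0 * z.im ^ 2) /
      ((g 1 0 * z.re + g 1 1) ^ 2 + (g 1 0 * z.im) ^ 2) ∧
    (g • z).im = z.im / ((g 1 0 * z.re + g 1 1) ^ 2 + (g 1 0 * z.im) ^ 2) := by
  have hN := (Hyp_N_pos g z).ne'
  have hd := Hyp_det g
  have h := UpperHalfPlane.coe_specialLinearGroup_apply g z
  simp only [Algebra.algebraMap_self, RingHom.id_apply] at h
  have hnum : ((g 0 0 : ℝ) : ℂ) * (z : ℂ) + ((g 0 1 : ℝ) : ℂ) = ⟨g 0 0 * z.re + g 0 1, g 0 0 * z.im⟩ := by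
    apply Complex.ext <;> simp
  have hden : ((g 1 0 : ℝ) : ℂ) * (z : ℂ) + ((g 1 1 : ℝ) : ℂ) = ⟨g 1 0 * z.re + g 1 1, g 1 0 * z.im⟩ := by
    apply Complex.ext <;> simp
  rw [hnum, hden] at h
  have hre : (g • z).re = (((g • z : ℍ) : ℂ)).re := rfl
  have him : (g • z).im = (((g • z : ℍ) : ℂ)).im := rfl
  have hns : Complex.normSq ⟨g 1 0 * z.re + g 1 1, g 1 0 * z.im⟩ =
      (g 1 0 * z.re + g 1 1) ^ 2 + (g 1 0 * z.im) ^ 2 := by
    rw [Complex.normSq_mk]
    ring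
  constructor
  · rw [hre, h, Complex.div_re, hns]
    rw [← add_div]
    congr 1
    simp only
    ring
  · rw [him, h, Complex.div_im, hns]
    rw [← sub_div]
    congr 1
    simp only
    linear_combination (z.im) * hd

theorem Hyp_aux1 (X N M y : ℝ) (hN : N ≠ 0) (hy : y ≠ 0) (h : X ^ 2 + y ^ 2 = M * N) :
    ((X / N) ^ 2 + (y / N) ^ 2) / (y / N) = M / y := by
  field_simp
  linear_combination h

theorem Hyp_aux2 (X N y : ℝ) (hN : N ≠ 0) (hy : y ≠ 0) : (X / N) / (y / N) = X / y := by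
  field_simp

theorem Hyp_aux3 (N y : ℝ) : 1 / (y / N) = N / y := one_div_div y N

theorem pz_smul (z : ℍ) : pz (g • z) = g 0 0 ^ 2 * pz z + 2 * g 0 0 * g 0 1 * qz z + g 0 1 ^ 2 * rz z := by
  have hN := (Hyp_N_pos g z).ne'
  have hz := z.im_pos.ne'
  have hd := Hyp_det g
  obtain ⟨h1, h2⟩ := Hyp_re_im g z
  unfold pz qz rz
  rw [h1, h2, Hyp_aux1 _ _ ((g 0 0 * z.re + g 0 1) ^ 2 + (g 0 0 * z.im) ^ 2) _ hN hz]
  · field_simp
    ring
  · linear_combination (-(z.im ^ 2) * (g 0 0 * g 1 1 - g 0 1 * g 1 0 + 1)) * hd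

theorem qz_smul (z : ℍ) : qz (g • z) = g 0 0 * g 1 0 * pz z + (g 0 0 * g 1 1 + g 0 1 * g 1 0) * qz z
    + g 0 1 * g 1 1 * rz z := by
  have hN := (Hyp_N_pos g z).ne'
  have hz := z.im_pos.ne'
  obtain ⟨h1, h2⟩ := Hyp_re_im g z
  unfold pz qz rz
  rw [h1, h2, Hyp_aux2 _ _ _ hN hz]
  field_simp
  ring

theorem rz_smul (z : ℍ) : rz (g • z) = g 1 0 ^ 2 * pz z + 2 * g 1 0 * g 1 1 * qz z + g 1 1 ^ 2 * rz z := by
  have hz := z.im_pos.ne'
  obtain ⟨h1, h2⟩ := Hyp_re_im g z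
  unfold pz qz rz
  rw [h2, Hyp_aux3]
  field_simp
  ring

theorem dist_smul_eq (z w : ℍ) : dist (g • z) (g • w) = dist z w :=
  dist_smul g z w

end Pool.Agent.H78.SS
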