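import Pool.Agent.H78.SS.Num

/-! KITE: the covering inequality on the Voronoi kite of a triangle, 9 r + 7 (d2 + d3) <= 14 ea.
Notation D(t, f) = arcosh (Cc cosh t - Sc sinh t cos f).
(1) convexity (arcosh_convex): t -> arcosh (al cosh t + be sinh t) is convex when al > 0 and al^2 - be^2 >= 1; so along the ray from
    the site the function f(t) = 9 t + 7 D(t,phi) + 7 D(t, Aa - phi) is at most max (f 0) (f rm), f 0 = 14 ea, where rm >= r is given by
    tanh rm * cos phi = tanh (ea/2) = (Cc-1)/Sc   (the bisector; the hypothesis hn says tanh r * cos phi <= (Cc-1)/Sc, if r > 0).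
(2) on the bisector put h >= 0 with sinh h = sinh rm * sin phi; then cosh rm = cosh (ea/2) cosh h, D(rm,phi) = rm and
    D(rm, Aa - phi) = H - h where cosh H = Cc / cosh (ea/2), sinh H = Sc sin Aa (H = 0.90190), and phi <= Aa/2 gives h <= 0.2819.
    So f rm = 16 rm + 7 (H - h) <= 14 ea follows from cosh (ea/2) cosh h <= cosh ((14 ea - 7 H + 7 h)/16):
    right side >= 1.1606 + 0.2577 h, left side <= 1.1525 (1 + 0.51 h^2) for 0 <= h <= 0.29. -/

set_option autoImplicit false

namespace Pool.Agent.H78.SS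

open Real

/-- convexity along a geodesic in chord form: d0, dT, dt are the distances from a fixed point to the points at parameter 0, T, t -/
theorem dist_convex (al be T t d0 dT dt : ℝ) (hal : 0 < al) (hab : 1 ≤ al ^ 2 - be ^ 2) (hT : 0 < T)
    (ht0 : 0 ≤ t) (htT : t ≤ T) (h0 : 0 ≤ d0) (hT' : 0 ≤ dT) (ht' : 0 ≤ dt) (e0 : Real.cosh d0 = al)
    (eT : Real.cosh dT = al * Real.cosh T + be * Real.sinh T)
    (et : Real.cosh dt = al * Real.cosh t + be * Real.sinh t) :
    dt ≤ (1 - t / T) * d0 + (t / T) * dT := by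
  have hsT : 0 < Real.sinh T := Real.sinh_pos_iff.2 hT
  -- the other vertex of the chord
  have hbe : be ^ 2 ≤ Real.sinh d0 ^ 2 := by
    have := Real.cosh_sq d0
    rw [e0] at this
    nlinarith
  have hs0 : 0 ≤ Real.sinh d0 := Real.sinh_nonneg_iff.2 h0
  have hbe' : |be| ≤ Real.sinh d0 := abs_le_of_sq_le_sq hbe hs0
  obtain ⟨hb1, hb2⟩ := abs_le.1 hbe'
  have hd1 : dT ≤ d0 + T := by
    have h : Real.cosh dT ≤ Real.cosh (d0 + T) := by
      rw [eT, Real.cosh_add, ← e0]
      nlinarith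
    have h2 := Real.cosh_le_cosh.1 h
    rwa [abs_of_nonneg hT', abs_of_nonneg (by linarith)] at h2
  have hd2 : |d0 - T| ≤ dT := by
    have h : Real.cosh (d0 - T) ≤ Real.cosh dT := by
      rw [eT, Real.cosh_sub, ← e0]
      nlinarith
    have h2 := Real.cosh_le_cosh.1 h
    rwa [abs_of_nonneg hT'] at h2
  obtain ⟨hd3, hd4⟩ := abs_le.1 hd2
  set k : ℝ := (dT - d0) / T with hk
  have hkT : k * T = dT - d0 := by rw [hk]; field_simp
  have hk1 : |k| ≤ 1 := by
    rw [hk, abs_div, abs_of_pos hT, div_le_one hT, abs_le]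
    constructor <;> linarith
  have hk2 : |-k| ≤ 1 := by rwa [abs_neg]
  set c : ℝ := d0 + k * t with hc
  have hcm : (1 - t / T) * d0 + (t / T) * dT = c := by
    rw [hc]
    have : dT = k * T + d0 := by linarith
    rw [this]; field_simp; ring
  rw [hcm]
  have hc0 : 0 ≤ c := by
    rw [← hcm]
    have h1 : t / T ≤ 1 := (div_le_one hT).2 htT
    have h2 : 0 ≤ t / T := div_nonneg ht0 hT.le
    nlinarith [mul_nonneg (sub_nonneg.2 h1) h0, mul_nonneg h2 hT']
  -- compare the values of cosh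
  have key : Real.cosh dt ≤ Real.cosh c := by
    obtain ⟨q, hq⟩ : ∃ q, q = T - t := ⟨_, rfl⟩
    have hTq : T = t + q := by linarith
    have hq0 : 0 ≤ q := by linarith
    have hst : 0 ≤ Real.sinh t := Real.sinh_nonneg_iff.2 ht0
    have hsq : 0 ≤ Real.sinh q := Real.sinh_nonneg_iff.2 hq0
    have hF : Real.sinh T * Real.cosh dt = Real.cosh d0 * Real.sinh q + Real.cosh dT * Real.sinh t := by
      rw [et, eT, e0, hTq, Real.sinh_add, Real.cosh_add]
      have hct := Real.cosh_sq t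
      ring_nf
      rw [show Real.cosh t ^ 2 = Real.sinh t ^ 2 + 1 from hct]
      ring
    have hd0 : d0 = c - k * t := by rw [hc]; ring
    have hdT : dT = c + k * q := by
      rw [hc]; have := hkT; rw [hTq] at this; linarith
    have hG : Real.cosh d0 * Real.sinh q + Real.cosh dT * Real.sinh t ≤ Real.sinh T * Real.cosh c := by
      have e1 := Real.exp_mul_le_cosh_add_mul_sinh hk1 q
      have e2 := Real.exp_mul_le_cosh_add_mul_sinh hk2 t
      have e3 := Real.exp_mul_le_cosh_add_mul_sinh hk2 q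
      have e4 := Real.exp_mul_le_cosh_add_mul_sinh hk1 t
      have f1 : Real.sinh t * Real.exp (k * q) + Real.sinh q * Real.exp (-k * t) ≤ Real.sinh T := by
        rw [hTq, Real.sinh_add]
        have a1 := mul_le_mul_of_nonneg_left e1 hst
        have a2 := mul_le_mul_of_nonneg_left e2 hsq
        linarith
      have f2 : Real.sinh t * Real.exp (-k * q) + Real.sinh q * Real.exp (k * t) ≤ Real.sinh T := by
        rw [hTq, Real.sinh_add]
        have a1 := mul_le_mul_of_nonneg_left e3 hst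
        have a2 := mul_le_mul_of_nonneg_left e4 hsq
        linarith
      have g1 : Real.cosh d0 = (Real.exp c * Real.exp (-k * t) + Real.exp (-c) * Real.exp (k * t)) / 2 := by
        rw [hd0, Real.cosh_eq, ← Real.exp_add, ← Real.exp_add]
        ring_nf
      have g2 : Real.cosh dT = (Real.exp c * Real.exp (k * q) + Real.exp (-c) * Real.exp (-k * q)) / 2 := by
        rw [hdT, Real.cosh_eq, ← Real.exp_add, ← Real.exp_add]
        ring_nf
      rw [g1, g2, Real.cosh_eq c]
      have a1 := mul_le_mul_of_nonneg_left f1 (Real.exp_pos c).le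
      have a2 := mul_le_mul_of_nonneg_left f2 (Real.exp_pos (-c)).le
      linarith
    have : Real.sinh T * Real.cosh dt ≤ Real.sinh T * Real.cosh c := by rw [hF]; exact hG
    exact le_of_mul_le_mul_left this hsT
  have h3 := Real.cosh_le_cosh.1 key
  rwa [abs_of_nonneg ht', abs_of_nonneg hc0] at h3

theorem kite_le_of_sq {a b : ℝ} (hb : 0 ≤ b) (h : a ^ 2 ≤ b ^ 2) : a ≤ b :=
  le_of_abs_le (abs_le_of_sq_le_sq h hb)

set_option maxHeartbeats 2000000 in
theorem kite (r phi d2 d3 : ℝ) (hr : 0 ≤ r) (hp : 0 ≤ phi) (hp' : phi ≤ Aa / 2)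
    (hn : Real.cosh r ≤ Cc * Real.cosh r - Sc * Real.sinh r * Real.cos phi)
    (h2 : 0 ≤ d2) (h3 : 0 ≤ d3)
    (e2 : Real.cosh d2 = Cc * Real.cosh r - Sc * Real.sinh r * Real.cos phi)
    (e3 : Real.cosh d3 = Cc * Real.cosh r - Sc * Real.sinh r * Real.cos (Aa - phi)) :
    9 * r + 7 * (d2 + d3) ≤ 14 * ea := by
  obtain ⟨hC1, hC2⟩ := Cc_bounds
  obtain ⟨hA1, hA2⟩ := Aa_bounds
  obtain ⟨hcA1, hcA2⟩ := cosAa_bounds
  obtain ⟨he1, he2⟩ := ea_bounds
  have hea := ea_pos
  have hS := Sc_pos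
  have hSq := Sc_sq
  have hcosh : Real.cosh ea = Cc := rfl
  have hpi := Real.pi_gt_three
  rcases hr.eq_or_lt with h0 | hr0
  · subst h0
    simp only [Real.cosh_zero, Real.sinh_zero, mul_one, mul_zero, zero_mul, sub_zero] at e2 e3
    have q2 : d2 = ea := by
      have h := Real.cosh_le_cosh.1 (le_of_eq (e2.trans hcosh.symm))
      have h' := Real.cosh_le_cosh.1 (le_of_eq (e2.trans hcosh.symm).symm)
      rw [abs_of_nonneg h2, abs_of_nonneg hea.le] at h
      rw [abs_of_nonneg h2, abs_of_nonneg hea.le] at h'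
      exact le_antisymm h h'
    have q3 : d3 = ea := by
      have h := Real.cosh_le_cosh.1 (le_of_eq (e3.trans hcosh.symm))
      have h' := Real.cosh_le_cosh.1 (le_of_eq (e3.trans hcosh.symm).symm)
      rw [abs_of_nonneg h3, abs_of_nonneg hea.le] at h
      rw [abs_of_nonneg h3, abs_of_nonneg hea.le] at h'
      exact le_antisymm h h'
    rw [q2, q3]; linarith
  -- the cosine of phi
  have hphi : phi ≤ π / 2 := by linarith
  have hcp : Real.cos (Aa / 2) ≤ Real.cos phi :=
    Real.cos_le_cos_of_nonneg_of_le_pi hp (by linarith) hp'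
  have hch : Real.cos Aa = 2 * Real.cos (Aa / 2) ^ 2 - 1 := by
    rw [← Real.cos_two_mul]; ring_nf
  have hch0 : 0 < Real.cos (Aa / 2) := Real.cos_pos_of_mem_Ioo ⟨by linarith, by linarith⟩
  have hc0 : 0 < Real.cos phi := lt_of_lt_of_le hch0 hcp
  have hc2 : 0.81174 ≤ Real.cos phi ^ 2 := by nlinarith
  have hs2 : Real.sin phi ^ 2 ≤ 0.18826 := by
    have := Real.sin_sq_add_cos_sq phi; linarith
  have hs0 : 0 ≤ Real.sin phi := Real.sin_nonneg_of_nonneg_of_le_pi hp (by linarith)
  -- the point of the bisector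
  obtain ⟨k, hk⟩ : ∃ k, k = (Cc - 1) / (Sc * Real.cos phi) := ⟨_, rfl⟩
  have hkk : k * (Sc * Real.cos phi) = Cc - 1 := by
    rw [hk]; field_simp
  have hk0 : 0 < k := by rw [hk]; apply div_pos <;> [linarith; positivity]
  have hk2 : k ^ 2 * (Cc + 1) * Real.cos phi ^ 2 = Cc - 1 := by
    have h1 : k ^ 2 * (Sc ^ 2 * Real.cos phi ^ 2) = (Cc - 1) ^ 2 := by rw [← hkk]; ring
    rw [hSq] at h1
    have h2 : (Cc - 1) * (k ^ 2 * (Cc + 1) * Real.cos phi ^ 2) = (Cc - 1) * (Cc - 1) := by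
      linarith
    exact mul_left_cancel₀ (by linarith) h2
  have hk3 : k ^ 2 ≤ 0.305 := by
    by_contra hcon
    push Not at hcon
    have h1 : 0.305 * 0.81174 ≤ k ^ 2 * Real.cos phi ^ 2 :=
      mul_le_mul hcon.le hc2 (by norm_num) (by positivity)
    have h2 : 2.6559 * (0.305 * 0.81174) ≤ (Cc + 1) * (k ^ 2 * Real.cos phi ^ 2) :=
      mul_le_mul (by linarith) h1 (by norm_num) (by linarith)
    have h3 : (Cc + 1) * (k ^ 2 * Real.cos phi ^ 2) = Cc - 1 := by rw [← hk2]; ring
    norm_num at h2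
    linarith
  obtain ⟨w, hw⟩ : ∃ w, w = Real.sqrt (1 - k ^ 2) := ⟨_, rfl⟩
  have hw2 : w ^ 2 = 1 - k ^ 2 := by rw [hw]; exact Real.sq_sqrt (by linarith)
  have hw0 : 0 < w := by rw [hw]; exact Real.sqrt_pos.2 (by linarith)
  obtain ⟨rm, hrm⟩ : ∃ rm, rm = Real.arsinh (k / w) := ⟨_, rfl⟩
  have hsr : Real.sinh rm = k / w := by rw [hrm]; exact Real.sinh_arsinh _
  have hcr : Real.cosh rm = 1 / w := by
    rw [hrm, Real.cosh_arsinh]
    have : 1 + (k / w) ^ 2 = (1 / w) ^ 2 := by
      field_simp; linarith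
    rw [this]; exact Real.sqrt_sq (by positivity)
  have hsrk : Real.sinh rm = k * Real.cosh rm := by rw [hsr, hcr]; ring
  have hrm0 : 0 < rm := Real.sinh_pos_iff.1 (by rw [hsr]; positivity)
  have hcr0 : 0 < Real.cosh rm := Real.cosh_pos _
  have hrle : r ≤ rm := by
    have h1 : Real.sinh r ≤ k * Real.cosh r := by
      have h2 : Sc * Real.cos phi * Real.sinh r ≤ Sc * Real.cos phi * (k * Real.cosh r) := by
        have : Sc * Real.cos phi * (k * Real.cosh r) = (Cc - 1) * Real.cosh r := by rw [← hkk]; ring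
        rw [this]; linarith
      exact le_of_mul_le_mul_left h2 (by positivity)
    have h2 : Real.sinh (r - rm) ≤ 0 := by
      rw [Real.sinh_sub, hsrk]
      have := mul_le_mul_of_nonneg_right h1 hcr0.le
      linarith
    have := Real.sinh_nonpos_iff.1 h2
    linarith
  have hperp : Sc * Real.cos phi * Real.sinh rm = (Cc - 1) * Real.cosh rm := by
    rw [hsrk, ← hkk]; ring
  -- the angular part: h and H
  obtain ⟨h, hh⟩ : ∃ h, h = Real.arsinh (Real.sinh rm * Real.sin phi) := ⟨_, rfl⟩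
  obtain ⟨H, hH⟩ : ∃ H, H = Real.arsinh (Sc * Real.sin Aa) := ⟨_, rfl⟩
  have hshh : Real.sinh h = Real.sinh rm * Real.sin phi := by rw [hh]; exact Real.sinh_arsinh _
  have hsH : Real.sinh H = Sc * Real.sin Aa := by rw [hH]; exact Real.sinh_arsinh _
  have hsr0 : 0 < Real.sinh rm := Real.sinh_pos_iff.2 hrm0
  have hh0 : 0 ≤ h := Real.sinh_nonneg_iff.1 (by rw [hshh]; positivity)
  have hsinA : 0 < Real.sin Aa := Real.sin_pos_of_pos_of_lt_pi (by linarith) (by linarith)
  have hH0 : 0 < H := Real.sinh_pos_iff.1 (by rw [hsH]; positivity)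
  have hcA : Real.cos Aa * (Cc + 1) = Cc := by
    rw [cosAa_eq]; field_simp
  -- squares of cosh h, cosh H
  have hchh : (Cc + 1) * Real.cosh h ^ 2 = 2 * Real.cosh rm ^ 2 := by
    rw [Real.cosh_sq h, hshh, mul_pow, Real.sin_sq]
    have h1 : Real.cosh rm ^ 2 = Real.sinh rm ^ 2 + 1 := Real.cosh_sq rm
    have h2 : (Cc + 1) * (Real.sinh rm ^ 2 * Real.cos phi ^ 2) = (Cc - 1) * Real.cosh rm ^ 2 := by
      rw [hsrk]
      have : (Cc + 1) * ((k * Real.cosh rm) ^ 2 * Real.cos phi ^ 2)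
          = (k ^ 2 * (Cc + 1) * Real.cos phi ^ 2) * Real.cosh rm ^ 2 := by ring
      rw [this, hk2]
    have h3 : (Cc + 1) * (Real.sinh rm ^ 2 * (1 - Real.cos phi ^ 2) + 1)
        = (Cc + 1) * (Real.sinh rm ^ 2 + 1) - (Cc + 1) * (Real.sinh rm ^ 2 * Real.cos phi ^ 2) := by ring
    rw [h3, h2, ← h1]; ring
  have hchH : (Cc + 1) * Real.cosh H ^ 2 = 2 * Cc ^ 2 := by
    rw [Real.cosh_sq H, hsH, mul_pow, Real.sin_sq, hSq]
    have : (Cc + 1) * ((Cc ^ 2 - 1) * (1 - Real.cos Aa ^ 2) + 1)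
        = (Cc + 1) * Cc ^ 2 - (Cc - 1) * (Real.cos Aa * (Cc + 1)) ^ 2 := by ring
    rw [this, hcA]; ring
  obtain ⟨m, hm⟩ : ∃ m, m = Real.sqrt ((Cc + 1) / 2) := ⟨_, rfl⟩
  have hm2 : m ^ 2 = (Cc + 1) / 2 := by rw [hm]; exact Real.sq_sqrt (by linarith)
  have hm0 : 0 < m := by rw [hm]; exact Real.sqrt_pos.2 (by linarith)
  have hmu : m ≤ 1.1525 := by
    apply kite_le_of_sq (by norm_num)
    rw [hm2]; norm_num; linarith
  have hcrm : Real.cosh rm = m * Real.cosh h := by
    have h1 : Real.cosh rm ^ 2 = (m * Real.cosh h) ^ 2 := by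
      rw [mul_pow, hm2]; linarith
    have h2 : 0 < m * Real.cosh h := mul_pos hm0 (Real.cosh_pos _)
    exact (sq_eq_sq₀ hcr0.le h2.le).1 h1
  have hcH : m * Real.cosh H = Cc := by
    have h1 : (m * Real.cosh H) ^ 2 = Cc ^ 2 := by
      rw [mul_pow, hm2]; linarith
    have h2 : 0 < m * Real.cosh H := mul_pos hm0 (Real.cosh_pos _)
    exact (sq_eq_sq₀ h2.le (by linarith)).1 h1
  -- numerical bounds for h and H
  have hsh3 : Real.sinh h ≤ 0.3 := by
    have h1 : Real.sinh rm ^ 2 ≤ 0.44 := by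
      rw [hsr, div_pow, hw2, div_le_iff₀ (by linarith)]
      linarith
    have h2 : Real.sinh h ^ 2 ≤ 0.44 * 0.18826 := by
      rw [hshh, mul_pow]
      exact mul_le_mul h1 hs2 (by positivity) (by norm_num)
    apply kite_le_of_sq (by norm_num)
    refine h2.trans ?_
    norm_num
  have hh3 : h ≤ 0.3 := (Real.self_le_sinh_iff.2 hh0).trans hsh3
  have hH1 : H ≤ 0.915 := by
    by_contra hcon
    push Not at hcon
    have h1 : 0.22875 ≤ Real.sinh (H / 4) := by
      have := Real.self_le_sinh_iff.2 (show (0:ℝ) ≤ H / 4 by linarith)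
      linarith
    have h2 : Real.cosh (H / 2) = 2 * Real.sinh (H / 4) ^ 2 + 1 := by
      have e : H / 2 = 2 * (H / 4) := by ring
      rw [e, Real.cosh_two_mul, Real.cosh_sq]; ring
    have h3 : Real.cosh H = 2 * Real.cosh (H / 2) ^ 2 - 1 := by
      have e : H = 2 * (H / 2) := by ring
      conv_lhs => rw [e]
      rw [Real.cosh_two_mul, Real.sinh_sq]; ring
    have h4 : 1.1046 ≤ Real.cosh (H / 2) := by
      have := pow_le_pow_left₀ (by norm_num) h1 2
      norm_num at this
      rw [h2]; linarith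
    have h5 : 1.4402 ≤ Real.cosh H := by
      have := pow_le_pow_left₀ (by norm_num) h4 2
      norm_num at this
      rw [h3]; linarith
    have h6 := pow_le_pow_left₀ (by norm_num) h5 2
    norm_num at h6
    have h7 : Cc ^ 2 ≤ 1.656 * Cc := by rw [pow_two]; exact mul_le_mul_of_nonneg_right hC2.le (by linarith)
    have h8 := mul_le_mul_of_nonneg_left h6 (show (0:ℝ) ≤ Cc + 1 by linarith)
    linarith
  have hH2 : 0.5 ≤ H := by
    by_contra hcon
    push Not at hcon
    have h1 : Real.cosh H ≤ Real.cosh 0.5 := by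
      rw [Real.cosh_le_cosh, abs_of_pos hH0, abs_of_pos (by norm_num)]; exact hcon.le
    have h2 : Real.cosh 0.5 ≤ 1.2 := by
      refine (Real.cosh_le_exp_half_sq _).trans ?_
      have e : ((0.5:ℝ) ^ 2 / 2) = 0.125 := by norm_num
      rw [e]
      have h3 := Real.abs_exp_sub_one_sub_id_le (x := (0.125:ℝ)) (by rw [abs_of_pos] <;> norm_num)
      have h4 := (abs_le.1 h3).2
      norm_num at h4 ⊢
      linarith
    have h3 := h1.trans h2
    have h6 := pow_le_pow_left₀ (Real.cosh_pos H).le h3 2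
    have h7 : 1.6559 * Cc ≤ Cc ^ 2 := by rw [pow_two]; exact mul_le_mul_of_nonneg_right hC1.le (by linarith)
    have h8 := mul_le_mul_of_nonneg_left h6 (show (0:ℝ) ≤ Cc + 1 by linarith)
    linarith
  -- distances at the end of the ray
  have hD3 : Real.cosh (H - h) = Cc * Real.cosh rm + (-(Sc * Real.cos (Aa - phi))) * Real.sinh rm := by
    rw [Real.cosh_sub, hshh, hsH, Real.cos_sub]
    have h1 : Sc * (Real.cos Aa * Real.cos phi + Real.sin Aa * Real.sin phi) * Real.sinh rm
        = Real.cos Aa * (Sc * Real.cos phi * Real.sinh rm) + Sc * Real.sin Aa * (Real.sinh rm * Real.sin phi) := by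
      ring
    have h2 : Real.cosh H * Real.cosh h = Cc * Real.cosh rm - Real.cos Aa * ((Cc - 1) * Real.cosh rm) := by
      have h3 : m ^ 2 * (Real.cosh H * Real.cosh h) = Cc * Real.cosh rm := by
        rw [hcrm, ← hcH]; ring
      rw [hm2] at h3
      have h4 : (Cc + 1) * (Real.cosh H * Real.cosh h)
          = (Cc + 1) * (Cc * Real.cosh rm - Real.cos Aa * ((Cc - 1) * Real.cosh rm)) := by
        have h5 : (Cc + 1) * (Cc * Real.cosh rm - Real.cos Aa * ((Cc - 1) * Real.cosh rm))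
          = (Cc + 1) * (Cc * Real.cosh rm) - (Real.cos Aa * (Cc + 1)) * ((Cc - 1) * Real.cosh rm) := by ring
        rw [h5, hcA]; linarith
      exact mul_left_cancel₀ (by linarith) h4
    rw [h2]
    have h6 : (-(Sc * (Real.cos Aa * Real.cos phi + Real.sin Aa * Real.sin phi))) * Real.sinh rm
        = -(Real.cos Aa * (Sc * Real.cos phi * Real.sinh rm) + Sc * Real.sin Aa * (Real.sinh rm * Real.sin phi)) := by
      rw [← h1]; ring
    rw [h6, hperp]; ring
  have hD2 : Real.cosh rm = Cc * Real.cosh rm + (-(Sc * Real.cos phi)) * Real.sinh rm := by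
    have : (-(Sc * Real.cos phi)) * Real.sinh rm = -(Sc * Real.cos phi * Real.sinh rm) := by ring
    rw [this, hperp]; ring
  have hcosle : ∀ x : ℝ, 1 ≤ Cc ^ 2 - (-(Sc * Real.cos x)) ^ 2 := by
    intro x
    have h1 : Real.cos x ^ 2 ≤ 1 := Real.cos_sq_le_one x
    have h2 : (-(Sc * Real.cos x)) ^ 2 = Sc ^ 2 * Real.cos x ^ 2 := by ring
    rw [h2, hSq]
    have h3 : (Cc ^ 2 - 1) * Real.cos x ^ 2 ≤ (Cc ^ 2 - 1) * 1 := by
      apply mul_le_mul_of_nonneg_left h1
      rw [← hSq]; positivity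
    linarith
  have b2 := dist_convex Cc (-(Sc * Real.cos phi)) rm r ea rm d2 (by linarith) (hcosle phi) hrm0 hr0.le hrle
    hea.le hrm0.le h2 rfl hD2 (by rw [e2]; ring)
  have b3 := dist_convex Cc (-(Sc * Real.cos (Aa - phi))) rm r ea (H - h) d3 (by linarith) (hcosle _) hrm0
    hr0.le hrle hea.le (by linarith) h3 rfl hD3 (by rw [e3]; ring)
  -- the value at the end of the ray
  have hfin : 16 * rm + 7 * (H - h) ≤ 14 * ea := by
    obtain ⟨x, hx⟩ : ∃ x, x = (14 * ea - 7 * H + 7 * h) / 16 := ⟨_, rfl⟩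
    have hx1 : 0.5538 + 0.4375 * h ≤ x := by rw [hx]; linarith
    have hx0 : 0 ≤ x := by linarith
    have hc1 : Real.cosh h ≤ 1 + 0.5225 * h ^ 2 := by
      refine (Real.cosh_le_exp_half_sq _).trans ?_
      have hh9 : h ^ 2 ≤ 0.09 := by
        have := pow_le_pow_left₀ hh0 hh3 2
        norm_num at this
        linarith
      have h3 := Real.abs_exp_sub_one_sub_id_le (x := h ^ 2 / 2) (by
        rw [abs_of_nonneg (by positivity)]; linarith)
      have h4 := (abs_le.1 h3).2
      have h5 : h ^ 2 * h ^ 2 ≤ 0.09 * h ^ 2 := mul_le_mul_of_nonneg_right hh9 (sq_nonneg h)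
      have h6 : (h ^ 2 / 2) ^ 2 = h ^ 2 * h ^ 2 / 4 := by ring
      rw [h6] at h4
      linarith
    have hc2 : 1 + x ^ 2 / 2 ≤ Real.cosh x := by
      have h1 : x / 2 ≤ Real.sinh (x / 2) := Real.self_le_sinh_iff.2 (by linarith)
      have h2 : Real.cosh x = 2 * Real.sinh (x / 2) ^ 2 + 1 := by
        have e : x = 2 * (x / 2) := by ring
        conv_lhs => rw [e]
        rw [Real.cosh_two_mul, Real.cosh_sq]; ring
      rw [h2]
      have h3 := pow_le_pow_left₀ (show (0:ℝ) ≤ x / 2 by linarith) h1 2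
      linarith
    have hc3 : Real.cosh rm ≤ Real.cosh x := by
      rw [hcrm]
      refine le_trans ?_ hc2
      have h1 : m * Real.cosh h ≤ 1.1525 * (1 + 0.5225 * h ^ 2) :=
        mul_le_mul hmu hc1 (Real.cosh_pos _).le (by norm_num)
      have h2 : (0.5538 + 0.4375 * h) ^ 2 ≤ x ^ 2 := by
        apply pow_le_pow_left₀ _ hx1
        linarith
      have h3 : h * h ≤ 0.3 * h := mul_le_mul_of_nonneg_right hh3 hh0
      have h4 : h ^ 2 = h * h := pow_two h
      rw [h4] at h1
      have h5 : (0.5538 + 0.4375 * h) ^ 2 = 0.30669444 + 0.484575 * h + 0.19140625 * (h * h) := by ring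
      rw [h5] at h2
      linarith
    have h5 := Real.cosh_le_cosh.1 hc3
    rw [abs_of_nonneg hrm0.le, abs_of_nonneg hx0] at h5
    rw [hx] at h5
    linarith
  obtain ⟨l, hl⟩ : ∃ l, l = r / rm := ⟨_, rfl⟩
  have hl1 : l * rm = r := by rw [hl]; field_simp
  have hl0 : 0 ≤ l := by rw [hl]; positivity
  rw [← hl] at b2 b3
  have hmul := mul_le_mul_of_nonneg_left hfin hl0
  have : 9 * r = l * (9 * rm) := by rw [← hl1]; ring
  rw [this]
  linarith

end Pool.Agent.H78.SS
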