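import Pool.Agent.H78.SS.Nbr

/-! TRI: the combinatorial structure Tri7 on the sites. Adjacent = at distance ea (lemma adj_iff). -/

set_option autoImplicit false

namespace Pool.Agent.H78.SS

open Real

variable {M : Type*} [MetricSpace M] {L : Set M}

/-- a chosen frame at every site -/
noncomputable def fr (hL : Tiling L) (v : {x // x ∈ L}) : Frame L v.1 :=
  Classical.choice (hL.frame v.1 v.2)

/-- neighbour number i of v -/
noncomputable def nbr (hL : Tiling L) (v : {x // x ∈ L}) (i : ZMod 7) : {x // x ∈ L} :=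
  ⟨(fr hL v).nb (i.val : ℤ), (fr hL v).nb_mem _⟩

theorem tri_val_eq : ∀ i j : ZMod 7, (7 : ℤ) ∣ ((i.val : ℕ) : ℤ) - ((j.val : ℕ) : ℤ) ↔ i = j := by
  decide

theorem tri_val_adj : ∀ i j : ZMod 7, ((7 : ℤ) ∣ ((i.val : ℕ) : ℤ) - ((j.val : ℕ) : ℤ) - 1 ∨
    (7 : ℤ) ∣ ((j.val : ℕ) : ℤ) - ((i.val : ℕ) : ℤ) - 1) ↔ (j = i + 1 ∨ i = j + 1) := by
  decide

theorem nbr_inj (hL : Tiling L) (v : {x // x ∈ L}) : Function.Injective (nbr hL v) := by
  intro i j h
  have h1 : (fr hL v).nb (i.val : ℤ) = (fr hL v).nb (j.val : ℤ) := congrArg Subtype.val h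
  exact (tri_val_eq i j).1 ((nb_eq_iff (fr hL v) _ _).1 h1)

theorem nbr_irr (hL : Tiling L) (v : {x // x ∈ L}) (i : ZMod 7) : nbr hL v i ≠ v := by
  intro h
  exact nb_ne (fr hL v) _ (congrArg Subtype.val h)

/-- the sites at distance ea are the neighbours -/
theorem nbr_iff (hL : Tiling L) (v w : {x // x ∈ L}) :
    dist v.1 w.1 = ea ↔ ∃ i, nbr hL v i = w := by
  constructor
  · intro h
    obtain ⟨i, h0, h7, hi⟩ := nb_all hL (fr hL v) w.1 w.2 h
    refine ⟨((i.toNat : ℕ) : ZMod 7), ?_⟩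
    apply Subtype.ext
    have hv : (((i.toNat : ℕ) : ZMod 7).val : ℤ) = i := by
      rw [ZMod.val_natCast, Nat.mod_eq_of_lt (by omega)]
      omega
    change (fr hL v).nb ((((i.toNat : ℕ) : ZMod 7).val : ℕ) : ℤ) = w.1
    rw [hv, hi]
  · rintro ⟨i, rfl⟩
    exact (fr hL v).nb_dist _

theorem nbr_symm (hL : Tiling L) (v : {x // x ∈ L}) (i : ZMod 7) :
    ∃ j, nbr hL (nbr hL v i) j = v := by
  refine (nbr_iff hL _ _).1 ?_
  rw [dist_comm]
  exact (fr hL v).nb_dist _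

theorem nbr_adj (hL : Tiling L) (v : {x // x ∈ L}) (i j : ZMod 7) :
    (∃ k, nbr hL (nbr hL v i) k = nbr hL v j) ↔ (j = i + 1 ∨ i = j + 1) := by
  rw [← nbr_iff hL, ← tri_val_adj i j]
  exact nb_adj (fr hL v) _ _

/-- the structure -/
noncomputable def toTri7 (hL : Tiling L) : Tri7 {x // x ∈ L} where
  nb := nbr hL
  inj := nbr_inj hL
  irr := nbr_irr hL
  symm := nbr_symm hL
  adj := nbr_adj hL

end Pool.Agent.H78.SS
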