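import Pool.Agent.H78.SS.Lls
import Pool.Agent.H78.SS.Tri
import Pool.Agent.H78.SS.RI

/-! LL: the local lemma at a site v of S with at least two conflicting points.
K = {y in Y | dist v y < ea} (k elements), F = the neighbours of v that are not in S (f = 7 - d elements, at distance exactly ea).
P = F ∪ K satisfies the hypotheses of LLsum, LL4, LL5 (for two points of P: both in NewSet L S Y; dist v y > 0 as y not in L).
LLsum: f + k + 1.46 sum_K w <= 7, all w > 0 (k >= 2), so N = f + k <= 6.  Pairs of K: w + w' <= 1 (triangle inequality).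
 k = 2: sum ps <= 8 (ps_pair); k = 3: <= 10.5 (ps_triple); N = 6: 1.46 sum w <= 1, so sum ps <= 16/3 (ps_sum_one);
 N = 5: 1.46 sum w <= 2, so sum ps <= 32/3 (ps_sum_two); f = 0, k = 4: LL4 + ps_four: <= 32/3;
 f = 2, k = 3, the two elements of F adjacent: LL5 + ps_five: <= 28/3 (the two missing indices are i, i+1, so th differs by Aa).
Table: d <= 3: f >= 4, k = 2, N = 6 (so d = 3), 16/3 = 8 - (4/3) 2.  d = 4: k = 2 or N = 6: <= 8.
 d = 5 (wt -1: 28/3, wt -2: 32/3): k = 2, k = 3 (adjacent: LL5; else 10.5), k = 4 (N = 6).  d = 6, 7 (32/3): k = 2,3, N = 5, N = 6, LL4.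
The sum over Y of psi equals the sum over K (psi = 0 outside: ps w = 0 for w <= 0). -/

set_option autoImplicit false

namespace Pool.Agent.H78.SS

open Real

variable {M : Type*} [MetricSpace M] {L : Set M}

theorem wt_facts (I : Finset (ZMod 7)) : wt I ≤ 2 ∧ (4 ≤ I.card → wt I ≤ 0) ∧
    (5 ≤ I.card → wt I = -2 ∨ (wt I = -1 ∧ I.card = 5 ∧ ∃ i, i ∉ I ∧ i + 1 ∉ I)) ∧
    (6 ≤ I.card → wt I = -2) := by
  unfold wt
  split_ifs with h1 h2 h3
  · refine ⟨le_refl _, fun h => by omega, fun h => by omega, fun h => by omega⟩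
  · refine ⟨by norm_num, fun _ => le_refl _, fun h => by omega, fun h => by omega⟩
  · refine ⟨by norm_num, fun _ => by norm_num, fun _ => Or.inr ⟨rfl, h3.1, h3.2⟩, fun h => by omega⟩
  · exact ⟨by norm_num, fun _ => by norm_num, fun _ => Or.inl rfl, fun _ => rfl⟩

theorem mem_idx_LL {V : Type*} (G : Tri7 V) (T : Finset V) (v : V) (i : ZMod 7) :
    i ∈ G.idx T v ↔ G.nb v i ∈ T := by
  unfold Tri7.idx
  simp

open Classical in
omit [MetricSpace M] in
theorem sum_image_fin {n : ℕ} (K : Finset M) (e : Fin n → M) (he : Function.Injective e)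
    (hK : ∀ i, e i ∈ K) (hc : K.card = n) (f : M → ℝ) : ∑ y ∈ K, f y = ∑ i, f (e i) := by
  have : K = Finset.univ.image e := by
    symm
    apply Finset.eq_of_subset_of_card_le
    · intro x hx
      rw [Finset.mem_image] at hx
      obtain ⟨i, _, rfl⟩ := hx
      exact hK i
    · rw [Finset.card_image_of_injective _ he, hc]
      simp
  rw [this, Finset.sum_image (fun i _ j _ h => he h)]

open Classical in
theorem LL (hL : Tiling L) (S Y : Finset M) (hS : ∀ x ∈ S, x ∈ L) (hY : ∀ y ∈ Y, y ∉ L)
    (hX : Sep (NewSet L S Y)) (v : {x // x ∈ L}) (hv : v.1 ∈ S)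
    (hq : 2 ≤ (Y.filter (fun y => dist v.1 y < ea)).card) :
    3 ≤ ((toTri7 hL).idx (S.subtype (fun x => x ∈ L)) v).card ∧
      ∑ y ∈ Y, psi (dist v.1 y) ≤
        8 - (4 / 3) * (wt ((toTri7 hL).idx (S.subtype (fun x => x ∈ L)) v) : ℝ) := by
  set I := (toTri7 hL).idx (S.subtype (fun x => x ∈ L)) v with hI
  have hmI : ∀ i, i ∈ I ↔ (nbr hL v i).1 ∈ S := by
    intro i
    rw [hI, mem_idx_LL, Finset.mem_subtype]
    rfl
  have hea := ea_pos
  set K := Y.filter (fun y => dist v.1 y < ea) with hK
  have hmK : ∀ y, y ∈ K ↔ y ∈ Y ∧ dist v.1 y < ea := by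
    intro y; rw [hK, Finset.mem_filter]
  set J : Finset (ZMod 7) := Finset.univ.filter (fun i => i ∉ I) with hJ
  have hJc : J.card + I.card = 7 := by
    have h1 : J = Finset.univ \ I := by
      ext i; simp [hJ]
    rw [h1, Finset.card_sdiff_add_card_eq_card (Finset.subset_univ _)]
    rfl
  set Fx : Finset M := J.image (fun i => (nbr hL v i).1) with hFx
  have hinj : Function.Injective (fun i : ZMod 7 => (nbr hL v i).1) := by
    intro i j h
    exact nbr_inj hL v (Subtype.ext h)
  have hFc : Fx.card = J.card := Finset.card_image_of_injective _ hinj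
  have hmF : ∀ x, x ∈ Fx ↔ ∃ i, i ∉ I ∧ (nbr hL v i).1 = x := by
    intro x; rw [hFx, Finset.mem_image]; simp [hJ]
  have hdF : ∀ x ∈ Fx, dist v.1 x = ea := by
    intro x hx
    obtain ⟨i, _, rfl⟩ := (hmF x).1 hx
    exact (nbr_iff hL v _).2 ⟨i, rfl⟩
  have hFL : ∀ x ∈ Fx, x ∈ L ∧ x ∉ S := by
    intro x hx
    obtain ⟨i, hi, rfl⟩ := (hmF x).1 hx
    exact ⟨(nbr hL v i).2, fun h => hi ((hmI i).2 h)⟩
  have hdisj : Disjoint Fx K := by
    rw [Finset.disjoint_left]
    intro x hx hx'
    exact hY x ((hmK x).1 hx').1 (hFL x hx).1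
  set P := Fx ∪ K with hP
  have hPc : P.card = Fx.card + K.card := Finset.card_union_of_disjoint hdisj
  have hPN : ∀ p ∈ P, p ∈ NewSet L S Y := by
    intro p hp
    rw [hP, Finset.mem_union] at hp
    rcases hp with h | h
    · exact Or.inl ⟨(hFL p h).1, by simpa using (hFL p h).2⟩
    · exact Or.inr (by simpa using ((hmK p).1 h).1)
  have hsep : ∀ p ∈ P, ∀ q ∈ P, p ≠ q → ea ≤ dist p q := fun p hp q hq' h =>
    hX p (hPN p hp) q (hPN q hq') h
  have hPd : ∀ p ∈ P, 0 < dist v.1 p ∧ dist v.1 p ≤ ea := by
    intro p hp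
    rw [hP, Finset.mem_union] at hp
    rcases hp with h | h
    · rw [hdF p h]; exact ⟨hea, le_refl _⟩
    · refine ⟨?_, ((hmK p).1 h).2.le⟩
      rw [dist_pos]
      intro h'
      exact hY p ((hmK p).1 h).1 (h' ▸ v.2)
  set W : M → ℝ := fun y => 1 - dist v.1 y / ea with hW
  have hWK : ∀ y ∈ K, 0 < W y := by
    intro y hy
    have := ((hmK y).1 hy).2
    simp only [hW]
    have : dist v.1 y / ea < 1 := by rw [div_lt_one hea]; exact this
    linarith
  have hW1 : ∀ y ∈ K, W y ≤ 1 := by
    intro y _
    simp only [hW]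
    have : 0 ≤ dist v.1 y / ea := div_nonneg dist_nonneg hea.le
    linarith
  have hpair : ∀ y ∈ K, ∀ z ∈ K, y ≠ z → W y + W z ≤ 1 := by
    intro y hy z hz hne
    have h1 := hsep y (Finset.mem_union_right _ hy) z (Finset.mem_union_right _ hz) hne
    have h2 : dist y z ≤ dist v.1 y + dist v.1 z := by
      rw [dist_comm v.1 y]; exact dist_triangle _ _ _
    simp only [hW]
    have : 1 ≤ dist v.1 y / ea + dist v.1 z / ea := by
      rw [← add_div, le_div_iff₀ hea]; linarith
    linarith
  have hsumP : ∑ p ∈ P, (1 - dist v.1 p / ea) = ∑ p ∈ K, W p := by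
    rw [hP, Finset.sum_union hdisj]
    have : ∑ p ∈ Fx, (1 - dist v.1 p / ea) = 0 := by
      apply Finset.sum_eq_zero
      intro p hp
      rw [hdF p hp, div_self hea.ne']; ring
    rw [this, zero_add]
  have hkey := LLsum (fr hL v).th (fr hL v).law P hPd hsep
  rw [hsumP, hPc] at hkey
  have hpos : 0 < ∑ p ∈ K, W p := by
    apply Finset.sum_pos hWK
    rw [← Finset.card_pos]; omega
  have hN6 : Fx.card + K.card ≤ 6 := by
    by_contra h
    have h7 : 7 ≤ Fx.card + K.card := by omega
    have : (7 : ℝ) ≤ ((Fx.card + K.card : ℕ) : ℝ) := by exact_mod_cast h7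
    linarith
  have hIc : I.card + Fx.card = 7 := by rw [hFc]; omega
  refine ⟨by omega, ?_⟩
  -- the sum
  have hsumY : ∑ y ∈ Y, psi (dist v.1 y) = ∑ y ∈ K, ps (W y) := by
    rw [hK, Finset.sum_filter]
    apply Finset.sum_congr rfl
    intro y _
    split_ifs with h
    · rfl
    · unfold psi ps
      have h1 : 1 - dist v.1 y / ea ≤ 0 := by
        have : 1 ≤ dist v.1 y / ea := by rw [le_div_iff₀ hea]; linarith
        linarith
      apply le_antisymm
      · apply max_le (le_refl _)
        apply max_le <;> linarith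
      · exact le_max_left _ _
  rw [hsumY]
  obtain ⟨w1, w2, w3, w4⟩ := wt_facts I
  have hcast : ∀ n : ℤ, wt I ≤ n → (wt I : ℝ) ≤ n := fun n h => by exact_mod_cast h
  rcases Nat.lt_or_ge (Fx.card + K.card) 6 with hlt | hge
  · -- N <= 5
    have hk5 : K.card ≤ 5 := by omega
    interval_cases hk : K.card
    · -- k = 2
      obtain ⟨a, b, hab, hKab⟩ := Finset.card_eq_two.1 hk
      rw [hKab, Finset.sum_pair hab]
      have ha : a ∈ K := by rw [hKab]; simp
      have hb : b ∈ K := by rw [hKab]; simp
      have h8 := ps_pair (W a) (W b) (hWK a ha).le (hWK b hb).le (hpair a ha b hb hab)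
      have := hcast 0 (w2 (by omega))
      push_cast at this
      linarith
    · -- k = 3
      rcases w3 (by omega) with h | ⟨h, h5, i, hi, hi1⟩
      · obtain ⟨a, b, c, hab, hac, hbc, hKab⟩ := Finset.card_eq_three.1 hk
        have ha : a ∈ K := by rw [hKab]; simp
        have hb : b ∈ K := by rw [hKab]; simp
        have hc : c ∈ K := by rw [hKab]; simp
        rw [hKab, Finset.sum_insert (by simp [hab, hac]), Finset.sum_pair hbc, h]
        have h8 := ps_triple (W a) (W b) (W c) (hWK a ha).le (hWK b hb).le (hWK c hc).le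
          (hpair a ha b hb hab) (hpair a ha c hc hac) (hpair b hb c hc hbc)
        push_cast
        linarith
      · -- adjacent
        rw [h]
        have hFx2 : Fx.card = 2 := by omega
        set f1 := (nbr hL v i).1 with hf1
        set f2 := (nbr hL v (i + 1)).1 with hf2
        have hf1F : f1 ∈ Fx := (hmF _).2 ⟨i, hi, rfl⟩
        have hf2F : f2 ∈ Fx := (hmF _).2 ⟨i + 1, hi1, rfl⟩
        have hne : f1 ≠ f2 := by
          intro h'
          have := hinj h'
          have h1 : (1 : ZMod 7) = 0 := by
            have h2 : i = i + 1 := this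
            linear_combination -h2
          exact absurd h1 (by decide)
        have hth : ∃ n : ℤ, (fr hL v).th f2 - (fr hL v).th f1 = Aa + n * (2 * π) := by
          obtain ⟨n1, hn1⟩ := (fr hL v).nb_th (i.val : ℤ)
          obtain ⟨n2, hn2⟩ := (fr hL v).nb_th ((i + 1).val : ℤ)
          have e1 : (fr hL v).th f1 = ((i.val : ℤ) : ℝ) * Aa + n1 * (2 * π) := hn1
          have e2 : (fr hL v).th f2 = (((i + 1).val : ℤ) : ℝ) * Aa + n2 * (2 * π) := hn2
          rw [e1, e2]
          by_cases h6 : i.val = 6
          · have h0 : (i + 1).val = 0 := by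
              have : i = 6 := by
                have := ZMod.natCast_zmod_val i
                rw [h6] at this
                rw [← this]; rfl
              rw [this]; decide
            refine ⟨n2 - n1 - 1, ?_⟩
            rw [h6, h0]
            have := Aa_seven
            push_cast
            linarith
          · have h0 : (i + 1).val = i.val + 1 := by
              have hlt : i.val < 7 := ZMod.val_lt i
              rw [ZMod.val_add_of_lt]
              · rfl
              · have : (1 : ZMod 7).val = 1 := rfl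
                rw [this]; omega
            refine ⟨n2 - n1, ?_⟩
            rw [h0]
            push_cast
            ring
        obtain ⟨e, he, hmem, hef, hineq⟩ := LL5 (fr hL v).th (fr hL v).law P hPd hsep (by omega)
          f1 f2 (Finset.mem_union_left _ hf1F) (Finset.mem_union_left _ hf2F) hne
          (hdF _ hf1F) (hdF _ hf2F) hth
        have hFxeq : Fx = {f1, f2} := by
          symm
          apply Finset.eq_of_subset_of_card_le
          · intro x hx
            rw [Finset.mem_insert, Finset.mem_singleton] at hx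
            rcases hx with h' | h' <;> rw [h'] <;> assumption
          · rw [hFx2, Finset.card_pair hne]
        have heK : ∀ j, e j ∈ K := by
          intro j
          have := (hmem (e j)).2 (Or.inr (Or.inr ⟨j, rfl⟩))
          rw [hP, Finset.mem_union] at this
          rcases this with h' | h'
          · rw [hFxeq, Finset.mem_insert, Finset.mem_singleton] at h'
            rcases h' with h' | h'
            · exact absurd h' (hef j).1
            · exact absurd h' (hef j).2
          · exact h'
        rw [sum_image_fin K e he heK hk (fun y => ps (W y)), Fin.sum_univ_three]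
        have h01 : e 0 ≠ e 1 := fun h' => absurd (he h') (by decide)
        have h02 : e 0 ≠ e 2 := fun h' => absurd (he h') (by decide)
        have h12 : e 1 ≠ e 2 := fun h' => absurd (he h') (by decide)
        have h8 := ps_five (W (e 0)) (W (e 1)) (W (e 2)) (hWK _ (heK 0)).le (hWK _ (heK 1)).le
          (hWK _ (heK 2)).le (hpair _ (heK 0) _ (heK 1) h01) (hpair _ (heK 0) _ (heK 2) h02)
          (hpair _ (heK 1) _ (heK 2) h12) hineq
        push_cast
        linarith
    · -- k = 4
      have hwt := w4 (by omega)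
      rw [hwt]
      rcases Nat.lt_or_ge Fx.card 1 with h0 | h1
      · have hF0 : Fx.card = 0 := by omega
        have hF0' : Fx = ∅ := Finset.card_eq_zero.1 hF0
        obtain ⟨e, he, hmem, hineq⟩ := LL4 (fr hL v).th (fr hL v).law P hPd hsep (by omega)
        have heK : ∀ j, e j ∈ K := by
          intro j
          have := (hmem (e j)).2 ⟨j, rfl⟩
          rw [hP, hF0', Finset.empty_union] at this
          exact this
        rw [sum_image_fin K e he heK hk (fun y => ps (W y)), Fin.sum_univ_four]
        have h01 : e 0 ≠ e 1 := fun h' => absurd (he h') (by decide)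
        have h02 : e 0 ≠ e 2 := fun h' => absurd (he h') (by decide)
        have h03 : e 0 ≠ e 3 := fun h' => absurd (he h') (by decide)
        have h12 : e 1 ≠ e 2 := fun h' => absurd (he h') (by decide)
        have h13 : e 1 ≠ e 3 := fun h' => absurd (he h') (by decide)
        have h23 : e 2 ≠ e 3 := fun h' => absurd (he h') (by decide)
        have h8 := ps_four (W (e 0)) (W (e 1)) (W (e 2)) (W (e 3)) (hWK _ (heK 0)).le
          (hWK _ (heK 1)).le (hWK _ (heK 2)).le (hWK _ (heK 3)).le
          (hpair _ (heK 0) _ (heK 1) h01) (hpair _ (heK 0) _ (heK 2) h02)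
          (hpair _ (heK 1) _ (heK 2) h12) (hpair _ (heK 0) _ (heK 3) h03)
          (hpair _ (heK 1) _ (heK 3) h13) (hpair _ (heK 2) _ (heK 3) h23) hineq
        push_cast
        linarith
      · have hN5 : Fx.card + K.card = 5 := by omega
        have h8 := ps_sum_two K W (fun i hi => (hWK i hi).le) hpair hW1 (by
          have : ((Fx.card + K.card : ℕ) : ℝ) = 5 := by exact_mod_cast hN5
          rw [hk] at this
          linarith)
        push_cast
        linarith
    · -- k = 5
      have hwt := w4 (by omega)
      rw [hwt]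
      have hN5 : Fx.card + K.card = 5 := by omega
      have h8 := ps_sum_two K W (fun i hi => (hWK i hi).le) hpair hW1 (by
        have : ((Fx.card + K.card : ℕ) : ℝ) = 5 := by exact_mod_cast hN5
        rw [hk] at this
        linarith)
      push_cast
      linarith
  · have hN : Fx.card + K.card = 6 := by omega
    have h8 := ps_sum_one K W (fun i hi => (hWK i hi).le) (by
      have : ((Fx.card + K.card : ℕ) : ℝ) = 6 := by exact_mod_cast hN
      linarith)
    have := hcast 2 w1
    push_cast at this
    linarith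

end Pool.Agent.H78.SS
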