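import Pool.Agent.H78.SS.Gap
import Pool.Agent.H78.SS.B2

/-! LLS: consequences of the sorted gaps and of B1, B2 (w_p = 1 - dist s p / ea, all gaps add up to 7 Aa).
LLsum: B1 in every gap. LL4: in the gaps (0,1),(1,2),(2,3),(3,0) use B2 with the linear term w0,w2,w2,w0 (resp. w1,w1,w3,w3).
LL5: gap_sort with p0 = f2; the angle of f1 is 2 pi - Aa and every gap is at least Aa, so f1 = e 4; gaps (f2,p1),(p3,f1) by B1,
(p1,p2): B2 with linear term w1, (p2,p3): B2 with linear term w3; these four gaps add up to 6 Aa. -/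

set_option autoImplicit false

namespace Pool.Agent.H78.SS

open Real

variable {M : Type*} [MetricSpace M] {s : M}

private lemma lls_w_nonneg {P : Finset M} (hP : ∀ p ∈ P, 0 < dist s p ∧ dist s p ≤ ea)
    {p : M} (hp : p ∈ P) : 0 ≤ 1 - dist s p / ea := by
  have h := div_le_one_of_le₀ (hP p hp).2 ea_pos.le
  linarith

private lemma lls_tri {P : Finset M}
    (hsep : ∀ p ∈ P, ∀ q ∈ P, p ≠ q → ea ≤ dist p q) {p q : M} (hp : p ∈ P) (hq : q ∈ P)
    (hpq : p ≠ q) : ea ≤ dist s p + dist s q := by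
  have h1 := hsep p hp q hq hpq
  have h2 := dist_triangle p s q
  rw [dist_comm p s] at h2
  linarith

private lemma lls_B1 {P : Finset M} (hP : ∀ p ∈ P, 0 < dist s p ∧ dist s p ≤ ea)
    (hsep : ∀ p ∈ P, ∀ q ∈ P, p ≠ q → ea ≤ dist p q) {p q : M} (hp : p ∈ P) (hq : q ∈ P)
    (hpq : p ≠ q) :
    Aa * (1 + 0.73 * ((1 - dist s p / ea) + (1 - dist s q / ea))) ≤ Th (dist s p) (dist s q) :=
  B1 _ _ (hP p hp).1 (hP p hp).2 (hP q hq).1 (hP q hq).2 (lls_tri hsep hp hq hpq)

private lemma lls_B2 {P : Finset M} (hP : ∀ p ∈ P, 0 < dist s p ∧ dist s p ≤ ea)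
    (hsep : ∀ p ∈ P, ∀ q ∈ P, p ≠ q → ea ≤ dist p q) {p q : M} (hp : p ∈ P) (hq : q ∈ P)
    (hpq : p ≠ q) :
    Aa * (1 + 0.73 * (1 - dist s q / ea) + 3.8 * (1 - dist s p / ea) * (1 - dist s q / ea)) ≤
      Th (dist s p) (dist s q) :=
  B2 _ _ (hP p hp).1 (hP p hp).2 (hP q hq).1 (hP q hq).2 (lls_tri hsep hp hq hpq)

private lemma lls_B2' {P : Finset M} (hP : ∀ p ∈ P, 0 < dist s p ∧ dist s p ≤ ea)
    (hsep : ∀ p ∈ P, ∀ q ∈ P, p ≠ q → ea ≤ dist p q) {p q : M} (hp : p ∈ P) (hq : q ∈ P)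
    (hpq : p ≠ q) :
    Aa * (1 + 0.73 * (1 - dist s p / ea) + 3.8 * (1 - dist s q / ea) * (1 - dist s p / ea)) ≤
      Th (dist s p) (dist s q) := by
  rw [Th_symm]
  exact lls_B2 hP hsep hq hp hpq.symm

private lemma lls_Aa_pos : 0 < Aa := lt_trans (by norm_num) Aa_bounds.1

theorem LLsum (th : M → ℝ)
    (law : ∀ z w : M, Real.cosh (dist z w) =
      Real.cosh (dist s z) * Real.cosh (dist s w)
        - Real.sinh (dist s z) * Real.sinh (dist s w) * Real.cos (th z - th w))
    (P : Finset M) (hP : ∀ p ∈ P, 0 < dist s p ∧ dist s p ≤ ea)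
    (hsep : ∀ p ∈ P, ∀ q ∈ P, p ≠ q → ea ≤ dist p q) :
    (P.card : ℝ) + 1.46 * ∑ p ∈ P, (1 - dist s p / ea) ≤ 7 := by
  rcases Nat.lt_or_ge P.card 2 with hc | hc
  · have h1 : ∑ p ∈ P, (1 - dist s p / ea) ≤ (P.card : ℝ) := by
      have h2 := Finset.sum_le_sum (s := P) (f := fun p => 1 - dist s p / ea)
        (g := fun _ => (1 : ℝ)) (fun p hp => by
          have := div_nonneg (hP p hp).1.le ea_pos.le
          linarith)
      rw [Finset.sum_const, nsmul_eq_mul, mul_one] at h2
      exact h2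
    have h3 : (P.card : ℝ) ≤ 1 := by exact_mod_cast Nat.lt_succ_iff.mp hc
    linarith
  · obtain ⟨p0, hp0⟩ : P.Nonempty := Finset.card_pos.mp (by omega)
    obtain ⟨e, al, e0, eN, emem, einj, esurj, al0, alN, -, hgap⟩ :=
      gap_sort th law P hP hsep hc p0 hp0
    set N := P.card with hN
    have hmem : ∀ i, i ≤ N → e i ∈ P := by
      intro i hi
      rcases hi.lt_or_eq with h | h
      · exact emem i h
      · rw [h, eN]; exact hp0
    have hne : ∀ i, i < N → e i ≠ e (i + 1) := by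
      intro i hi h
      rcases Nat.lt_or_ge (i + 1) N with h1 | h1
      · have := einj i (i + 1) hi h1 h
        omega
      · have h2 : i + 1 = N := by omega
        rw [h2, eN, ← e0] at h
        have := einj i 0 hi (by omega) h
        omega
    have hsum : ∑ i ∈ Finset.range N, Aa * (1 + 0.73 * ((1 - dist s (e i) / ea) +
        (1 - dist s (e (i + 1)) / ea))) ≤ 2 * π := by
      have h1 : ∑ i ∈ Finset.range N, (al (i + 1) - al i) = 2 * π := by
        rw [Finset.sum_range_sub, alN, al0, sub_zero]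
      rw [← h1]
      refine Finset.sum_le_sum fun i hi => ?_
      rw [Finset.mem_range] at hi
      exact (lls_B1 hP hsep (hmem i hi.le) (hmem (i + 1) hi) (hne i hi)).trans (hgap i hi)
    have hW : ∑ i ∈ Finset.range N, (1 - dist s (e i) / ea) = ∑ p ∈ P, (1 - dist s p / ea) := by
      refine Finset.sum_nbij (fun i => e i) ?_ ?_ ?_ ?_
      · intro i hi
        exact emem i (Finset.mem_range.mp hi)
      · intro i hi j hj h
        exact einj i j (Finset.mem_range.mp (by exact_mod_cast hi))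
          (Finset.mem_range.mp (by exact_mod_cast hj)) h
      · intro p hp
        obtain ⟨i, hi, h⟩ := esurj p (by exact_mod_cast hp)
        exact ⟨i, by simpa using hi, h⟩
      · intro i _
        rfl
    have hW' : ∑ i ∈ Finset.range N, (1 - dist s (e (i + 1)) / ea) =
        ∑ p ∈ P, (1 - dist s p / ea) := by
      rw [← hW]
      have h1 := Finset.sum_range_succ (fun i => 1 - dist s (e i) / ea) N
      have h2 := Finset.sum_range_succ' (fun i => 1 - dist s (e i) / ea) N
      rw [eN, ← e0] at h1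
      rw [h1] at h2
      linarith
    rw [← Finset.mul_sum, Finset.sum_add_distrib, ← Finset.mul_sum, Finset.sum_add_distrib, hW, hW',
      ← Aa_seven, Finset.sum_const, Finset.card_range, nsmul_eq_mul, mul_one, mul_comm 7 Aa] at hsum
    have h3 := le_of_mul_le_mul_left hsum lls_Aa_pos
    linarith

theorem LL4 (th : M → ℝ)
    (law : ∀ z w : M, Real.cosh (dist z w) =
      Real.cosh (dist s z) * Real.cosh (dist s w)
        - Real.sinh (dist s z) * Real.sinh (dist s w) * Real.cos (th z - th w))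
    (P : Finset M) (hP : ∀ p ∈ P, 0 < dist s p ∧ dist s p ≤ ea)
    (hsep : ∀ p ∈ P, ∀ q ∈ P, p ≠ q → ea ≤ dist p q) (hcard : P.card = 4) :
    ∃ e : Fin 4 → M, Function.Injective e ∧ (∀ p, p ∈ P ↔ ∃ i, e i = p) ∧
      1.46 * max ((1 - dist s (e 0) / ea) + (1 - dist s (e 2) / ea))
          ((1 - dist s (e 1) / ea) + (1 - dist s (e 3) / ea))
        + 3.8 * ((1 - dist s (e 0) / ea) + (1 - dist s (e 2) / ea))
          * ((1 - dist s (e 1) / ea) + (1 - dist s (e 3) / ea)) ≤ 3 := by
  obtain ⟨p0, hp0⟩ : P.Nonempty := Finset.card_pos.mp (by omega)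
  obtain ⟨e, al, e0, eN, emem, einj, esurj, al0, alN, -, hgap⟩ :=
    gap_sort th law P hP hsep (by omega) p0 hp0
  rw [hcard] at eN emem einj esurj alN hgap
  refine ⟨fun i => e i, ?_, ?_, ?_⟩
  · intro i j h
    exact Fin.ext (einj i j i.2 j.2 h)
  · intro p
    constructor
    · intro hp
      obtain ⟨i, hi, h⟩ := esurj p hp
      exact ⟨⟨i, hi⟩, h⟩
    · rintro ⟨i, rfl⟩
      exact emem i i.2
  · have m0 := emem 0 (by norm_num)
    have m1 := emem 1 (by norm_num)
    have m2 := emem 2 (by norm_num)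
    have m3 := emem 3 (by norm_num)
    have n01 : e 0 ≠ e 1 := fun h => absurd (einj 0 1 (by norm_num) (by norm_num) h) (by norm_num)
    have n12 : e 1 ≠ e 2 := fun h => absurd (einj 1 2 (by norm_num) (by norm_num) h) (by norm_num)
    have n23 : e 2 ≠ e 3 := fun h => absurd (einj 2 3 (by norm_num) (by norm_num) h) (by norm_num)
    have n30 : e 3 ≠ e 0 := fun h => absurd (einj 3 0 (by norm_num) (by norm_num) h) (by norm_num)
    have g0 := hgap 0 (by norm_num)
    have g1 := hgap 1 (by norm_num)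
    have g2 := hgap 2 (by norm_num)
    have g3 := hgap 3 (by norm_num)
    norm_num only at g0 g1 g2 g3
    rw [eN, ← e0, alN, ← Aa_seven] at g3
    rw [al0] at g0
    have a01 := lls_B2' hP hsep m0 m1 n01
    have a12 := lls_B2 hP hsep m1 m2 n12
    have a23 := lls_B2' hP hsep m2 m3 n23
    have a30 := lls_B2 hP hsep m3 m0 n30
    have b01 := lls_B2 hP hsep m0 m1 n01
    have b12 := lls_B2' hP hsep m1 m2 n12
    have b23 := lls_B2 hP hsep m2 m3 n23
    have b30 := lls_B2' hP hsep m3 m0 n30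
    change 1.46 * max ((1 - dist s (e 0) / ea) + (1 - dist s (e 2) / ea))
          ((1 - dist s (e 1) / ea) + (1 - dist s (e 3) / ea))
        + 3.8 * ((1 - dist s (e 0) / ea) + (1 - dist s (e 2) / ea))
          * ((1 - dist s (e 1) / ea) + (1 - dist s (e 3) / ea)) ≤ 3
    set w0 := 1 - dist s (e 0) / ea
    set w1 := 1 - dist s (e 1) / ea
    set w2 := 1 - dist s (e 2) / ea
    set w3 := 1 - dist s (e 3) / ea
    have hA := lls_Aa_pos
    have k1 : Aa * (4 + 1.46 * (w0 + w2) + 3.8 * (w0 + w2) * (w1 + w3)) ≤ Aa * 7 := by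
      nlinarith [a01, a12, a23, a30, g0, g1, g2, g3]
    have k2 : Aa * (4 + 1.46 * (w1 + w3) + 3.8 * (w0 + w2) * (w1 + w3)) ≤ Aa * 7 := by
      nlinarith [b01, b12, b23, b30, g0, g1, g2, g3]
    have k1' := le_of_mul_le_mul_left k1 hA
    have k2' := le_of_mul_le_mul_left k2 hA
    rcases max_choice (w0 + w2) (w1 + w3) with h | h <;> rw [h] <;> linarith

theorem LL5 (th : M → ℝ)
    (law : ∀ z w : M, Real.cosh (dist z w) =
      Real.cosh (dist s z) * Real.cosh (dist s w)
        - Real.sinh (dist s z) * Real.sinh (dist s w) * Real.cos (th z - th w))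
    (P : Finset M) (hP : ∀ p ∈ P, 0 < dist s p ∧ dist s p ≤ ea)
    (hsep : ∀ p ∈ P, ∀ q ∈ P, p ≠ q → ea ≤ dist p q) (hcard : P.card = 5)
    (f1 f2 : M) (hf1 : f1 ∈ P) (hf2 : f2 ∈ P) (h12 : f1 ≠ f2) (hd1 : dist s f1 = ea)
    (hd2 : dist s f2 = ea) (hth : ∃ n : ℤ, th f2 - th f1 = Aa + n * (2 * π)) :
    ∃ e : Fin 3 → M, Function.Injective e ∧ (∀ p, p ∈ P ↔ (p = f1 ∨ p = f2 ∨ ∃ i, e i = p)) ∧
      (∀ i, e i ≠ f1 ∧ e i ≠ f2) ∧
      1.46 * ((1 - dist s (e 0) / ea) + (1 - dist s (e 2) / ea))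
        + 3.8 * (1 - dist s (e 1) / ea) * ((1 - dist s (e 0) / ea) + (1 - dist s (e 2) / ea)) ≤ 2 := by
  obtain ⟨e, al, e0, eN, emem, einj, esurj, al0, alN, hang, hgap⟩ :=
    gap_sort th law P hP hsep (by omega) f2 hf2
  rw [hcard] at eN emem einj esurj alN hgap hang
  have hA := lls_Aa_pos
  have hpi := Aa_seven
  -- every gap is at least `Aa`
  have hmem : ∀ i, i ≤ 5 → e i ∈ P := by
    intro i hi
    rcases hi.lt_or_eq with h | h
    · exact emem i h
    · rw [h, eN]; exact hf2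
  have hne : ∀ i, i < 5 → e i ≠ e (i + 1) := by
    intro i hi h
    rcases Nat.lt_or_ge (i + 1) 5 with h1 | h1
    · have := einj i (i + 1) hi h1 h
      omega
    · have h2 : i + 1 = 5 := by omega
      rw [h2, eN, ← e0] at h
      have := einj i 0 hi (by omega) h
      omega
  have hgapA : ∀ i, i < 5 → Aa ≤ al (i + 1) - al i := by
    intro i hi
    have h1 := lls_B1 hP hsep (hmem i hi.le) (hmem (i + 1) hi) (hne i hi)
    have h2 := lls_w_nonneg hP (hmem i hi.le)
    have h3 := lls_w_nonneg hP (hmem (i + 1) hi)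
    have h4 := hgap i hi
    nlinarith [mul_nonneg hA.le h2, mul_nonneg hA.le h3]
  -- the position of `f1`
  obtain ⟨j, hj, hej⟩ := esurj f1 hf1
  obtain ⟨hj0, hj1, n, hn⟩ := hang j hj
  obtain ⟨n', hn'⟩ := hth
  rw [hej] at hn
  have halj : al j = 2 * π - Aa := by
    have h1 : al j + Aa = ((-(n + n') : ℤ) : ℝ) * (2 * π) := by
      push_cast
      linarith
    have hp : 0 < 2 * π := by positivity
    have h2 : (0 : ℝ) < ((-(n + n') : ℤ) : ℝ) := by
      by_contra hcon
      push Not at hcon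
      have := mul_nonpos_of_nonpos_of_nonneg hcon hp.le
      linarith
    have h3 : ((-(n + n') : ℤ) : ℝ) < 2 := by
      by_contra hcon
      push Not at hcon
      have := mul_le_mul_of_nonneg_right hcon hp.le
      linarith
    have h4 : (-(n + n') : ℤ) = 1 := by
      have h5 : (0 : ℤ) < -(n + n') := by exact_mod_cast h2
      have h6 : -(n + n') < (2 : ℤ) := by exact_mod_cast h3
      omega
    rw [h4] at h1
    push_cast at h1
    linarith
  have g0 := hgapA 0 (by norm_num)
  have g1 := hgapA 1 (by norm_num)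
  have g2 := hgapA 2 (by norm_num)
  have g3 := hgapA 3 (by norm_num)
  have g4 := hgapA 4 (by norm_num)
  norm_num only at g0 g1 g2 g3 g4
  have hj4 : j = 4 := by
    interval_cases j <;> first | rfl | (exfalso; linarith)
  rw [hj4] at hej halj
  have m0 := emem 0 (by norm_num)
  have m1 := emem 1 (by norm_num)
  have m2 := emem 2 (by norm_num)
  have m3 := emem 3 (by norm_num)
  have m4 := emem 4 (by norm_num)
  have t0 := hgap 0 (by norm_num)
  have t1 := hgap 1 (by norm_num)
  have t2 := hgap 2 (by norm_num)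
  have t3 := hgap 3 (by norm_num)
  norm_num only at t0 t1 t2 t3
  have n01 := hne 0 (by norm_num)
  have n12 := hne 1 (by norm_num)
  have n23 := hne 2 (by norm_num)
  have n34 := hne 3 (by norm_num)
  norm_num only at n01 n12 n23 n34
  have a01 := lls_B1 hP hsep m0 m1 n01
  have a12 := lls_B2' hP hsep m1 m2 n12
  have a23 := lls_B2 hP hsep m2 m3 n23
  have a34 := lls_B1 hP hsep m3 m4 n34
  rw [al0] at t0
  rw [halj] at t3
  have w0 : 1 - dist s (e 0) / ea = 0 := by
    rw [e0, hd2, div_self ea_pos.ne', sub_self]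
  have w4 : 1 - dist s (e 4) / ea = 0 := by
    rw [hej, hd1, div_self ea_pos.ne', sub_self]
  rw [w0] at a01
  rw [w4] at a34
  refine ⟨fun i => e (i + 1), ?_, ?_, ?_, ?_⟩
  · intro i i' h
    have := einj (i + 1) (i' + 1) (by omega) (by omega) h
    exact Fin.ext (by omega)
  · intro p
    constructor
    · intro hp
      obtain ⟨i, hi, h⟩ := esurj p hp
      interval_cases i
      · exact Or.inr (Or.inl (by rw [← h, e0]))
      · exact Or.inr (Or.inr ⟨0, h⟩)
      · exact Or.inr (Or.inr ⟨1, h⟩)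
      · exact Or.inr (Or.inr ⟨2, h⟩)
      · exact Or.inl (by rw [← h, hej])
    · rintro (rfl | rfl | ⟨i, rfl⟩)
      · exact hf1
      · exact hf2
      · exact emem _ (by omega)
  · intro i
    refine ⟨fun h => ?_, fun h => ?_⟩
    · rw [← hej] at h
      have := einj _ 4 (by omega) (by norm_num) h
      omega
    · rw [← e0] at h
      have := einj _ 0 (by omega) (by norm_num) h
      omega
  · change 1.46 * ((1 - dist s (e 1) / ea) + (1 - dist s (e 3) / ea))
        + 3.8 * (1 - dist s (e 2) / ea) * ((1 - dist s (e 1) / ea) + (1 - dist s (e 3) / ea)) ≤ 2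
    set w1 := 1 - dist s (e 1) / ea
    set w2 := 1 - dist s (e 2) / ea
    set w3 := 1 - dist s (e 3) / ea
    have k1 : Aa * (4 + 1.46 * (w1 + w3) + 3.8 * w2 * (w1 + w3)) ≤ Aa * 6 := by
      nlinarith [a01, a12, a23, a34, t0, t1, t2, t3]
    have k1' := le_of_mul_le_mul_left k1 hA
    linarith

end Pool.Agent.H78.SS
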