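import Pool.Agent.H78.SS.Num

/-! NRM: the ring Z[theta], theta = 2 cos (2 pi/7), with its three real embeddings theta -> t1, t2, t3.
t1^3 + t1^2 - 2 t1 - 1 = 0 (from cosAa_cubic); t2 = t1^2 - 2 and t3 = t1^3 - 3 t1 are the other two roots
(t1 = 1.24698, t2 = -0.44504, t3 = -1.80194; t1+t2+t3 = -1, t1t2+t1t3+t2t3 = -2, t1t2t3 = 1).
Norm: the product of x + y t_i + z t_i^2 over i is an integer polynomial N(x,y,z) (expand and use the symmetric functions);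
N = 0 only for x = y = z = 0: modulo 2 the form N has no nontrivial zero (decide on ZMod 2), so descent. -/

set_option autoImplicit false

namespace Pool.Agent.H78.SS

open Real

noncomputable def t1 : ℝ := 2 * Real.cos Aa
noncomputable def t2 : ℝ := t1 ^ 2 - 2
noncomputable def t3 : ℝ := t1 ^ 3 - 3 * t1

theorem t1_root : t1 ^ 3 + t1 ^ 2 - 2 * t1 - 1 = 0 := by
  unfold t1
  linear_combination cosAa_cubic
theorem t2_root : t2 ^ 3 + t2 ^ 2 - 2 * t2 - 1 = 0 := by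
  unfold t2
  linear_combination (t1 ^ 3 - t1 ^ 2 - 2 * t1 + 1) * t1_root
theorem t3_root : t3 ^ 3 + t3 ^ 2 - 2 * t3 - 1 = 0 := by
  unfold t3
  linear_combination (t1 ^ 6 - t1 ^ 5 - 6 * t1 ^ 4 + 6 * t1 ^ 3 + 8 * t1 ^ 2 - 8 * t1 + 1) * t1_root
theorem t_sum : t1 + t2 + t3 = -1 := by
  unfold t2 t3
  linear_combination t1_root
theorem t_sum2 : t1 * t2 + t1 * t3 + t2 * t3 = -2 := by
  unfold t2 t3
  linear_combination (t1 ^ 2 - 2) * t1_root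
theorem t_prod : t1 * t2 * t3 = 1 := by
  unfold t2 t3
  linear_combination (t1 ^ 3 - t1 ^ 2 - 2 * t1 + 1) * t1_root
theorem t1_bounds : 1.24696 < t1 ∧ t1 < 1.247 := by
  obtain ⟨h1, h2⟩ := cosAa_bounds
  unfold t1
  constructor <;> linarith
theorem t2_bounds : -0.4452 < t2 ∧ t2 < -0.4449 := by
  obtain ⟨h1, h2⟩ := t1_bounds
  unfold t2
  constructor <;> nlinarith
theorem t3_bounds : -1.8021 < t3 ∧ t3 < -1.8017 := by
  obtain ⟨h1, h2⟩ := t1_bounds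
  have h3 : t3 = 1 - t1 - t1 ^ 2 := by
    unfold t3
    linear_combination t1_root
  rw [h3]
  constructor <;> nlinarith
/-- the norm of 1 - theta -/
theorem t_unit : (t1 - 1) * (1 - t2) * (1 - t3) = 1 := by
  unfold t2 t3
  linear_combination (t1 ^ 3 - 2 * t1 ^ 2 - 2 * t1 + 4) * t1_root

/-- p is the triple of the three embeddings of an element of Z[theta] -/
def InO (p : ℝ × ℝ × ℝ) : Prop :=
  ∃ x y z : ℤ, p.1 = x + y * t1 + z * t1 ^ 2 ∧ p.2.1 = x + y * t2 + z * t2 ^ 2 ∧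
    p.2.2 = x + y * t3 + z * t3 ^ 2

/-- the triple of theta -/
noncomputable def tt : ℝ × ℝ × ℝ := (t1, t2, t3)

theorem InO_int (n : ℤ) : InO ((n : ℝ), (n : ℝ), (n : ℝ)) :=
  ⟨n, 0, 0, by simp, by simp, by simp⟩
theorem InO_tt : InO tt :=
  ⟨0, 1, 0, by simp [tt], by simp [tt], by simp [tt]⟩
theorem InO_add {p q : ℝ × ℝ × ℝ} (hp : InO p) (hq : InO q) : InO (p + q) := by
  obtain ⟨x, y, z, h1, h2, h3⟩ := hp
  obtain ⟨x', y', z', h1', h2', h3'⟩ := hq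
  refine ⟨x + x', y + y', z + z', ?_, ?_, ?_⟩
  · rw [Prod.fst_add, h1, h1']
    push_cast
    ring
  · rw [Prod.snd_add, Prod.fst_add, h2, h2']
    push_cast
    ring
  · rw [Prod.snd_add, Prod.snd_add, h3, h3']
    push_cast
    ring
theorem InO_neg {p : ℝ × ℝ × ℝ} (hp : InO p) : InO (-p) := by
  obtain ⟨x, y, z, h1, h2, h3⟩ := hp
  refine ⟨-x, -y, -z, ?_, ?_, ?_⟩
  · rw [Prod.fst_neg, h1]
    push_cast
    ring
  · rw [Prod.snd_neg, Prod.fst_neg, h2]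
    push_cast
    ring
  · rw [Prod.snd_neg, Prod.snd_neg, h3]
    push_cast
    ring
theorem InO_mul {p q : ℝ × ℝ × ℝ} (hp : InO p) (hq : InO q) : InO (p * q) := by
  obtain ⟨x, y, z, h1, h2, h3⟩ := hp
  obtain ⟨x', y', z', h1', h2', h3'⟩ := hq
  refine ⟨x * x' + (y * z' + z * y') - z * z',
    (x * y' + y * x') + 2 * (y * z' + z * y') - z * z',
    (x * z' + y * y' + z * x') - (y * z' + z * y') + 3 * (z * z'), ?_, ?_, ?_⟩
  · rw [Prod.fst_mul, h1, h1']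
    push_cast
    linear_combination ((y * z' + z * y' : ℝ) + (z * z') * (t1 - 1)) * t1_root
  · rw [Prod.snd_mul, Prod.fst_mul, h2, h2']
    push_cast
    linear_combination ((y * z' + z * y' : ℝ) + (z * z') * (t2 - 1)) * t2_root
  · rw [Prod.snd_mul, Prod.snd_mul, h3, h3']
    push_cast
    linear_combination ((y * z' + z * y' : ℝ) + (z * z') * (t3 - 1)) * t3_root

/-- the norm form -/
def nrmN {K : Type*} [CommRing K] (x y z : K) : K :=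
  x ^ 3 - x ^ 2 * y + 5 * x ^ 2 * z - 2 * x * y ^ 2 - x * y * z + 6 * x * z ^ 2 + y ^ 3 -
    y ^ 2 * z - 2 * y * z ^ 2 + z ^ 3

theorem nrm_mod : ∀ x y z : ZMod 2, nrmN x y z = 0 → x = 0 ∧ y = 0 ∧ z = 0 := by
  unfold nrmN
  decide

theorem nrm_even (x y z : ℤ) (h : nrmN x y z = 0) : Even x ∧ Even y ∧ Even z := by
  have h1 : nrmN (x : ZMod 2) (y : ZMod 2) (z : ZMod 2) = 0 := by
    have h2 := congrArg (Int.cast : ℤ → ZMod 2) h
    unfold nrmN at h2 ⊢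
    push_cast at h2
    exact h2
  obtain ⟨h2, h3, h4⟩ := nrm_mod _ _ _ h1
  rw [ZMod.intCast_zmod_eq_zero_iff_dvd] at h2 h3 h4
  exact ⟨even_iff_two_dvd.2 (by exact_mod_cast h2), even_iff_two_dvd.2 (by exact_mod_cast h3),
    even_iff_two_dvd.2 (by exact_mod_cast h4)⟩

theorem nrm_descent : ∀ n : ℕ, ∀ x y z : ℤ, x.natAbs + y.natAbs + z.natAbs ≤ n →
    nrmN x y z = 0 → x = 0 ∧ y = 0 ∧ z = 0 := by
  intro n
  induction n with
  | zero =>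
    intro x y z h _
    omega
  | succ n ih =>
    intro x y z h h0
    obtain ⟨⟨x', rfl⟩, ⟨y', rfl⟩, ⟨z', rfl⟩⟩ := nrm_even x y z h0
    by_cases hz : x' = 0 ∧ y' = 0 ∧ z' = 0
    · omega
    · have h1 : nrmN x' y' z' = 0 := by
        have h2 : nrmN (x' + x') (y' + y') (z' + z') = 8 * nrmN x' y' z' := by
          unfold nrmN
          ring
        rw [h2] at h0
        omega
      have h3 := ih x' y' z' (by omega) h1
      exact absurd h3 hz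

theorem nrm_zero (x y z : ℤ) (h : nrmN x y z = 0) : x = 0 ∧ y = 0 ∧ z = 0 :=
  nrm_descent _ x y z le_rfl h

theorem norm_int {p : ℝ × ℝ × ℝ} (hp : InO p) :
    ∃ n : ℤ, p.1 * p.2.1 * p.2.2 = n ∧ (n = 0 → p.1 = 0) := by
  obtain ⟨x, y, z, h1, h2, h3⟩ := hp
  refine ⟨nrmN x y z, ?_, ?_⟩
  · rw [h1, h2, h3]
    unfold nrmN t2 t3
    push_cast
    linear_combination (x ^ 2 * y + x ^ 2 * z * t1 ^ 3 - x ^ 2 * z * t1 ^ 2 - 2 * x ^ 2 * z * t1 + x ^ 2 * z + x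
      * y ^ 2 * t1 ^ 2 - 2 * x * y ^ 2 + x * y * z * t1 ^ 5 + x * y * z * t1 ^ 4 - 7 * x * y *
      z * t1 ^ 3 - x * y * z * t1 ^ 2 + 10 * x * y * z * t1 - x * y * z + x * z ^ 2 * t1 ^ 7 -
      x * z ^ 2 * t1 ^ 6 - 6 * x * z ^ 2 * t1 ^ 5 + 5 * x * z ^ 2 * t1 ^ 4 + 14 * x * z ^ 2 *
      t1 ^ 3 - 10 * x * z ^ 2 * t1 ^ 2 - 12 * x * z ^ 2 * t1 + 6 * x * z ^ 2 + y ^ 3 * t1 ^ 3
      - y ^ 3 * t1 ^ 2 - 2 * y ^ 3 * t1 + y ^ 3 + y ^ 2 * z * t1 ^ 6 - 5 * y ^ 2 * z * t1 ^ 4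
      - y ^ 2 * z * t1 ^ 3 + 7 * y ^ 2 * z * t1 ^ 2 + 2 * y ^ 2 * z * t1 - y ^ 2 * z + y * z ^
      2 * t1 ^ 8 - 7 * y * z ^ 2 * t1 ^ 6 + 16 * y * z ^ 2 * t1 ^ 4 - 2 * y * z ^ 2 * t1 ^ 3 -
      10 * y * z ^ 2 * t1 ^ 2 + 4 * y * z ^ 2 * t1 - 2 * y * z ^ 2 + z ^ 3 * t1 ^ 9 - z ^ 3 *
      t1 ^ 8 - 7 * z ^ 3 * t1 ^ 7 + 6 * z ^ 3 * t1 ^ 6 + 16 * z ^ 3 * t1 ^ 5 - 11 * z ^ 3 * t1
      ^ 4 - 11 * z ^ 3 * t1 ^ 3 + 5 * z ^ 3 * t1 ^ 2 - 2 * z ^ 3 * t1 + z ^ 3) * t1_root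
  · intro h
    obtain ⟨rfl, rfl, rfl⟩ := nrm_zero x y z h
    rw [h1]
    simp

end Pool.Agent.H78.SS
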