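import Pool.Agent.H78.SS.Defs

/-! NUM: numerical facts about the constants.  Aa = 0.8975979, ea = 1.0905497, Cc = 1.6559709, Sc = 1.3199265.
With c = cos Aa (0.6234898): 8c^3+4c^2-4c-1=0 from sin(4 Aa) = - sin(3 Aa). cosh(ea/2) = 1/(2 sin(pi/7)),
hence Cc = 2 cosh(ea/2)^2 - 1 = c/(1-c). -/

set_option autoImplicit false

namespace Pool.Agent.H78.SS

open Real

theorem Aa_bounds : 0.89759 < Aa ∧ Aa < 0.8976 := by
  have h1 := Real.pi_gt_d6
  have h2 := Real.pi_lt_d6
  unfold Aa
  constructor <;> linarith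

theorem Aa_seven : 7 * Aa = 2 * π := by
  unfold Aa
  ring

theorem Num_cos_lt_one : Real.cos Aa < 1 := by
  have h := Aa_bounds
  have h1 := Real.pi_gt_three
  have : Real.cos Aa < Real.cos 0 :=
    Real.cos_lt_cos_of_nonneg_of_le_pi le_rfl (by linarith [h.2]) (by linarith [h.1])
  rwa [Real.cos_zero] at this

theorem cosAa_cubic : 8 * Real.cos Aa ^ 3 + 4 * Real.cos Aa ^ 2 - 4 * Real.cos Aa - 1 = 0 := by
  have h4 : Real.cos (4 * Aa) = Real.cos (3 * Aa) := by
    have : 4 * Aa = 2 * π - 3 * Aa := by linarith [Aa_seven]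
    rw [this, Real.cos_two_pi_sub]
  have h3 : Real.cos (3 * Aa) = 4 * Real.cos Aa ^ 3 - 3 * Real.cos Aa := Real.cos_three_mul Aa
  have h5 : Real.cos (4 * Aa) = 2 * (2 * Real.cos Aa ^ 2 - 1) ^ 2 - 1 := by
    have : 4 * Aa = 2 * (2 * Aa) := by ring
    rw [this, Real.cos_two_mul, Real.cos_two_mul]
  have hprod : (Real.cos Aa - 1) * (8 * Real.cos Aa ^ 3 + 4 * Real.cos Aa ^ 2 - 4 * Real.cos Aa - 1) = 0 := by
    rw [h3, h5] at h4
    linear_combination h4
  rcases mul_eq_zero.1 hprod with h | h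
  · have := Num_cos_lt_one
    linarith
  · exact h

theorem Num_cos_gt_half : 1 / 2 < Real.cos Aa := by
  have h := Aa_bounds
  have h1 := Real.pi_gt_d6
  have : Real.cos (π / 3) < Real.cos Aa :=
    Real.cos_lt_cos_of_nonneg_of_le_pi (by linarith [h.1]) (by linarith) (by linarith [h.2])
  rwa [Real.cos_pi_div_three] at this

theorem Num_cos_fine : 0.623489 < Real.cos Aa ∧ Real.cos Aa < 0.623491 := by
  have hc := cosAa_cubic
  have hh := Num_cos_gt_half
  generalize Real.cos Aa = c at *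
  constructor
  · by_contra hcon
    push Not at hcon
    have h1 : (c - 0.623489) * (8 * (c ^ 2 + c * 0.623489 + 0.623489 ^ 2) + 4 * (c + 0.623489) - 4) ≤ 0 := by
      apply mul_nonpos_of_nonpos_of_nonneg (by linarith)
      nlinarith
    nlinarith [h1]
  · by_contra hcon
    push Not at hcon
    have h1 : 0 ≤ (c - 0.623491) * (8 * (c ^ 2 + c * 0.623491 + 0.623491 ^ 2) + 4 * (c + 0.623491) - 4) := by
      apply mul_nonneg (by linarith)
      nlinarith
    nlinarith [h1]

theorem cosAa_bounds : 0.62348 < Real.cos Aa ∧ Real.cos Aa < 0.6235 := by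
  have h := Num_cos_fine
  constructor <;> linarith [h.1, h.2]

theorem Num_sin_pos : 0 < Real.sin (π / 7) := by
  have := Real.pi_pos
  exact Real.sin_pos_of_pos_of_lt_pi (by linarith) (by linarith)

theorem Num_sin_lt : Real.sin (π / 7) < 1 / 2 := by
  have h := Real.pi_pos
  have : Real.sin (π / 7) < Real.sin (π / 6) :=
    Real.sin_lt_sin_of_lt_of_le_pi_div_two (by linarith) (by linarith) (by linarith)
  rwa [Real.sin_pi_div_six] at this

theorem Num_k : 1 < 1 / (2 * Real.sin (π / 7)) := by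
  rw [lt_div_iff₀ (by linarith [Num_sin_pos])]
  linarith [Num_sin_lt]

theorem ea_pos : 0 < ea := by
  unfold ea
  have : 0 < Real.arsinh (Real.sqrt ((1 / (2 * Real.sin (π / 7))) ^ 2 - 1)) := by
    rw [Real.arsinh_pos_iff]
    apply Real.sqrt_pos.2
    nlinarith [Num_k]
  linarith

theorem cosh_half_ea : Real.cosh (ea / 2) = 1 / (2 * Real.sin (π / 7)) := by
  have h : ea / 2 = Real.arsinh (Real.sqrt ((1 / (2 * Real.sin (π / 7))) ^ 2 - 1)) := by
    unfold ea
    ring
  have hk := Num_k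
  rw [h, Real.cosh_arsinh, Real.sq_sqrt (by nlinarith)]
  have : 1 + ((1 / (2 * Real.sin (π / 7))) ^ 2 - 1) = (1 / (2 * Real.sin (π / 7))) ^ 2 := by ring
  rw [this, Real.sqrt_sq (by linarith)]

theorem Num_cosAa_sin : Real.cos Aa = 1 - 2 * Real.sin (π / 7) ^ 2 := by
  have : Aa = 2 * (π / 7) := by
    unfold Aa
    ring
  rw [this, Real.cos_two_mul, Real.cos_sq']
  ring

theorem Cc_eq : Cc = Real.cos Aa / (1 - Real.cos Aa) := by
  have h1 : Cc = 2 * Real.cosh (ea / 2) ^ 2 - 1 := by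
    have h2 : ea = 2 * (ea / 2) := by ring
    unfold Cc
    conv_lhs => rw [h2]
    rw [Real.cosh_two_mul, Real.sinh_sq]
    ring
  have hs := Num_sin_pos
  rw [h1, cosh_half_ea, Num_cosAa_sin]
  field_simp
  ring

theorem cosAa_eq : Real.cos Aa = Cc / (Cc + 1) := by
  have h := Num_cos_lt_one
  have h1 : (1 - Real.cos Aa) ≠ 0 := by linarith
  rw [Cc_eq]
  field_simp
  ring

theorem Num_Cc_fine : 1.65596 < Cc ∧ Cc < 1.65598 := by
  have h := Num_cos_fine
  have h1 : 0 < 1 - Real.cos Aa := by linarith [h.2]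
  rw [Cc_eq]
  constructor
  · rw [lt_div_iff₀ h1]
    linarith [h.1]
  · rw [div_lt_iff₀ h1]
    linarith [h.2]

theorem Cc_bounds : 1.6559 < Cc ∧ Cc < 1.656 := by
  have h := Num_Cc_fine
  constructor <;> linarith [h.1, h.2]

theorem Sc_pos : 0 < Sc := Real.sinh_pos_iff.2 ea_pos

theorem Sc_sq : Sc ^ 2 = Cc ^ 2 - 1 := by
  unfold Sc Cc
  rw [Real.sinh_sq]

theorem Num_Sc_fine : 1.3199 < Sc ∧ Sc < 1.32 := by
  have h := Num_Cc_fine
  have h2 := Sc_sq
  have h3 := Sc_pos
  constructor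
  · by_contra hcon
    push Not at hcon
    nlinarith [h.1]
  · by_contra hcon
    push Not at hcon
    nlinarith [h.2, h.1]

theorem Sc_bounds : 1.3198 < Sc ∧ Sc < 1.32 := by
  have h := Num_Sc_fine
  constructor <;> linarith [h.1, h.2]

theorem exp_ea : Real.exp ea = Cc + Sc := by
  unfold Cc Sc
  rw [Real.cosh_add_sinh]

theorem ea_bounds : 1.0905 < ea ∧ ea < 1.0906 := by
  have hC := Num_Cc_fine
  have hS := Num_Sc_fine
  have he := exp_ea
  have h1 := Real.exp_one_gt_d9
  have h2 := Real.exp_one_lt_d9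
  constructor
  · rw [← Real.exp_lt_exp, he]
    have h3 : Real.exp 1.0905 = Real.exp 1 * Real.exp 0.0905 := by
      rw [← Real.exp_add]
      norm_num
    have h4 : Real.exp 0.0905 ≤ 1.09473 := by
      have := Real.exp_bound' (x := 0.0905) (by norm_num) (by norm_num) (n := 4) (by norm_num)
      refine this.trans ?_
      norm_num [Finset.sum_range_succ, Nat.factorial]
    have h5 : 0 < Real.exp 0.0905 := Real.exp_pos _
    rw [h3]
    nlinarith [hC.1, hS.1]
  · rw [← Real.exp_lt_exp, he]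
    have h3 : Real.exp 1.0906 = Real.exp 1 * Real.exp 0.0906 := by
      rw [← Real.exp_add]
      norm_num
    have h4 : 1.094828 ≤ Real.exp 0.0906 := by
      have := Real.sum_le_exp_of_nonneg (x := 0.0906) (by norm_num) 4
      refine le_trans ?_ this
      norm_num [Finset.sum_range_succ, Nat.factorial]
    rw [h3]
    nlinarith [hC.2, hS.2]

/-- tanh (ea/2) = 0.49697, cos (3 Aa / 2) = 0.22252 -/
theorem cos_three_half : Real.cos (3 * Aa / 2) < (Cc - 1) / Sc := by
  have hC := Num_Cc_fine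
  have hS := Num_Sc_fine
  have h1 : Real.cos (3 * Aa / 2) = Real.sin (π / 14) := by
    have : 3 * Aa / 2 = π / 2 - π / 14 := by
      unfold Aa
      ring
    rw [this, Real.cos_pi_div_two_sub]
  have h2 : Real.sin (π / 14) < π / 14 := Real.sin_lt (by linarith [Real.pi_pos])
  have h3 := Real.pi_lt_d2
  rw [h1, lt_div_iff₀ Sc_pos]
  have h4 : 0 < Real.sin (π / 14) :=
    Real.sin_pos_of_pos_of_lt_pi (by linarith [Real.pi_pos]) (by linarith [Real.pi_pos])
  nlinarith [hC.1, hS.2]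

theorem Sc_cosAa_half : Sc * Real.cos (Aa / 2) = Real.sinh ea * Real.cos (π / 7) := by
  have : Aa / 2 = π / 7 := by
    unfold Aa
    ring
  rw [this]
  rfl

end Pool.Agent.H78.SS
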