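import Pool.Agent.H78.SS.Hyp
import Pool.Agent.H78.SS.Ari

/-! ORB: the generators of the triangle group. Gen k ρ collects the two generators of the frozen statement.
cosh R = cos(pi/7)/(sqrt 3 sin(pi/7)) and E = exp R (R = circumradius of the triangle). In the coordinates
(h0,h1,h2) = ((p+r)/2, (p-r)/2, q): I = (1,0,0), k rotates (h1,h2) by the angle Aa, rho I = (Cc, Sc cos(pi/7), -Sc sin(pi/7)),
rho^2 I = (Cc, Sc cos(pi/7), Sc sin(pi/7)) = k rho I and k rho^2 I = t1 (I + rho^2 I) - rho I as vectors.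
(E + 1/E = 2 cosh R; (3/8)(E^2 - 1/E^2) = Sc cos(pi/7); (sqrt 3/4)(E - 1/E) = Sc sin(pi/7).)
coord: induction over the group (closure_induction with x in {k, rho} acting on the left, also inverses), using linearity of
(pz, qz, rz) under the action. orb_gap: cosh dist I (gI) = (pz + rz)/2 = c0 + Cc (c1 + c2), Cc = t1/(2-t1), and good_gap. -/

set_option autoImplicit false

namespace Pool.Agent.H78.SS

open Real UpperHalfPlane

/-- the generators in the form of the frozen statement -/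
structure Gen (k ρ : Matrix.SpecialLinearGroup (Fin 2) ℝ) : Prop where
  hk : (k : Matrix (Fin 2) (Fin 2) ℝ) =
    !![Real.cos (π / 7), -Real.sin (π / 7); Real.sin (π / 7), Real.cos (π / 7)]
  hρ : ∃ E : ℝ, E = Real.cos (π / 7) / (Real.sqrt 3 * Real.sin (π / 7)) +
        Real.sqrt ((Real.cos (π / 7) / (Real.sqrt 3 * Real.sin (π / 7))) ^ 2 - 1) ∧
    (ρ : Matrix (Fin 2) (Fin 2) ℝ) = !![1 / 2, -(Real.sqrt 3 / 2) * E; (Real.sqrt 3 / 2) / E, 1 / 2]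

variable {k ρ : Matrix.SpecialLinearGroup (Fin 2) ℝ}

/-- `(p, q, r)` of `z` is the combination with coefficients `a, b, c` of those of `z0, z1, z2` -/
def ORBLin (a b c : ℝ) (z z0 z1 z2 : ℍ) : Prop :=
  pz z = a * pz z0 + b * pz z1 + c * pz z2 ∧
  qz z = a * qz z0 + b * qz z1 + c * qz z2 ∧
  rz z = a * rz z0 + b * rz z1 + c * rz z2

theorem ORBLin_smul {a b c : ℝ} {z z0 z1 z2 : ℍ} (h : ORBLin a b c z z0 z1 z2)
    (g : Matrix.SpecialLinearGroup (Fin 2) ℝ) :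
    ORBLin a b c (g • z) (g • z0) (g • z1) (g • z2) := by
  obtain ⟨h1, h2, h3⟩ := h
  refine ⟨?_, ?_, ?_⟩
  · simp only [pz_smul, h1, h2, h3]; ring
  · simp only [qz_smul, h1, h2, h3]; ring
  · simp only [rz_smul, h1, h2, h3]; ring

theorem ORB_sin_pos : 0 < Real.sin (π / 7) := by
  apply Real.sin_pos_of_pos_of_lt_pi
  · positivity
  · have := Real.pi_pos
    linarith

theorem ORB_cos_pos : 0 < Real.cos (π / 7) := by
  apply Real.cos_pos_of_mem_Ioo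
  have := Real.pi_pos
  constructor <;> linarith

theorem ORB_Aa : Aa = 2 * (π / 7) := by
  unfold Aa; ring

theorem ORB_cosAa : Real.cos Aa = Real.cos (π / 7) ^ 2 - Real.sin (π / 7) ^ 2 := by
  rw [ORB_Aa, Real.cos_two_mul, Real.sin_sq]; ring

theorem ORB_sinAa : Real.sin Aa = 2 * Real.sin (π / 7) * Real.cos (π / 7) := by
  rw [ORB_Aa, Real.sin_two_mul]

theorem ORB_Cc : 2 * Real.sin (π / 7) ^ 2 * (Cc + 1) = 1 := by
  have h1 := Cc_eq
  have h2 := ORB_cosAa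
  have h3 := Real.sin_sq_add_cos_sq (π / 7)
  have h4 := ORB_sin_pos
  have h5 : 1 - Real.cos Aa = 2 * Real.sin (π / 7) ^ 2 := by rw [h2]; linarith
  rw [h5] at h1
  have h6 : 2 * Real.sin (π / 7) ^ 2 ≠ 0 := by positivity
  have h7 : Cc * (2 * Real.sin (π / 7) ^ 2) = Real.cos Aa := by
    rw [h1]; field_simp
  linarith

/-- cosh of the circumradius -/
noncomputable def ORBq : ℝ := Real.cos (π / 7) / (Real.sqrt 3 * Real.sin (π / 7))

theorem ORBq_sq : 3 * Real.sin (π / 7) ^ 2 * ORBq ^ 2 = Real.cos (π / 7) ^ 2 := by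
  have h4 := ORB_sin_pos
  have h5 : Real.sqrt 3 ^ 2 = 3 := Real.sq_sqrt (by norm_num)
  have h6 : Real.sqrt 3 ≠ 0 := by positivity
  unfold ORBq
  rw [div_pow, mul_pow, h5]
  field_simp

theorem ORBq_pos : 0 < ORBq := by
  have := ORB_sin_pos
  have := ORB_cos_pos
  unfold ORBq
  positivity

theorem ORB_Sc_sq : (Sc * Real.sin (π / 7)) ^ 2 = 3 / 4 * (ORBq ^ 2 - 1) := by
  have h1 := Sc_sq
  have h2 := ORB_Cc
  have h3 := ORBq_sq
  have h4 := ORB_sin_pos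
  have h5 := Real.sin_sq_add_cos_sq (π / 7)
  have h6 : 0 < Real.sin (π / 7) ^ 2 := by positivity
  apply mul_left_cancel₀ (ne_of_gt h6)
  rw [mul_pow, h1]
  nlinarith [h2, h3, h5]

theorem ORBq_ge : 0 ≤ ORBq ^ 2 - 1 := by
  have h := ORB_Sc_sq
  nlinarith [sq_nonneg (Sc * Real.sin (π / 7))]

/-- facts on `E` -/
theorem ORB_E {E : ℝ} (hE : E = Real.cos (π / 7) / (Real.sqrt 3 * Real.sin (π / 7)) +
        Real.sqrt ((Real.cos (π / 7) / (Real.sqrt 3 * Real.sin (π / 7))) ^ 2 - 1)) :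
    0 < E ∧ E + 1 / E = 2 * ORBq ∧ Real.sqrt 3 / 4 * (E - 1 / E) = Sc * Real.sin (π / 7) := by
  change E = ORBq + Real.sqrt (ORBq ^ 2 - 1) at hE
  have h1 := ORBq_ge
  have h2 := ORBq_pos
  set w := Real.sqrt (ORBq ^ 2 - 1) with hw
  have h3 : w ^ 2 = ORBq ^ 2 - 1 := Real.sq_sqrt h1
  have h4 : 0 ≤ w := Real.sqrt_nonneg _
  have h5 : 0 < E := by rw [hE]; linarith
  have h6 : 1 / E = ORBq - w := by
    rw [div_eq_iff (ne_of_gt h5), hE]
    nlinarith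
  refine ⟨h5, ?_, ?_⟩
  · rw [h6, hE]; ring
  · have h7 : E - 1 / E = 2 * w := by rw [h6, hE]; ring
    rw [h7]
    have h8 : 0 ≤ Sc * Real.sin (π / 7) := mul_nonneg Sc_pos.le ORB_sin_pos.le
    have h9 : 0 ≤ Real.sqrt 3 / 4 * (2 * w) := by positivity
    have h10 : (Real.sqrt 3 / 4 * (2 * w)) ^ 2 = (Sc * Real.sin (π / 7)) ^ 2 := by
      have h11 : Real.sqrt 3 ^ 2 = 3 := Real.sq_sqrt (by norm_num)
      rw [ORB_Sc_sq, ← h3]
      nlinarith
    exact (sq_eq_sq₀ h9 h8).1 h10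

theorem ORB_k00 (h : Gen k ρ) : k 0 0 = Real.cos (π / 7) := by
  have := congrFun (congrFun h.hk 0) 0
  simpa using this
theorem ORB_k01 (h : Gen k ρ) : k 0 1 = -Real.sin (π / 7) := by
  have := congrFun (congrFun h.hk 0) 1
  simpa using this
theorem ORB_k10 (h : Gen k ρ) : k 1 0 = Real.sin (π / 7) := by
  have := congrFun (congrFun h.hk 1) 0
  simpa using this
theorem ORB_k11 (h : Gen k ρ) : k 1 1 = Real.cos (π / 7) := by
  have := congrFun (congrFun h.hk 1) 1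
  simpa using this

/-- entries of `ρ` -/
theorem ORB_rho (h : Gen k ρ) : ∃ E : ℝ, 0 < E ∧ E + 1 / E = 2 * ORBq ∧
    Real.sqrt 3 / 4 * (E - 1 / E) = Sc * Real.sin (π / 7) ∧
    ρ 0 0 = 1 / 2 ∧ ρ 0 1 = -(Real.sqrt 3 / 2) * E ∧ ρ 1 0 = (Real.sqrt 3 / 2) / E ∧
    ρ 1 1 = 1 / 2 := by
  obtain ⟨E, hE, hρ⟩ := h.hρ
  obtain ⟨h1, h2, h3⟩ := ORB_E hE
  refine ⟨E, h1, h2, h3, ?_, ?_, ?_, ?_⟩
  · simpa using congrFun (congrFun hρ 0) 0
  · simpa using congrFun (congrFun hρ 0) 1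
  · simpa using congrFun (congrFun hρ 1) 0
  · simpa using congrFun (congrFun hρ 1) 1

theorem ORB_k_pow (h : Gen k ρ) (n : ℕ) : ((k ^ n : Matrix.SpecialLinearGroup (Fin 2) ℝ) :
    Matrix (Fin 2) (Fin 2) ℝ) =
    !![Real.cos (n * (π / 7)), -Real.sin (n * (π / 7));
      Real.sin (n * (π / 7)), Real.cos (n * (π / 7))] := by
  induction n with
  | zero => simp [Matrix.one_fin_two]
  | succ n ih =>
    rw [pow_succ, Matrix.SpecialLinearGroup.coe_mul, ih, h.hk, Matrix.mul_fin_two]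
    have e : ((n + 1 : ℕ) : ℝ) * (π / 7) = n * (π / 7) + π / 7 := by push_cast; ring
    rw [e, Real.cos_add, Real.sin_add]
    ext i j
    fin_cases i <;> fin_cases j <;> simp <;> ring

theorem k_pow_seven (h : Gen k ρ) (z : ℍ) : (k ^ 7) • z = z := by
  have h1 := ORB_k_pow h 7
  have e : ((7 : ℕ) : ℝ) * (π / 7) = π := by push_cast; ring
  rw [e, Real.cos_pi, Real.sin_pi] at h1
  have a00 : (k ^ 7 : Matrix.SpecialLinearGroup (Fin 2) ℝ) 0 0 = -1 := by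
    simpa using congrFun (congrFun h1 0) 0
  have a01 : (k ^ 7 : Matrix.SpecialLinearGroup (Fin 2) ℝ) 0 1 = 0 := by
    simpa using congrFun (congrFun h1 0) 1
  have a10 : (k ^ 7 : Matrix.SpecialLinearGroup (Fin 2) ℝ) 1 0 = 0 := by
    simpa using congrFun (congrFun h1 1) 0
  have a11 : (k ^ 7 : Matrix.SpecialLinearGroup (Fin 2) ℝ) 1 1 = -1 := by
    simpa using congrFun (congrFun h1 1) 1
  apply pqr_ext
  · rw [pz_smul, a00, a01]; ring
  · rw [qz_smul, a00, a01, a10, a11]; ring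
  · rw [rz_smul, a10, a11]; ring

theorem ORB_sqrt3 : Real.sqrt 3 * Real.sqrt 3 = 3 := Real.mul_self_sqrt (by norm_num)

theorem ORB_det (h : Gen k ρ) : ρ 0 1 * ρ 1 0 = -3 / 4 := by
  obtain ⟨E, hE, _, _, _, h01, h10, _⟩ := ORB_rho h
  rw [h01, h10]
  have h3 := ORB_sqrt3
  field_simp
  nlinarith

theorem ORB_rho2 (h : Gen k ρ) : (ρ ^ 2 : Matrix.SpecialLinearGroup (Fin 2) ℝ) 0 0 = -1 / 2 ∧
    (ρ ^ 2 : Matrix.SpecialLinearGroup (Fin 2) ℝ) 0 1 = ρ 0 1 ∧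
    (ρ ^ 2 : Matrix.SpecialLinearGroup (Fin 2) ℝ) 1 0 = ρ 1 0 ∧
    (ρ ^ 2 : Matrix.SpecialLinearGroup (Fin 2) ℝ) 1 1 = -1 / 2 := by
  have hd := ORB_det h
  obtain ⟨E, hE, _, _, h00, h01, h10, h11⟩ := ORB_rho h
  have e : ∀ i j : Fin 2, (ρ ^ 2 : Matrix.SpecialLinearGroup (Fin 2) ℝ) i j =
      ρ i 0 * ρ 0 j + ρ i 1 * ρ 1 j := by
    intro i j
    rw [pow_two]
    simp [Matrix.mul_apply, Fin.sum_univ_two]
  refine ⟨?_, ?_, ?_, ?_⟩
  · rw [e, h00]; linarith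
  · rw [e, h00, h11]; ring
  · rw [e, h00, h11]; ring
  · rw [e, h11, mul_comm (ρ 1 0)]; linarith

theorem rho_cube (h : Gen k ρ) (z : ℍ) : (ρ ^ 3) • z = z := by
  have hd := ORB_det h
  obtain ⟨g00, g01, g10, g11⟩ := ORB_rho2 h
  obtain ⟨E, hE, _, _, h00, h01, h10, h11⟩ := ORB_rho h
  have e : ∀ i j : Fin 2, (ρ ^ 3 : Matrix.SpecialLinearGroup (Fin 2) ℝ) i j =
      (ρ ^ 2 : Matrix.SpecialLinearGroup (Fin 2) ℝ) i 0 * ρ 0 j +
      (ρ ^ 2 : Matrix.SpecialLinearGroup (Fin 2) ℝ) i 1 * ρ 1 j := by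
    intro i j
    rw [pow_succ ρ 2]
    simp [Matrix.mul_apply, Fin.sum_univ_two]
  have a00 : (ρ ^ 3 : Matrix.SpecialLinearGroup (Fin 2) ℝ) 0 0 = -1 := by
    rw [e, g00, g01, h00]; linarith
  have a01 : (ρ ^ 3 : Matrix.SpecialLinearGroup (Fin 2) ℝ) 0 1 = 0 := by
    rw [e, g00, g01, h11]; ring
  have a10 : (ρ ^ 3 : Matrix.SpecialLinearGroup (Fin 2) ℝ) 1 0 = 0 := by
    rw [e, g10, g11, h00]; ring
  have a11 : (ρ ^ 3 : Matrix.SpecialLinearGroup (Fin 2) ℝ) 1 1 = -1 := by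
    rw [e, g10, g11, h11, mul_comm (ρ 1 0)]; linarith
  apply pqr_ext
  · rw [pz_smul, a00, a01]; ring
  · rw [qz_smul, a00, a01, a10, a11]; ring
  · rw [rz_smul, a10, a11]; ring

theorem k_I (h : Gen k ρ) : k • UpperHalfPlane.I = UpperHalfPlane.I := by
  obtain ⟨p1, q1, r1⟩ := pqr_I
  have h5 := Real.sin_sq_add_cos_sq (π / 7)
  apply pqr_ext
  · rw [pz_smul, ORB_k00 h, ORB_k01 h, p1, q1, r1]; linarith
  · rw [qz_smul, ORB_k00 h, ORB_k01 h, ORB_k10 h, ORB_k11 h, p1, q1, r1]; ring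
  · rw [rz_smul, ORB_k10 h, ORB_k11 h, p1, q1, r1]; linarith

/-- rho I in the coordinates p, q, r -/
theorem rho_I (h : Gen k ρ) :
    pz (ρ • UpperHalfPlane.I) = Cc + Sc * Real.cos (π / 7) ∧
    qz (ρ • UpperHalfPlane.I) = - (Sc * Real.sin (π / 7)) ∧
    rz (ρ • UpperHalfPlane.I) = Cc - Sc * Real.cos (π / 7) := by
  obtain ⟨p1, q1, r1⟩ := pqr_I
  obtain ⟨E, hE, hE1, hE2, h00, h01, h10, h11⟩ := ORB_rho h
  have h3 := ORB_sqrt3
  have h4 := ORB_sin_pos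
  have hE0 : E ≠ 0 := ne_of_gt hE
  set F := 1 / E with hF
  have hEF : E * F = 1 := by rw [hF]; field_simp
  have hdiv : Real.sqrt 3 / 2 / E = Real.sqrt 3 / 2 * F := by rw [hF]; ring
  rw [hdiv] at h10
  -- two identities
  have hC : 1 / 4 + 3 / 8 * (E ^ 2 + F ^ 2) = Cc := by
    have a1 : E ^ 2 + F ^ 2 = 4 * ORBq ^ 2 - 2 := by
      have : (E + F) ^ 2 = (2 * ORBq) ^ 2 := by rw [hE1]
      nlinarith
    have a2 := ORBq_sq
    have a3 := ORB_Cc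
    have a4 := Real.sin_sq_add_cos_sq (π / 7)
    have h6 : 0 < Real.sin (π / 7) ^ 2 := by positivity
    apply mul_left_cancel₀ (ne_of_gt h6)
    rw [a1]
    nlinarith
  have hS : 3 / 8 * (E ^ 2 - F ^ 2) = Sc * Real.cos (π / 7) := by
    have b1 : Real.sqrt 3 * ORBq * Real.sin (π / 7) = Real.cos (π / 7) := by
      unfold ORBq
      have : Real.sqrt 3 ≠ 0 := by positivity
      field_simp
    have b2 : E ^ 2 - F ^ 2 = (E + F) * (E - F) := by ring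
    rw [b2, hE1, ← b1]
    have b3 : Sc * (Real.sqrt 3 * ORBq * Real.sin (π / 7)) =
        Real.sqrt 3 * ORBq * (Sc * Real.sin (π / 7)) := by ring
    rw [b3, ← hE2]
    linear_combination (-ORBq * (E - F) / 4) * h3
  refine ⟨?_, ?_, ?_⟩
  · rw [pz_smul, h00, h01, p1, q1, r1, ← hC, ← hS]
    linear_combination (E ^ 2 / 4) * h3
  · rw [qz_smul, h00, h01, h10, h11, p1, q1, r1, ← hE2]
    ring
  · rw [rz_smul, h10, h11, p1, q1, r1, ← hC, ← hS]
    linear_combination (F ^ 2 / 4) * h3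

/-- k acts as rotation by Aa on ((p-r)/2, q) and fixes (p+r)/2 -/
theorem k_rot (h : Gen k ρ) (z : ℍ) :
    pz (k • z) + rz (k • z) = pz z + rz z ∧
    (pz (k • z) - rz (k • z)) / 2 = Real.cos Aa * ((pz z - rz z) / 2) - Real.sin Aa * qz z ∧
    qz (k • z) = Real.sin Aa * ((pz z - rz z) / 2) + Real.cos Aa * qz z := by
  have h5 := Real.sin_sq_add_cos_sq (π / 7)
  rw [pz_smul, qz_smul, rz_smul, ORB_k00 h, ORB_k01 h, ORB_k10 h, ORB_k11 h, ORB_cosAa, ORB_sinAa]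
  refine ⟨?_, ?_, ?_⟩
  · linear_combination (pz z + rz z) * h5
  · ring
  · ring

theorem ORB_rhorho (h : Gen k ρ) :
    pz (ρ • ρ • UpperHalfPlane.I) = Cc + Sc * Real.cos (π / 7) ∧
    qz (ρ • ρ • UpperHalfPlane.I) = Sc * Real.sin (π / 7) ∧
    rz (ρ • ρ • UpperHalfPlane.I) = Cc - Sc * Real.cos (π / 7) := by
  obtain ⟨p1, q1, r1⟩ := pqr_I
  obtain ⟨g00, g01, g10, g11⟩ := ORB_rho2 h
  obtain ⟨E, hE, hE1, hE2, h00, h01, h10, h11⟩ := ORB_rho h
  obtain ⟨i1, i2, i3⟩ := rho_I h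
  have e : ρ • ρ • UpperHalfPlane.I = (ρ ^ 2) • UpperHalfPlane.I := by
    rw [pow_two, mul_smul]
  rw [pz_smul, p1, q1, r1, h00] at i1
  rw [qz_smul, p1, q1, r1, h00, h11] at i2
  rw [rz_smul, p1, q1, r1, h11] at i3
  rw [e]
  refine ⟨?_, ?_, ?_⟩
  · rw [pz_smul, p1, q1, r1, g00, g01]; linarith
  · rw [qz_smul, p1, q1, r1, g00, g01, g10, g11]; linarith
  · rw [rz_smul, p1, q1, r1, g10, g11]; linarith

theorem rho_rho_I (h : Gen k ρ) : ρ • ρ • UpperHalfPlane.I = k • ρ • UpperHalfPlane.I := by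
  obtain ⟨a1, a2, a3⟩ := ORB_rhorho h
  obtain ⟨b1, b2, b3⟩ := rho_I h
  obtain ⟨c1, c2, c3⟩ := k_rot h (ρ • UpperHalfPlane.I)
  rw [b1, b3] at c1
  rw [b1, b2, b3] at c2 c3
  have h5 := Real.sin_sq_add_cos_sq (π / 7)
  rw [ORB_cosAa, ORB_sinAa] at c2 c3
  apply pqr_ext
  · rw [a1]
    linear_combination (-Sc * Real.cos (π / 7)) * h5 - c1 / 2 - c2
  · rw [a2]
    linear_combination (-Sc * Real.sin (π / 7)) * h5 - c3
  · rw [a3]
    linear_combination (Sc * Real.cos (π / 7)) * h5 - c1 / 2 + c2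

/-- `k ρ² I = t₁ I - ρ I + t₁ ρ² I` -/
theorem ORB_kk (h : Gen k ρ) : ORBLin t1 (-1) t1 (k • ρ • ρ • UpperHalfPlane.I) UpperHalfPlane.I
    (ρ • UpperHalfPlane.I) (ρ • ρ • UpperHalfPlane.I) := by
  obtain ⟨p1, q1, r1⟩ := pqr_I
  obtain ⟨a1, a2, a3⟩ := ORB_rhorho h
  obtain ⟨b1, b2, b3⟩ := rho_I h
  obtain ⟨c1, c2, c3⟩ := k_rot h (ρ • ρ • UpperHalfPlane.I)
  rw [a1, a3] at c1
  rw [a1, a2, a3] at c2 c3
  have h5 := Real.sin_sq_add_cos_sq (π / 7)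
  have h6 := Cc_eq
  have h7 : (1 - Real.cos Aa) ≠ 0 := by
    have := cosAa_bounds
    have h9 : 0 < 1 - Real.cos Aa := by linarith [this.2]
    exact ne_of_gt h9
  have h8 : Cc * (1 - Real.cos Aa) = Real.cos Aa := by
    rw [h6]; field_simp
  unfold ORBLin t1
  rw [p1, q1, r1, a1, a2, a3, b1, b2, b3]
  rw [ORB_cosAa] at h8
  rw [ORB_cosAa, ORB_sinAa] at c2 c3
  rw [ORB_cosAa]
  refine ⟨?_, ?_, ?_⟩
  · linear_combination c1 / 2 + c2 + 2 * h8 - Sc * Real.cos (π / 7) * h5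
  · linear_combination c3 + Sc * Real.sin (π / 7) * h5
  · linear_combination c1 / 2 - c2 + 2 * h8 + Sc * Real.cos (π / 7) * h5

theorem ORB_kinv_I (h : Gen k ρ) : k⁻¹ • UpperHalfPlane.I = UpperHalfPlane.I := by
  conv_lhs => rw [← k_I h]
  rw [inv_smul_smul]

theorem ORB_kinv_rhorho (h : Gen k ρ) : k⁻¹ • ρ • ρ • UpperHalfPlane.I = ρ • UpperHalfPlane.I := by
  rw [rho_rho_I h, inv_smul_smul]

/-- `k⁻¹ ρ I = t₁ I + t₁ ρ I - ρ² I` -/
theorem ORB_kinv (h : Gen k ρ) : ORBLin t1 t1 (-1) (k⁻¹ • ρ • UpperHalfPlane.I) UpperHalfPlane.I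
    (ρ • UpperHalfPlane.I) (ρ • ρ • UpperHalfPlane.I) := by
  obtain ⟨h1, h2, h3⟩ := ORBLin_smul (ORB_kk h) k⁻¹
  rw [inv_smul_smul, ORB_kinv_I h, ORB_kinv_rhorho h] at h1 h2 h3
  refine ⟨?_, ?_, ?_⟩
  · linear_combination h1
  · linear_combination h2
  · linear_combination h3

theorem ORB_rinv_I (h : Gen k ρ) : ρ⁻¹ • UpperHalfPlane.I = ρ • ρ • UpperHalfPlane.I := by
  rw [inv_smul_eq_iff]
  have h1 := rho_cube h UpperHalfPlane.I
  rw [pow_succ, pow_two, mul_smul, mul_smul] at h1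
  exact h1.symm

theorem ORB_rrr (h : Gen k ρ) : ρ • ρ • ρ • UpperHalfPlane.I = UpperHalfPlane.I := by
  have h1 := rho_cube h UpperHalfPlane.I
  rw [pow_succ, pow_two, mul_smul, mul_smul] at h1
  exact h1

/-- substitution of combinations -/
theorem ORBLin_subst {a b c a0 b0 c0 a1 b1 c1 a2 b2 c2 : ℝ} {z z0 z1 z2 e0 e1 e2 : ℍ}
    (h : ORBLin a b c z z0 z1 z2) (h0 : ORBLin a0 b0 c0 z0 e0 e1 e2)
    (h1 : ORBLin a1 b1 c1 z1 e0 e1 e2) (h2 : ORBLin a2 b2 c2 z2 e0 e1 e2) :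
    ORBLin (a * a0 + b * a1 + c * a2) (a * b0 + b * b1 + c * b2) (a * c0 + b * c1 + c * c2)
      z e0 e1 e2 := by
  obtain ⟨x1, x2, x3⟩ := h
  obtain ⟨u1, u2, u3⟩ := h0
  obtain ⟨v1, v2, v3⟩ := h1
  obtain ⟨w1, w2, w3⟩ := h2
  refine ⟨?_, ?_, ?_⟩
  · rw [x1, u1, v1, w1]; ring
  · rw [x2, u2, v2, w2]; ring
  · rw [x3, u3, v3, w3]; ring

theorem ORBLin_e0 (e0 e1 e2 : ℍ) : ORBLin 1 0 0 e0 e0 e1 e2 := by
  refine ⟨?_, ?_, ?_⟩ <;> ring
theorem ORBLin_e1 (e0 e1 e2 : ℍ) : ORBLin 0 1 0 e1 e0 e1 e2 := by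
  refine ⟨?_, ?_, ?_⟩ <;> ring
theorem ORBLin_e2 (e0 e1 e2 : ℍ) : ORBLin 0 0 1 e2 e0 e1 e2 := by
  refine ⟨?_, ?_, ?_⟩ <;> ring

/-- integral coordinates of the points of the orbit -/
theorem coord (h : Gen k ρ) (g : Matrix.SpecialLinearGroup (Fin 2) ℝ)
    (hg : g ∈ Subgroup.closure ({k, ρ} : Set (Matrix.SpecialLinearGroup (Fin 2) ℝ))) :
    ∃ c : Fin 3 → ℝ × ℝ × ℝ, GoodV c ∧
      pz (g • UpperHalfPlane.I) = (c 0).1 * pz UpperHalfPlane.I + (c 1).1 * pz (ρ • UpperHalfPlane.I)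
        + (c 2).1 * pz (ρ • ρ • UpperHalfPlane.I) ∧
      qz (g • UpperHalfPlane.I) = (c 0).1 * qz UpperHalfPlane.I + (c 1).1 * qz (ρ • UpperHalfPlane.I)
        + (c 2).1 * qz (ρ • ρ • UpperHalfPlane.I) ∧
      rz (g • UpperHalfPlane.I) = (c 0).1 * rz UpperHalfPlane.I + (c 1).1 * rz (ρ • UpperHalfPlane.I)
        + (c 2).1 * rz (ρ • ρ • UpperHalfPlane.I) := by
  have key : ∃ c : Fin 3 → ℝ × ℝ × ℝ, GoodV c ∧ ORBLin (c 0).1 (c 1).1 (c 2).1
      (g • UpperHalfPlane.I) UpperHalfPlane.I (ρ • UpperHalfPlane.I)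
      (ρ • ρ • UpperHalfPlane.I) := by
    induction hg using Subgroup.closure_induction_left with
    | one =>
      refine ⟨_, good_base, ?_⟩
      rw [one_smul]
      simpa using ORBLin_e0 UpperHalfPlane.I (ρ • UpperHalfPlane.I) (ρ • ρ • UpperHalfPlane.I)
    | mul_left x hx y _ ih =>
      obtain ⟨c, hc, hL⟩ := ih
      have hL' := ORBLin_smul hL x
      rcases hx with rfl | hx
      · refine ⟨_, good_k hc, ?_⟩
        rw [k_I h, ← rho_rho_I h] at hL'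
        have h1 := ORBLin_subst hL' (ORBLin_e0 _ _ _) (ORBLin_e2 _ _ _) (ORB_kk h)
        rw [mul_smul]
        simp [tt]
        convert h1 using 1 <;> ring
      · rw [Set.mem_singleton_iff] at hx
        subst hx
        refine ⟨_, good_r hc, ?_⟩
        rw [ORB_rrr h] at hL'
        have h1 := ORBLin_subst hL' (ORBLin_e1 _ _ _) (ORBLin_e2 _ _ _) (ORBLin_e0 _ _ _)
        rw [mul_smul]
        simp
        convert h1 using 1 <;> ring
    | inv_mul_cancel x hx y _ ih =>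
      obtain ⟨c, hc, hL⟩ := ih
      have hL' := ORBLin_smul hL x⁻¹
      rcases hx with rfl | hx
      · refine ⟨_, good_k_inv hc, ?_⟩
        rw [ORB_kinv_I h, ORB_kinv_rhorho h] at hL'
        have h1 := ORBLin_subst hL' (ORBLin_e0 _ _ _) (ORB_kinv h) (ORBLin_e1 _ _ _)
        rw [mul_smul]
        simp [tt]
        convert h1 using 1 <;> ring
      · rw [Set.mem_singleton_iff] at hx
        subst hx
        refine ⟨_, good_r_inv hc, ?_⟩
        rw [ORB_rinv_I h, inv_smul_smul, inv_smul_smul] at hL'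
        have h1 := ORBLin_subst hL' (ORBLin_e2 _ _ _) (ORBLin_e0 _ _ _) (ORBLin_e1 _ _ _)
        rw [mul_smul]
        simp
        convert h1 using 1 <;> ring
  obtain ⟨c, hc, h1, h2, h3⟩ := key
  exact ⟨c, hc, h1, h2, h3⟩

theorem orb_gap (h : Gen k ρ) (g : Matrix.SpecialLinearGroup (Fin 2) ℝ)
    (hg : g ∈ Subgroup.closure ({k, ρ} : Set (Matrix.SpecialLinearGroup (Fin 2) ℝ))) :
    g • UpperHalfPlane.I = UpperHalfPlane.I ∨ ea ≤ dist UpperHalfPlane.I (g • UpperHalfPlane.I) := by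
  obtain ⟨c, hc, h1, h2, h3⟩ := coord h g hg
  obtain ⟨p1, q1, r1⟩ := pqr_I
  obtain ⟨a1, a2, a3⟩ := ORB_rhorho h
  obtain ⟨b1, b2, b3⟩ := rho_I h
  have hd := cosh_dist_pqr UpperHalfPlane.I (g • UpperHalfPlane.I)
  rw [p1, q1, r1, h1, h3, p1, r1, a1, a3, b1, b3] at hd
  have hd' : Real.cosh (dist UpperHalfPlane.I (g • UpperHalfPlane.I)) =
      (c 0).1 + Cc * ((c 1).1 + (c 2).1) := by
    rw [hd]; ring
  have h6 := Cc_eq
  have hb := cosAa_bounds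
  have h9 : 0 < 1 - Real.cos Aa := by linarith [hb.2]
  have h8 : Cc * (1 - Real.cos Aa) = Real.cos Aa := by
    rw [h6]; field_simp
  have h10 : (2 - t1) * (c 0).1 + t1 * ((c 1).1 + (c 2).1) =
      (2 - t1) * Real.cosh (dist UpperHalfPlane.I (g • UpperHalfPlane.I)) := by
    rw [hd']
    unfold t1
    linear_combination (-2 * ((c 1).1 + (c 2).1)) * h8
  have h11 : 0 < 2 - t1 := by unfold t1; linarith
  have h12 := Real.one_le_cosh (dist UpperHalfPlane.I (g • UpperHalfPlane.I))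
  rcases good_gap hc (by rw [h10]; nlinarith) with h13 | h13
  · left
    rw [h10] at h13
    have h14 : Real.cosh (dist UpperHalfPlane.I (g • UpperHalfPlane.I)) = 1 := by
      apply mul_left_cancel₀ (ne_of_gt h11)
      rw [h13, mul_one]
    have h17 : dist UpperHalfPlane.I (g • UpperHalfPlane.I) = 0 := by
      by_contra hne
      have := Real.one_lt_cosh.2 hne
      linarith
    exact (dist_eq_zero.1 h17).symm
  · right
    rw [h10] at h13
    have h15 : Cc ≤ Real.cosh (dist UpperHalfPlane.I (g • UpperHalfPlane.I)) := by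
      have h16 : (2 - t1) * Cc = t1 := by
        unfold t1; linear_combination 2 * h8
      exact le_of_mul_le_mul_left (h16.le.trans h13) h11
    unfold Cc at h15
    rw [Real.cosh_le_cosh, abs_of_pos ea_pos, abs_of_nonneg dist_nonneg] at h15
    exact h15

end Pool.Agent.H78.SS
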