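import Pool.Agent.H78.SS.Num

/-! TH1: basic facts on Th r q = arccos F, F = (cosh r cosh q - Cc)/(sinh r sinh q).
For 0 < r, q <= ea: F < 1 (as |r - q| < ea) and F > -1 iff r + q > ea.
dF/dr = (Cc cosh r - cosh q)/(sinh r ^2 sinh q), 1 - F^2 = Del/(sinh r sinh q)^2 with
Del = 1 + 2 Cc cosh r cosh q - Cc^2 - cosh r^2 - cosh q^2. -/

set_option autoImplicit false

namespace Pool.Agent.H78.SS

open Real

theorem Th_symm (r q : ℝ) : Th r q = Th q r := by
  unfold Th
  rw [mul_comm (Real.cosh r), mul_comm (Real.sinh r)]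

theorem Th_nonneg (r q : ℝ) : 0 ≤ Th r q := Real.arccos_nonneg _

theorem Th_le_pi (r q : ℝ) : Th r q ≤ π := Real.arccos_le_pi _

theorem Th_ea_ea : Th ea ea = Aa := by
  have hC := Cc_bounds
  have hS := Sc_sq
  have hSp := Sc_pos
  have h1 : (Real.cosh ea * Real.cosh ea - Cc) / (Real.sinh ea * Real.sinh ea) = Real.cos Aa := by
    rw [cosAa_eq]
    have e1 : Real.cosh ea = Cc := rfl
    have e2 : Real.sinh ea * Real.sinh ea = Cc ^ 2 - 1 := by
      rw [← hS]
      change Sc * Sc = Sc ^ 2
      ring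
    rw [e1, e2]
    have h3 : Cc ^ 2 - 1 ≠ 0 := by
      have : 0 < Cc ^ 2 - 1 := by rw [← hS]; positivity
      exact this.ne'
    have h4 : Cc + 1 ≠ 0 := by linarith
    rw [div_eq_div_iff h3 h4]
    ring
  unfold Th
  rw [h1, Real.arccos_cos]
  · have := Aa_bounds
    linarith
  · have h7 := Aa_seven
    have := Real.pi_pos
    linarith

/-- the angle between two points at distance at least ea is at least Th -/
theorem Th_gap (r q d del : ℝ) (hr : 0 < r) (hq : 0 < q) (hd : ea ≤ d)
    (hlaw : Real.cosh d = Real.cosh r * Real.cosh q - Real.sinh r * Real.sinh q * Real.cos del)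
    (h0 : 0 ≤ del) (h1 : del ≤ 2 * π) : Th r q ≤ del ∧ Th r q ≤ 2 * π - del := by
  have hsr : 0 < Real.sinh r := Real.sinh_pos_iff.mpr hr
  have hsq : 0 < Real.sinh q := Real.sinh_pos_iff.mpr hq
  have hea := ea_pos
  have hc : Cc ≤ Real.cosh d := by
    change Real.cosh ea ≤ Real.cosh d
    rw [Real.cosh_le_cosh, abs_of_pos hea, abs_of_pos (by linarith)]
    exact hd
  have hF : Real.cos del ≤ (Real.cosh r * Real.cosh q - Cc) / (Real.sinh r * Real.sinh q) := by
    rw [le_div_iff₀ (mul_pos hsr hsq)]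
    nlinarith
  have hT : Th r q ≤ Real.arccos (Real.cos del) := by
    unfold Th
    exact Real.arccos_le_arccos hF
  by_cases hp : del ≤ π
  · rw [Real.arccos_cos h0 hp] at hT
    exact ⟨hT, by linarith⟩
  · push Not at hp
    have e : Real.cos del = Real.cos (2 * π - del) := by
      rw [Real.cos_two_pi_sub]
    rw [e, Real.arccos_cos (by linarith) (by linarith)] at hT
    exact ⟨by linarith, hT⟩

/-- the discriminant -/
noncomputable def Del (u v : ℝ) : ℝ := 1 + 2 * Cc * u * v - Cc ^ 2 - u ^ 2 - v ^ 2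

theorem th1_Del_fac (r q : ℝ) : Del (Real.cosh r) (Real.cosh q) =
    (Cc - Real.cosh (r - q)) * (Real.cosh (r + q) - Cc) := by
  unfold Del
  rw [Real.cosh_sub, Real.cosh_add]
  have h1 := Real.cosh_sq r
  have h2 := Real.cosh_sq q
  have h3 : Real.sinh r ^ 2 = Real.cosh r ^ 2 - 1 := by linarith
  have h4 : Real.sinh q ^ 2 = Real.cosh q ^ 2 - 1 := by linarith
  linear_combination (-(Real.sinh q ^ 2)) * h3 - (Real.cosh r ^ 2 - 1) * h4

theorem Del_pos (r q : ℝ) (hr : 0 < r) (hr' : r ≤ ea) (hq : 0 < q) (hq' : q ≤ ea) (hs : ea < r + q) :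
    0 < Del (Real.cosh r) (Real.cosh q) := by
  have hea := ea_pos
  rw [th1_Del_fac]
  apply mul_pos
  · have : Real.cosh (r - q) < Cc := by
      change Real.cosh (r - q) < Real.cosh ea
      rw [Real.cosh_lt_cosh, abs_of_pos hea, abs_lt]
      constructor <;> linarith
    linarith
  · have : Cc < Real.cosh (r + q) := by
      change Real.cosh ea < Real.cosh (r + q)
      rw [Real.cosh_lt_cosh, abs_of_pos hea, abs_of_pos (by linarith)]
      exact hs
    linarith

theorem Th_hasDerivAt (r q : ℝ) (hr : 0 < r) (hr' : r ≤ ea) (hq : 0 < q) (hq' : q ≤ ea)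
    (hs : ea < r + q) :
    HasDerivAt (fun x => Th x q)
      (-((Cc * Real.cosh r - Real.cosh q) /
        (Real.sinh r * Real.sqrt (Del (Real.cosh r) (Real.cosh q))))) r := by
  have hsr : 0 < Real.sinh r := Real.sinh_pos_iff.mpr hr
  have hsq : 0 < Real.sinh q := Real.sinh_pos_iff.mpr hq
  have hD := Del_pos r q hr hr' hq hq' hs
  have hsqD : 0 < Real.sqrt (Del (Real.cosh r) (Real.cosh q)) := Real.sqrt_pos.mpr hD
  set F : ℝ → ℝ := fun x => (Real.cosh x * Real.cosh q - Cc) / (Real.sinh x * Real.sinh q) with hFdef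
  have hF : HasDerivAt F ((Cc * Real.cosh r - Real.cosh q) / (Real.sinh r ^ 2 * Real.sinh q)) r := by
    have hn : HasDerivAt (fun x => Real.cosh x * Real.cosh q - Cc) (Real.sinh r * Real.cosh q) r :=
      ((Real.hasDerivAt_cosh r).mul_const _).sub_const _
    have hd : HasDerivAt (fun x => Real.sinh x * Real.sinh q) (Real.cosh r * Real.sinh q) r :=
      (Real.hasDerivAt_sinh r).mul_const _
    have h := hn.div hd (mul_pos hsr hsq).ne'
    refine h.congr_deriv ?_
    have h3 : Real.sinh r ^ 2 = Real.cosh r ^ 2 - 1 := by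
      have := Real.cosh_sq r
      linarith
    have hsr0 := hsr.ne'
    have hsq0 := hsq.ne'
    rw [div_eq_div_iff (by positivity) (by positivity)]
    linear_combination (Real.sinh r ^ 2 * Real.sinh q ^ 2 * Real.cosh q) * h3
  have h1F : 1 - F r ^ 2 = Del (Real.cosh r) (Real.cosh q) / (Real.sinh r * Real.sinh q) ^ 2 := by
    have hsr0 := hsr.ne'
    have hsq0 := hsq.ne'
    have h3 : Real.sinh r ^ 2 = Real.cosh r ^ 2 - 1 := by
      have := Real.cosh_sq r
      linarith
    have h4 : Real.sinh q ^ 2 = Real.cosh q ^ 2 - 1 := by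
      have := Real.cosh_sq q
      linarith
    simp only [hFdef]
    rw [div_pow, eq_div_iff (by positivity), sub_mul, div_mul_cancel₀ _ (by positivity)]
    unfold Del
    linear_combination (Real.sinh q ^ 2) * h3 + (Real.cosh r ^ 2 - 1) * h4
  have h1Fp : 0 < 1 - F r ^ 2 := by
    rw [h1F]
    positivity
  have hne1 : F r ≠ -1 := by
    intro h
    rw [h] at h1Fp
    norm_num at h1Fp
  have hne2 : F r ≠ 1 := by
    intro h
    rw [h] at h1Fp
    norm_num at h1Fp
  have hA := (Real.hasDerivAt_arccos hne1 hne2).comp r hF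
  have hsqrt : Real.sqrt (1 - F r ^ 2) =
      Real.sqrt (Del (Real.cosh r) (Real.cosh q)) / (Real.sinh r * Real.sinh q) := by
    rw [h1F, Real.sqrt_div' _ (by positivity), Real.sqrt_sq (by positivity)]
  have hfun : (fun x => Th x q) = Real.arccos ∘ F := rfl
  rw [hfun]
  refine hA.congr_deriv ?_
  rw [hsqrt]
  have hsr0 := hsr.ne'
  have hsq0 := hsq.ne'
  have hsD0 := hsqD.ne'
  field_simp

theorem Th_continuousOn (q : ℝ) (hq : 0 < q) : ContinuousOn (fun x => Th x q) (Set.Ioi 0) := by
  unfold Th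
  apply Real.continuous_arccos.comp_continuousOn
  apply ContinuousOn.div
  · fun_prop
  · fun_prop
  · intro x hx
    exact (mul_pos (Real.sinh_pos_iff.mpr hx) (Real.sinh_pos_iff.mpr hq)).ne'

/-- mean value inequality: if the rate is at least g on (r, ea) then Th r q >= Th ea q + g (ea - r) -/
theorem Th_mvt (r q g : ℝ) (hr : 0 < r) (hr' : r ≤ ea) (hq : 0 < q) (hq' : q ≤ ea)
    (hs : ea ≤ r + q)
    (hg : ∀ x, r < x → x < ea → g ≤ (Cc * Real.cosh x - Real.cosh q) /
        (Real.sinh x * Real.sqrt (Del (Real.cosh x) (Real.cosh q)))) :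
    Th ea q + g * (ea - r) ≤ Th r q := by
  have hD : ∀ x ∈ interior (Set.Icc r ea), HasDerivAt (fun x => Th x q + g * x)
      (-((Cc * Real.cosh x - Real.cosh q) /
        (Real.sinh x * Real.sqrt (Del (Real.cosh x) (Real.cosh q)))) + g * 1) x := by
    intro x hx
    rw [interior_Icc] at hx
    have h := Th_hasDerivAt x q (hr.trans hx.1) hx.2.le hq hq' (by linarith [hx.1])
    exact h.add ((hasDerivAt_id x).const_mul g)
  have hanti : AntitoneOn (fun x => Th x q + g * x) (Set.Icc r ea) := by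
    apply antitoneOn_of_deriv_nonpos (convex_Icc r ea)
    · apply ContinuousOn.add
      · exact (Th_continuousOn q hq).mono (fun x hx => lt_of_lt_of_le hr hx.1)
      · fun_prop
    · intro x hx
      exact (hD x hx).differentiableAt.differentiableWithinAt
    · intro x hx
      rw [(hD x hx).deriv]
      rw [interior_Icc] at hx
      have := hg x hx.1 hx.2
      linarith
  have h := hanti (Set.left_mem_Icc.mpr hr') (Set.right_mem_Icc.mpr hr') hr'
  simp only at h
  linarith

end Pool.Agent.H78.SS
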